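import Pool.Agent.Lib.MP_9177b7_ag.L.DynL
import Pool.Agent.Lib.MP_9177b7_ag.J.Kap
import Pool.Agent.Lib.MP_9177b7_ag.J.Weak

/-!
Families of lattices with level structure: assembly of the two cases.
-/

open MeasureTheory Filter Topology Set Pointwise
open scoped BoundedContinuousFunction

noncomputable section

namespace Pool.Agent.Lib.MP_9177b7_ag.J.Lv

open Fld Dyn AsmN

variable (k : Fld) {w : ℂ} {M : ℕ} {A : Type} {a₀ : A}

variable (w) in
/-- The hypotheses on the family. -/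
structure DL {ι : Type} (M : ℕ) (a₀ : A) (g : ι → A → Matrix (Fin 2) (Fin 2) ℤ) (F : ℕ → ℕ+)
    (L : ι × A → ℕ → Submodule ℤ k.K) (c : ι → ℕ → ℚ) (f : ι → ℕ → ℕ)
    (h : ∀ n, k.SF (F n) → ℝ) : Prop where
  lv : LvD M a₀ g
  base : Dt k F (fun i => L (i, a₀)) c f
  lat : ∀ p n, k.Lat (L p n) ((g p.1 p.2).det * c p.1 n)
  adm : ∀ p n, k.Adm (F n) (L p n)
  le : ∀ p n, L p n ≤ L (p.1, a₀) n
  ge : ∀ p n, (M : k.K) • L (p.1, a₀) n ≤ L p n
  bdd : ∀ n s, |h n s| ≤ 1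
  sup : ∀ n s, h n s ≠ 0 → ∀ i, Cmp k w (g i) a₀ (c i n) fun a => act s (L (i, a) n)

variable {k}

theorem dep_sand {l e : ℕ} (hl : l.Prime) (hM : ¬ l ∣ M) {L L₀ : Submodule ℤ k.K} (h1 : L ≤ L₀)
    (h2 : (M : k.K) • L₀ ≤ L) (h : k.Dep l e L₀) : k.Dep l e L := by
  obtain ⟨u, hu, a, b⟩ := h
  refine ⟨M * u, fun h => (hl.dvd_mul.1 h).elim hM hu, fun x hx => ?_, fun x hx => ?_⟩
  · rw [Nat.cast_mul, mul_assoc]
    exact h2 ⟨_, a x hx, rfl⟩
  · rw [Nat.cast_mul, mul_assoc]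
    exact Excl.nat_mem _ (b x (h1 hx))

theorem adm_sand {f : ℕ} {L L₀ : Submodule ℤ k.K} (h1 : L ≤ L₀) (h2 : (M : k.K) • L₀ ≤ L)
    (h : k.Adm f L₀) : k.Adm (M * f) L := fun x hx => by
  rw [Nat.cast_mul, mul_assoc, mul_assoc, ← mul_assoc (f : k.K)]
  exact h2 ⟨_, h x (h1 hx), rfl⟩

theorem act_smul {F : ℕ+} (s : k.SF F) (α : k.K) (L : Submodule ℤ k.K) :
    act s (α • L) = α • act s L := mul_smul_comm _ _ _

theorem cmp_smul {g : A → Matrix (Fin 2) (Fin 2) ℤ} {c : ℚ} {L : A → Submodule ℤ k.K}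
    (h : Cmp k w g a₀ c L) {α : k.K} (hα : α ≠ 0) :
    Cmp k w g a₀ (QuadraticAlgebra.norm α * c) fun a => α • L a := by
  obtain ⟨x, y, o, e⟩ := h
  have sp : ∀ x y : k.K, α • Submodule.span ℤ ({x, y} : Set k.K) =
      Submodule.span ℤ {α * x, α * y} := fun x y => by
    rw [Submodule.smul_span, Set.smul_set_insert, Set.smul_set_singleton]
    rfl
  have hd : k.det2 (α * x) (α * y) = QuadraticAlgebra.norm α * k.det2 x y := by
    rw [← lin_zero, ← lin_zero, det2_lin]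
    simp
  have hN : 0 < QuadraticAlgebra.norm α := lt_of_le_of_ne (Excl.norm_nonneg' α) fun h =>
    hα (QuadraticAlgebra.norm_eq_zero_iff_eq_zero.1 h.symm)
  refine ⟨α * x, α * y, ⟨by rw [← sp, ← o.1], by rw [hd, abs_mul, abs_of_pos hN, o.2.1], ?_⟩,
    fun a => ?_⟩
  · rw [hd, Rat.cast_mul, mul_left_comm]
    exact mul_pos (by exact_mod_cast hN) o.2.2
  · beta_reduce
    rw [e, sub, sub, sp]
    simp only [c0, c1, mul_add, mul_smul_comm]

variable {ι : Type} {g : ι → A → Matrix (Fin 2) (Fin 2) ℤ} {F : ℕ → ℕ+}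
  {L : ι × A → ℕ → Submodule ℤ k.K} {c : ι → ℕ → ℚ} {f : ι → ℕ → ℕ} {h : ∀ n, k.SF (F n) → ℝ}

theorem DL.comp (D : DL k w M a₀ g F L c f h) {ns : ℕ → ℕ} (hns : Tendsto ns atTop atTop) :
    DL k w M a₀ g (fun n => F (ns n)) (fun p n => L p (ns n)) (fun i n => c i (ns n))
      (fun i n => f i (ns n)) fun n => h (ns n) :=
  ⟨D.lv, D.base.comp hns, fun p _ => D.lat p _, fun p _ => D.adm p _, fun p _ => D.le p _,
    fun p _ => D.ge p _, fun _ => D.bdd _, fun _ => D.sup _⟩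

theorem DL.sub (D : DL k w M a₀ g F L c f h) (p : ι → Prop) {h' : ∀ n, k.SF (F n) → ℝ}
    (hb : ∀ n s, |h' n s| ≤ 1) (h0 : ∀ n s, h' n s ≠ 0 → h n s ≠ 0) :
    DL k w M a₀ (fun i : {i // p i} => g i) F (fun q => L (q.1, q.2)) (fun i => c i)
      (fun i => f i) h' :=
  ⟨⟨D.lv.pos, fun i => D.lv.det i, fun i => D.lv.one i⟩, D.base.sub p, fun q => D.lat (q.1, q.2),
    fun q => D.adm (q.1, q.2), fun q => D.le (q.1, q.2), fun q => D.ge (q.1, q.2), hb,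
    fun n s hs i => D.sup n s (h0 n s hs) i⟩

theorem transfer' (hw : k.Root w) {l₁ l₂ : ℕ} [Fact l₁.Prime]
    [Fact l₂.Prime] {r₁ : ℚ_[l₁]} {r₂ : ℚ_[l₂]} (hne : l₁ ≠ l₂) (o₁ : l₁ ≠ 2) (o₂ : l₂ ≠ 2)
    (d₁ : ¬ (l₁ : ℤ) ∣ k.D) (d₂ : ¬ (l₂ : ℤ) ∣ k.D) (h₁ : k.Root r₁) (h₂ : k.Root r₂)
    (c₁ : ¬ l₁ ∣ M) (c₂ : ¬ l₂ ∣ M) [Fintype ι] (D : DL k w M a₀ g F L c f h)
    (φ : ι → (A → ℂ) →ᵇ ℝ) :
    ∃ (u : ∀ n, k.SF (F n)) (L' : ι × A → ℕ → Submodule ℤ k.K) (c' : ι → ℕ → ℚ)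
      (κ : ∀ n, Measure (MM l₁ l₂ × k.SF (F n))),
      Core k r₁ r₂ F (fun i => L' (i, a₀)) c' (fun i n => (f i n).factorization l₁)
        (fun i n => (f i n).factorization l₂) (fun n s => h n (s * u n)) κ ∧
      Ext k l₁ l₂ w M a₀ g F L' c' (fun i n => (f i n).factorization l₁)
        (fun i n => (f i n).factorization l₂) (fun n s => h n (s * u n)) ∧
      (Tendsto (fun n => ∫ q, h n (q.2 * u n) * JL k w M g (fun p => L' p n) φ q.2 ∂κ n) atTop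
        (𝓝 0) → Tendsto (fun n => k.avg (F n) fun s => h n s * JL k w M g (fun p => L p n) φ s)
          atTop (𝓝 0)) := by
  have g₁ : Good k r₁ := ⟨h₁, (pi_stmt basic k l₁ r₁ h₁ d₁).1, (pi_stmt basic k l₁ r₁ h₁ d₁).2.1⟩
  have g₂ : Good k r₂ := ⟨h₂, (pi_stmt basic k l₂ r₂ h₂ d₂).1, (pi_stmt basic k l₂ r₂ h₂ d₂).2.1⟩
  choose κ hκ using fun n => kap loc k l₁ l₂ r₁ r₂ hne o₁ o₂ g₁ g₂ (F n)
  choose u hu using fun n =>
    haveI := (hκ n).prob
    avg_le (κ n) fun s => h n s * JL k w M g (fun p => L p n) φ s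
  have B := D.base
  have a := fun i n => (basic k).2.2.2.2.2.2.2.1 (F n) _ _ (B.lat i n) (B.adm i n)
  have b := fun i n => (a i n).2 (u n)
  have b' := fun p n => DynN.act_lat k (D.lat p n) (D.adm p n) (u n)
  choose α hα e₁ e₂ using fun i n => (lat k).1 (act (u n) (L (i, a₀) n)) (c i n) (f i n) l₁ l₂
    (b i n).1 ((b i n).2.2.2.1 _ (B.cond i n)) Fact.out Fact.out
  have s1 : ∀ p n, α p.1 n • act (u n) (L p n) ≤ α p.1 n • act (u n) (L (p.1, a₀) n) := fun p n =>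
    Submodule.map_mono (mul_le_mul' le_rfl (D.le p n))
  have s2 : ∀ p n, (M : k.K) • α p.1 n • act (u n) (L (p.1, a₀) n) ≤ α p.1 n • act (u n) (L p n) :=
    fun p n => by
      rw [smul_comm, ← act_smul]
      exact Submodule.map_mono (mul_le_mul' le_rfl (D.ge p n))
  have s3 : ∀ i a n s, act s (α i n • act (u n) (L (i, a) n)) =
      α i n • act (s * u n) (L (i, a) n) :=
    fun i a n s => by rw [act_smul, DynN.act_mul k (D.lat _ n) (D.adm _ n)]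
  refine ⟨u, fun p n => α p.1 n • act (u n) (L p n),
    fun i n => QuadraticAlgebra.norm (α i n) * c i n,
    κ, ⟨hne, o₁, o₂, d₁, d₂, g₁, g₂, hκ, fun i n => lat_smul (b i n).1 (hα i n),
      fun i n => Excl.adm_smul _ (b i n).2.1, e₁, e₂, fun i a ha => ?_, fun i j hij B' => ?_,
      fun n s => D.bdd n _⟩, ⟨D.lv, c₁, c₂, fun p n => ⟨?_, Excl.adm_smul _ (b' p n).2,
        dep_sand Fact.out c₁ (s1 p n) (s2 p n) (e₁ _ n),
        dep_sand Fact.out c₂ (s1 p n) (s2 p n) (e₂ _ n)⟩, fun n s hs i => ?_⟩, fun ht => ?_⟩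
  · exact (B.big i a ha).mono fun n hn hA => hn ((B.cond i n a).2
      (((b i n).2.2.2.1 _ (B.cond i n) a).1 (adm_of_smul (hα i n) hA)))
  · exact (B.str i j hij B').mono fun n hn => str_smul (hα i n) (hα j n) fun β hβ hle =>
      hn β hβ (strict_act (B.lat i n) (B.adm i n) (B.lat j n) (B.adm j n) (u n) hle)
  · rw [mul_left_comm]
    exact lat_smul (b' p n).1 (hα _ n)
  · simp only [s3]
    exact cmp_smul (D.sup n _ hs i) (hα i n)
  · rw [tendsto_zero_iff_abs_tendsto_zero] at ht ⊢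
    refine squeeze_zero (fun n => abs_nonneg _) (fun n => (hu n).trans (le_of_eq ?_)) ht
    simp only [Function.comp, JL, s3, jL_smul hw _ (hα _ n)]

/-- The splitting step. -/
theorem step' [Fintype A] (hw : k.Root w) {l₁ l₂ : ℕ} (hne : l₁ ≠ l₂) (s₁ : Spl k l₁)
    (s₂ : Spl k l₂) (c₁ : ¬ l₁ ∣ M) (c₂ : ¬ l₂ ∣ M) [Fintype ι] {N : ℕ} (hN : 0 < N)
    (D : DL k w M a₀ g F L c f h) (hi : ∀ n s u, h n (u ^ N * s) = h n s) (φ : ι → (A → ℂ) →ᵇ ℝ)
    (p : ι → Prop) [DecidablePred p]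
    {m₁ m₂ : ℕ → ℕ} {d : ℕ} (t₁ : Tendsto m₁ atTop atTop) (t₂ : Tendsto m₂ atTop atTop)
    (u₁ : ∀ i n, (f i n).factorization l₁ ≤ m₁ n) (u₂ : ∀ i n, (f i n).factorization l₂ ≤ m₂ n)
    (b₁ : ∀ i, p i → ∀ n, m₁ n - (f i n).factorization l₁ ≤ d)
    (b₂ : ∀ i, p i → ∀ n, m₂ n - (f i n).factorization l₂ ≤ d)
    (n₁ : ∀ i, ¬ p i → Tendsto (fun n => m₁ n - (f i n).factorization l₁) atTop atTop)
    (ih : Tendsto (fun n => k.avg (F n) fun s => h n s * JL k w M (fun i : {i // ¬ p i} => g i)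
      (fun q => L (q.1, q.2) n) (fun i => φ i) s) atTop (𝓝 0)) :
    Tendsto (fun n => k.avg (F n) fun s => h n s * JL k w M g (fun p => L p n) φ s) atTop
      (𝓝 0) := by
  obtain ⟨p₁, o₁, d₁, r₁, h₁⟩ := s₁
  obtain ⟨p₂, o₂, d₂, r₂, h₂⟩ := s₂
  have hfF : ∀ i n, f i n ∣ F n := fun i n => (D.base.cond i n _).1 (D.base.adm i n)
  have hf0 : ∀ i n, f i n ≠ 0 := fun i n => ne_zero_of_dvd_ne_zero (F n).ne_zero (hfF i n)
  set C : ℝ := ∏ i : {i // ¬ p i}, (‖φ i‖ + 1) with hC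
  have hC0 : 0 < C := Finset.prod_pos fun i _ => by positivity
  let b : ℕ → ℕ := fun n =>
    Finset.univ.sup fun i : {i // ¬ p i} => (f i n).factorization l₁
  let G : ℕ → ℕ := fun n => (F n : ℕ) / l₁ ^ (F n : ℕ).factorization l₁ * l₁ ^ b n
  have hG : ∀ n, G n ∣ F n := fun n => mix_dvd (Finset.sup_le fun i _ =>
    (Nat.factorization_le_iff_dvd (hf0 i n) (F n).ne_zero).2 (hfF i n) l₁)
  let h' : ∀ n, k.SF (F n) → ℝ := fun n s => h n s *
    (∏ i : {i // ¬ p i}, φ i fun a => CM.jL ((act s (L (i, a) n)).map (k.ioL w))) / C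
  have hb' : ∀ n s, |h' n s| ≤ 1 := fun n s => by
    simp only [h']
    rw [abs_div, abs_of_pos hC0, div_le_one hC0, abs_mul, Finset.abs_prod]
    refine (mul_le_of_le_one_left (Finset.prod_nonneg fun _ _ => abs_nonneg _) (D.bdd n s)).trans ?_
    exact Finset.prod_le_prod (fun _ _ => abs_nonneg _) fun i _ =>
      ((φ i).norm_coe_le_norm _).trans (by linarith)
  have hi' : ∀ n s t, One (G n) t → h' n (t ^ N * s) = h' n s := fun n s t ht => by
    simp only [h']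
    rw [hi]
    congr 2
    refine Finset.prod_congr rfl fun i _ => congrArg _ (funext fun a => ?_)
    obtain ⟨f', -, hf', -⟩ := (basic k).2.2.2.2.2.2.1 _ _ (D.lat (i, a) n)
    have h1 := (hf' _).1 (adm_sand (D.le (i, a) n) (D.ge (i, a) n) ((D.base.cond i n _).2 dvd_rfl))
    have h2 := (Nat.factorization_le_iff_dvd (ne_zero_of_dvd_ne_zero
      (mul_ne_zero D.lv.pos.ne' (hf0 i n)) h1) (mul_ne_zero D.lv.pos.ne' (hf0 i n))).2 h1 l₁
    rw [Nat.factorization_mul D.lv.pos.ne' (hf0 i n), Finsupp.add_apply,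
      Nat.factorization_eq_zero_of_not_dvd c₁, zero_add] at h2
    rw [act_pow lat (hG n) ht (D.lat (i, a) n) (D.adm (i, a) n) ((hf' _).2 (dvd_mix
      ((hf' _).1 (D.adm (i, a) n)) (h2.trans (Finset.le_sup
        (f := fun i : {i // ¬ p i} => (f i n).factorization l₁) (Finset.mem_univ i)))))]
  obtain ⟨u, L', c', κ, hco, hx, ht⟩ := transfer' hw hne o₁ o₂ d₁ d₂ h₁ h₂ c₁ c₂
    (D.sub p hb' fun n s hs h0 => hs (by simp [h', h0])) fun i => φ i
  have h1 := ht (dynU' k hw hN hco hx (G := G) (fun i => ?_) (d := d) (fun i j n => ?_) hG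
    (fun i a => ?_) (fun n s t htt => ?_) fun i => φ i)
  · have h2 := (h1.const_mul C).add (ih.const_mul (∏ i : {i // p i}, ∫ z, φ i z ∂muZ M (g i)))
    rw [mul_zero, mul_zero, add_zero] at h2
    refine h2.congr fun n => ?_
    simp only [Fld.avg]
    rw [← mul_div_assoc, ← mul_div_assoc, ← add_div, Finset.mul_sum, Finset.mul_sum,
      ← Finset.sum_add_distrib]
    congr 1
    refine Finset.sum_congr rfl fun s _ => ?_
    simp only [h', JL]
    rw [← Fintype.prod_subtype_mul_prod_subtype p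
      (fun i => φ i fun a => CM.jL ((act s (L (i, a) n)).map (k.ioL w))),
      ← Fintype.prod_subtype_mul_prod_subtype p (fun i => ∫ z, φ i z ∂muZ M (g i))]
    field_simp
    ring
  · refine tendsto_atTop.2 fun a => (tendsto_atTop.1 t₂ (a + d)).mono fun n hn => ?_
    have := b₂ i i.2 n
    omega
  · have := b₁ j j.2 n
    have := b₂ j j.2 n
    have := u₁ i n
    have := u₂ i n
    constructor <;> omega
  · have h3 : ∀ᶠ n in atTop, ∀ j : {i // ¬ p i}, a + d ≤ m₁ n - (f j n).factorization l₁ :=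
      eventually_all.2 fun j => tendsto_atTop.1 (n₁ j j.2) _
    filter_upwards [h3, tendsto_atTop.1 t₁ (a + d)] with n h3 h4
    have h5 : b n ≤ m₁ n - (a + d) := Finset.sup_le fun j _ => by
      have := h3 j
      have := u₁ j n
      omega
    have h6 := b₁ i i.2 n
    have h7 : (G n).factorization l₁ = b n := mix_fact p₁.out (F n).ne_zero
    omega
  · rw [mul_assoc, hi' n _ t htt]

theorem primes' (k : Fld) (hM : 0 < M) (m : ℕ) :
    ∃ T : Finset ℕ, T.card = m ∧ ∀ l ∈ T, Spl k l ∧ ¬ l ∣ M := by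
  have : {l | Spl k l ∧ ¬ l ∣ M}.Infinite := Set.infinite_of_forall_exists_gt fun a => by
    obtain ⟨l, hl, h1, h2, h3⟩ := split_stmt k (a + 2 + M)
    exact ⟨l, ⟨⟨hl, by omega, h2, h3⟩, fun h => by have := Nat.le_of_dvd hM h; omega⟩, by omega⟩
  obtain ⟨T, h1, h2⟩ := this.exists_subset_card_eq m
  exact ⟨T, h2, fun l hl => h1 hl⟩

theorem main' [Fintype A] (hw : k.Root w) {N : ℕ} (hN : 0 < N) (m : ℕ) : ∀ (ι : Type) [Fintype ι],
    Fintype.card ι = m → ∀ (g : ι → A → Matrix (Fin 2) (Fin 2) ℤ) (F : ℕ → ℕ+)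
      (L : ι × A → ℕ → Submodule ℤ k.K) (c : ι → ℕ → ℚ) (f : ι → ℕ → ℕ) (h : ∀ n, k.SF (F n) → ℝ),
      DL k w M a₀ g F L c f h → (∀ n s u, h n (u ^ N * s) = h n s) → ∀ φ : ι → (A → ℂ) →ᵇ ℝ,
      Tendsto (fun n => k.avg (F n) fun s => h n s * JL k w M g (fun p => L p n) φ s) atTop
        (𝓝 0) := by
  classical
  induction m using Nat.strong_induction_on with
  | _ m ih =>
  intro ι _ hm g
  suffices H : ∀ (F : ℕ → ℕ+) (L : ι × A → ℕ → Submodule ℤ k.K) (c : ι → ℕ → ℚ)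
      (f : ι → ℕ → ℕ) (h : ∀ n, k.SF (F n) → ℝ), DL k w M a₀ g F L c f h →
      (∀ n s u, h n (u ^ N * s) = h n s) → ∀ φ : ι → (A → ℂ) →ᵇ ℝ, ∃ ms : ℕ → ℕ,
      Tendsto (fun n => k.avg (F (ms n)) fun s => h (ms n) s *
        JL k w M g (fun p => L p (ms n)) φ s) atTop (𝓝 0) by
    intro F L c f h D hi φ
    exact tendsto_of_subseq_tendsto fun ns hns => H _ _ _ _ _ (D.comp hns) (fun n => hi _) φ
  intro F L c f h D hi φ
  obtain ⟨T, hT, hTs⟩ := primes' k D.lv.pos (2 ^ m + 1)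
  let mx : ℕ → ℕ → ℕ := fun l n => Finset.univ.sup fun i => (f i n).factorization l
  have hmx : ∀ l i n, (f i n).factorization l ≤ mx l n := fun l i n =>
    Finset.le_sup (f := fun i => (f i n).factorization l) (Finset.mem_univ i)
  let a : ℕ × Option ι → ℕ → ℕ := fun j n =>
    j.2.elim (mx j.1 n) fun i => mx j.1 n - (f i n).factorization j.1
  obtain ⟨ms, hms, ha⟩ := subseq (T ×ˢ Finset.univ) a
  refine ⟨ms, ?_⟩
  have D' := D.comp hms.tendsto_atTop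
  let ty : ℕ → Finset ι := fun l => if ∃ d, ∀ n, mx l (ms n) ≤ d then ∅ else
    Finset.univ.filter fun i => ∃ d, ∀ n, mx l (ms n) - (f i (ms n)).factorization l ≤ d
  have a0 : ∀ l ∈ T, (∃ d, ∀ n, mx l (ms n) ≤ d) ∨ Tendsto (fun n => mx l (ms n)) atTop atTop :=
    fun l hl => ha (l, none) (by simp [hl])
  have a1 : ∀ l ∈ T, ∀ i, (∃ d, ∀ n, mx l (ms n) - (f i (ms n)).factorization l ≤ d) ∨
      Tendsto (fun n => mx l (ms n) - (f i (ms n)).factorization l) atTop atTop :=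
    fun l hl i => ha (l, some i) (by simp [hl])
  have a2 : ∀ l ∈ T, ty l = ∅ → ∃ d, ∀ n, mx l (ms n) ≤ d := fun l hl h0 => by
    by_contra hn
    have h1 : ∀ i, Tendsto (fun n => mx l (ms n) - (f i (ms n)).factorization l) atTop atTop :=
      fun i => (a1 l hl i).resolve_left fun h2 => by
        have : i ∈ ty l := by simp only [ty, if_neg hn]; simpa using h2
        simp [h0] at this
    have h2 : ∀ᶠ n in atTop, ∀ i, 1 ≤ mx l (ms n) - (f i (ms n)).factorization l :=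
      eventually_all.2 fun i => tendsto_atTop.1 (h1 i) 1
    obtain ⟨n, h3, h4⟩ := (h2.and (tendsto_atTop.1 ((a0 l hl).resolve_left hn) 1)).exists
    have h5 : mx l (ms n) ≤ mx l (ms n) - 1 := Finset.sup_le fun i _ => by
      have := h3 i
      omega
    omega
  have a3 : ∀ l ∈ T, ty l ≠ ∅ → Tendsto (fun n => mx l (ms n)) atTop atTop ∧
      (∃ d, ∀ i ∈ ty l, ∀ n, mx l (ms n) - (f i (ms n)).factorization l ≤ d) ∧ ∀ i ∉ ty l,
      Tendsto (fun n => mx l (ms n) - (f i (ms n)).factorization l) atTop atTop := fun l hl h0 => by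
    have hn : ¬ ∃ d, ∀ n, mx l (ms n) ≤ d := fun hn => h0 (by simp only [ty, if_pos hn])
    have h1 : ∀ i, i ∈ ty l ↔ ∃ d, ∀ n, mx l (ms n) - (f i (ms n)).factorization l ≤ d :=
      fun i => by simp only [ty, if_neg hn, Finset.mem_filter, Finset.mem_univ, true_and]
    refine ⟨(a0 l hl).resolve_left hn, ?_, fun i hi => (a1 l hl i).resolve_left fun h2 =>
      hi ((h1 i).2 h2)⟩
    choose! d hd using fun i hi => (h1 i).1 hi
    exact ⟨Finset.univ.sup d, fun i hi n => (hd i hi n).trans (Finset.le_sup (Finset.mem_univ i))⟩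
  obtain ⟨l₁, hl₁, l₂, hl₂, hne, hty⟩ := Finset.exists_ne_map_eq_of_card_lt_of_maps_to
    (s := T) (t := (Finset.univ : Finset (Finset ι))) (f := ty)
    (by rw [hT, Finset.card_univ, Fintype.card_finset, hm]; omega) fun _ _ => by simp
  by_cases h0 : ty l₁ = ∅
  · obtain ⟨e₁, he₁⟩ := a2 l₁ hl₁ h0
    obtain ⟨e₂, he₂⟩ := a2 l₂ hl₂ (hty ▸ h0)
    obtain ⟨⟨p₁, o₁, d₁, r₁, h₁⟩, c₁⟩ := hTs l₁ hl₁
    obtain ⟨⟨p₂, o₂, d₂, r₂, h₂⟩, c₂⟩ := hTs l₂ hl₂
    obtain ⟨u, L', c', κ, hco, hx, ht⟩ := transfer' hw hne o₁ o₂ d₁ d₂ h₁ h₂ c₁ c₂ D' φ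
    refine ht (dynB' k hw hN hco hx (d := e₁ + e₂) (fun i n => ?_) (fun n s t => ?_) φ)
    · have := he₁ n
      have := he₂ n
      have := hmx l₁ i (ms n)
      have := hmx l₂ i (ms n)
      constructor <;> omega
    · rw [mul_assoc, hi]
  · obtain ⟨t₁, ⟨e₁, he₁⟩, n₁⟩ := a3 l₁ hl₁ h0
    obtain ⟨t₂, ⟨e₂, he₂⟩, -⟩ := a3 l₂ hl₂ (hty ▸ h0)
    refine step' hw hne (hTs l₁ hl₁).1 (hTs l₂ hl₂).1 (hTs l₁ hl₁).2 (hTs l₂ hl₂).2 hN D'
      (fun n => hi _) φ (· ∈ ty l₁) (d := e₁ + e₂) t₁ t₂ (fun i n => hmx _ _ _)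
      (fun i n => hmx _ _ _) (fun i hi n => (he₁ i hi n).trans (Nat.le_add_right _ _))
      (fun i hi n => (he₂ i (hty ▸ hi) n).trans (Nat.le_add_left _ _)) n₁ ?_
    obtain ⟨i₀, hi₀⟩ := Finset.nonempty_iff_ne_empty.2 h0
    exact ih _ (hm ▸ Fintype.card_subtype_lt (p := fun i => ¬ i ∈ ty l₁) (x := i₀)
      (not_not.2 hi₀)) _ rfl _ _ _ _ _ _ (D'.sub (fun i => ¬ i ∈ ty l₁) D'.bdd fun _ _ h => h)
      (fun n => hi _) fun i => φ i

end Pool.Agent.Lib.MP_9177b7_ag.J.Lv
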