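import Pool.Agent.Lib.MP_9177b7_ag.J.Mix
import Pool.Agent.Lib.MP_9177b7_ag.J.DynN1

/-!
Finite covers of homogeneous spaces: the invariant measure of the cover dominates every measure
whose projection is dominated by the invariant measure of the base.
-/

open MeasureTheory Filter Topology Set
open scoped ENNReal NNReal BoundedContinuousFunction

noncomputable section

namespace Pool.Agent.Lib.MP_9177b7_ag.J.Lv

/-- Invariance in each single coordinate gives the product measure. -/
theorem pi_of_inv {X P κ : Type} [MeasurableSpace X] [Fintype κ] [DecidableEq κ] (μ : Measure X)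
    [IsProbabilityMeasure μ] (T : P → X → X) (hT : ∀ p, Measurable (T p))
    (hE : ∀ lam : Measure X, IsFiniteMeasure lam → (∀ p, lam.map (T p) = lam) →
      lam = lam univ • μ) (lam : Measure (κ → X)) [IsProbabilityMeasure lam]
    (hinv : ∀ i p, lam.map (fun z => Function.update z i (T p (z i))) = lam) :
    lam = Measure.pi fun _ : κ => μ := by
  have key : ∀ (A : κ → Set X), (∀ i, MeasurableSet (A i)) → ∀ s : Finset κ,
      lam (Set.pi (s : Set κ) A) = ∏ i ∈ s, μ (A i) := by
    intro A hA s
    induction s using Finset.induction_on with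
    | empty => simp
    | insert i s hi ih =>
      have hB : MeasurableSet (Set.pi (s : Set κ) A) :=
        MeasurableSet.pi s.countable_toSet fun j _ => hA j
      have hev : Measurable fun z : κ → X => z i := measurable_pi_apply i
      have hi' : ∀ p, ((lam.restrict (Set.pi (s : Set κ) A)).map (fun z => z i)).map (T p) =
          (lam.restrict (Set.pi (s : Set κ) A)).map (fun z => z i) := fun p => by
        have hm : Measurable fun z : κ → X => Function.update z i (T p (z i)) :=
          measurable_update'.comp (measurable_id.prodMk ((hT p).comp hev))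
        have e1 : (fun z : κ → X => Function.update z i (T p (z i))) ⁻¹' (Set.pi (s : Set κ) A) =
            Set.pi (s : Set κ) A := by
          ext z
          simp only [mem_preimage, Set.mem_pi, Finset.mem_coe]
          refine forall₂_congr fun j hj => ?_
          rw [Function.update_of_ne (ne_of_mem_of_not_mem hj hi)]
        have e2 : lam.restrict (Set.pi (s : Set κ) A) = (lam.restrict (Set.pi (s : Set κ) A)).map
            (fun z : κ → X => Function.update z i (T p (z i))) := by
          conv_lhs => rw [← hinv i p, Measure.restrict_map hm hB, e1]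
        conv_rhs => rw [e2]
        rw [Measure.map_map (hT p) hev, Measure.map_map hev hm]
        congr 1
        funext z
        simp
      have h3 := congrArg (fun m : Measure X => m (A i)) (hE _ inferInstance hi')
      simp only [Measure.smul_apply, smul_eq_mul] at h3
      rw [Measure.map_apply hev (hA i), Measure.map_apply hev MeasurableSet.univ,
        Measure.restrict_apply (hev (hA i)), preimage_univ, Measure.restrict_apply_univ, ih] at h3
      rw [Finset.coe_insert, insert_pi, Finset.prod_insert hi, mul_comm (μ (A i)), ← h3]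
  refine (Measure.pi_eq fun A hA => ?_).symm
  have := key A hA Finset.univ
  rwa [Finset.coe_univ] at this

/-- A factor of an ergodic family is ergodic. -/
theorem erg_map {X Y P : Type} [MeasurableSpace X] [MeasurableSpace Y] {ρ : Measure X}
    [IsProbabilityMeasure ρ] {Ψ : X → Y} (hΨ : Measurable Ψ) {T' : P → X → X} {T : P → Y → Y}
    (hT' : ∀ p, Measurable (T' p)) (hT : ∀ p, MeasurableEmbedding (T p))
    (hi : ∀ p, ρ.map (T' p) = ρ) (e : ∀ p x, Ψ (T' p x) = T p (Ψ x)) (hE : ErgF ρ T') :
    ErgF (ρ.map Ψ) T := by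
  intro lam hle hl
  have : IsProbabilityMeasure (ρ.map Ψ) := Measure.isProbabilityMeasure_map hΨ.aemeasurable
  have : IsFiniteMeasure lam := isFiniteMeasure_of_le _ hle
  set f := lam.rnDeriv (ρ.map Ψ) with hf
  have hfm : Measurable f := Measure.measurable_rnDeriv _ _
  have h1 : f ≤ᵐ[ρ.map Ψ] 1 := Measure.rnDeriv_le_one_of_le hle
  have h2 : (ρ.withDensity (f ∘ Ψ)).map Ψ = lam := by
    refine Measure.ext_of_lintegral _ fun φ hφ => ?_
    rw [lintegral_map hφ hΨ, lintegral_withDensity_eq_lintegral_mul _ (hfm.comp hΨ)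
      (g := fun a => φ (Ψ a)) (hφ.comp hΨ),
      ← Measure.withDensity_rnDeriv_eq lam _ (Measure.absolutelyContinuous_of_le hle),
      lintegral_withDensity_eq_lintegral_mul _ hfm hφ, lintegral_map (hfm.mul hφ) hΨ]
    rfl
  have h3 := hE (ρ.withDensity (f ∘ Ψ)) (by
    refine (withDensity_mono (ae_of_ae_map hΨ.aemeasurable h1)).trans ?_
    exact (withDensity_one (μ := ρ)).le) fun p => by
      have a1 : (ρ.map Ψ).map (T p) = ρ.map Ψ :=
        DynN.map_inv (hT' p) (hi p) hΨ (hT p).measurable (e p)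
      have a2 := (hT p).rnDeriv_map lam (ρ.map Ψ)
      rw [hl p, a1] at a2
      have a3 := ae_of_ae_map hΨ.aemeasurable a2
      refine Measure.ext_of_lintegral _ fun φ hφ => ?_
      rw [lintegral_map hφ (hT' p),
        lintegral_withDensity_eq_lintegral_mul _ (hfm.comp hΨ) (g := fun a => φ (T' p a))
          (hφ.comp (hT' p)),
        lintegral_withDensity_eq_lintegral_mul _ (hfm.comp hΨ) hφ]
      conv_rhs => rw [← hi p, lintegral_map ((hfm.comp hΨ).mul hφ) (hT' p)]
      refine lintegral_congr_ae (a3.mono fun x hx => ?_)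
      simp only [Pi.mul_apply, Function.comp, e]
      exact congrArg (· * _) (Eq.symm hx)
  have h4 : ρ.withDensity (f ∘ Ψ) univ = lam univ := by
    rw [← h2, Measure.map_apply hΨ MeasurableSet.univ, preimage_univ]
  rw [← h4, ← Measure.map_smul, ← h3, h2]

/-- The weighted limit: off the weight zero the measure is a product. -/
theorem lift_zero {Y Z P : Type} [TopologicalSpace Y] [PolishSpace Y] [MeasurableSpace Y]
    [BorelSpace Y] [MeasurableSpace Z] {ν : Measure (Y × DynN.II)} [IsProbabilityMeasure ν]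
    {W : Set Y} (hW : MeasurableSet W) (hs : ν {z | z.1 ∉ W ∧ (z.2 : ℝ) ≠ 0} = 0) {p : Y → Z}
    (hp : Measurable p) {π : Measure Z} (hπ : ν.map (fun z => p z.1) = π) {ρ : Measure Y}
    [IsProbabilityMeasure ρ] {C : ℕ} (hC : C ≠ 0)
    (hd : ∀ lam : Measure Y, lam Wᶜ = 0 → lam.map p ≤ π → lam ≤ (C : ℝ≥0∞) • ρ) {T : P → Y → Y}
    (hT : ∀ q, Measurable (T q)) (hE : ErgF ρ T) (hi : ∀ q, ν.map (Prod.map (T q) id) = ν)
    (f : Y →ᵇ ℝ) (hf : ∫ y, f y ∂ρ = 0) : ∫ z, (z.2 : ℝ) * f z.1 ∂ν = 0 := by
  have hU : MeasurableSet {z : Y × DynN.II | (z.2 : ℝ) ≠ 0} :=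
    (isOpen_ne_fun (continuous_subtype_val.comp continuous_snd) continuous_const).measurableSet
  set ν₀ := ν.restrict {z : Y × DynN.II | (z.2 : ℝ) ≠ 0} with hν₀
  have hC' : (C : ℝ≥0∞) ≠ 0 := by exact_mod_cast hC
  have h1 : ν₀ = ρ.prod (ν₀.map Prod.snd) := by
    refine (Measure.prod_eq fun s t hs' ht => ?_).symm
    have hm : MeasurableSet (Prod.snd ⁻¹' t : Set (Y × DynN.II)) := measurable_snd ht
    set lam := (ν₀.restrict (Prod.snd ⁻¹' t)).map Prod.fst with hlam
    have hle : ν₀.restrict (Prod.snd ⁻¹' t) ≤ ν :=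
      Measure.restrict_le_self.trans Measure.restrict_le_self
    have a1 : lam ≤ (C : ℝ≥0∞) • ρ := by
      refine hd lam ?_ ?_
      · rw [hlam, Measure.map_apply measurable_fst hW.compl]
        refine le_antisymm ((Measure.restrict_le_self _).trans ?_) zero_le
        rw [hν₀, Measure.restrict_apply (measurable_fst hW.compl)]
        exact hs.le
      · rw [hlam, Measure.map_map hp measurable_fst, ← hπ]
        exact Measure.map_mono hle (hp.comp measurable_fst)
    have a2 := hE ((C : ℝ≥0∞)⁻¹ • lam) (by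
      refine Measure.le_iff.2 fun A _ => ?_
      have := a1 A
      simp only [Measure.smul_apply, smul_eq_mul] at this ⊢
      exact (mul_le_mul_right this _).trans (by
        rw [← mul_assoc, ENNReal.inv_mul_cancel hC' (ENNReal.natCast_ne_top _), one_mul]))
      fun q => by
        rw [Measure.map_smul]
        congr 1
        ext u hu
        rw [Measure.map_apply (hT q) hu, hlam, Measure.map_apply measurable_fst hu,
          Measure.map_apply measurable_fst (hT q hu), Measure.restrict_apply (measurable_fst hu),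
          Measure.restrict_apply (measurable_fst (hT q hu)), hν₀,
          Measure.restrict_apply ((measurable_fst hu).inter hm),
          Measure.restrict_apply ((measurable_fst (hT q hu)).inter hm)]
        conv_rhs => rw [← hi q]
        rw [Measure.map_apply ((hT q).prodMap measurable_id) (((measurable_fst hu).inter hm).inter hU)]
        rfl
    have a3 := congrArg (fun m : Measure Y => (C : ℝ≥0∞) * m s) a2
    simp only [Measure.smul_apply, smul_eq_mul, ← mul_assoc,
      ENNReal.mul_inv_cancel hC' (ENNReal.natCast_ne_top _), one_mul] at a3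
    rw [hlam, Measure.map_apply measurable_fst hs', Measure.map_apply measurable_fst
      MeasurableSet.univ, Measure.restrict_apply (measurable_fst hs'), preimage_univ,
      Measure.restrict_apply MeasurableSet.univ, univ_inter] at a3
    rw [Measure.map_apply measurable_snd ht, mul_comm, ← a3]
    rfl
  have h2 : ∫ z, (z.2 : ℝ) * f z.1 ∂ν = ∫ z, f z.1 * (z.2 : ℝ) ∂ν₀ := by
    rw [hν₀, setIntegral_eq_integral_of_forall_compl_eq_zero fun z hz => by
      rw [not_not.1 hz, mul_zero]]
    simp only [mul_comm]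
  rw [h2, h1, integral_prod_mul, hf, zero_mul]

section cover

variable {G : Type} [Group G] {Γ Γ' : Subgroup G} {Q : Type} [Fintype Q] {r : Q → G}

/-- `r` is a system of representatives of `Γ / Γ'`. -/
structure Rep (Γ Γ' : Subgroup G) (r : Q → G) : Prop where
  le : Γ' ≤ Γ
  mem : ∀ q, r q ∈ Γ
  ex : ∀ γ ∈ Γ, ∃ q, (r q)⁻¹ * γ ∈ Γ'
  un : ∀ q q', (r q)⁻¹ * r q' ∈ Γ' → q = q'

theorem Rep.perm (R : Rep Γ Γ' r) {γ : G} (hγ : γ ∈ Γ) : ∃ e : Q ≃ Q, ∀ g q,
    (QuotientGroup.mk (g * γ * r q) : G ⧸ Γ') = QuotientGroup.mk (g * r (e q)) := by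
  choose f hf using fun q => R.ex _ (Γ.mul_mem hγ (R.mem q))
  have hi : Function.Injective f := fun q q' h => R.un _ _ (by
    have := Γ'.mul_mem (Γ'.inv_mem (hf q)) (hf q')
    rw [h] at this
    simpa [mul_assoc] using this)
  refine ⟨Equiv.ofBijective f (Finite.injective_iff_bijective.1 hi), fun g q => ?_⟩
  refine (QuotientGroup.eq.2 ?_).symm
  simpa [mul_assoc] using hf q

/-- The projection of the cover. -/
def pj (h : Γ' ≤ Γ) : G ⧸ Γ' → G ⧸ Γ := Subgroup.quotientMapOfLE h

theorem pj_mk (h : Γ' ≤ Γ) (g : G) : pj h (QuotientGroup.mk g) = QuotientGroup.mk g := rfl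

variable {ι : Type} [Fintype ι] [DecidableEq ι]

variable (Γ' r) in
/-- The sum over a fibre. -/
def fib {M : Type} [AddCommMonoid M] (F : (ι → G ⧸ Γ') → M) (g : ι → G) : M :=
  ∑ q : ι → Q, F fun i => QuotientGroup.mk (g i * r (q i))

theorem fib_out (R : Rep Γ Γ' r) {M : Type} [AddCommMonoid M] (F : (ι → G ⧸ Γ') → M) (g : ι → G) :
    fib Γ' r F (fun i => (QuotientGroup.mk (g i) : G ⧸ Γ).out) = fib Γ' r F g := by
  choose γ hγ using fun i => QuotientGroup.mk_out_eq_mul Γ (g i)
  choose e he using fun i => R.perm (γ i).2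
  refine Fintype.sum_equiv (Equiv.piCongrRight e) _ _ fun q => ?_
  congr 1
  funext i
  beta_reduce
  rw [hγ, he]
  rfl

variable [TopologicalSpace G] [IsTopologicalGroup G]

omit [IsTopologicalGroup G] in
theorem pj_cont (h : Γ' ≤ Γ) : Continuous (pj h) :=
  (QuotientGroup.isQuotientMap_mk _).continuous_iff.2 QuotientGroup.continuous_mk

omit [Fintype ι] [DecidableEq ι] in
theorem pj_proper (R : Rep Γ Γ' r) : IsProperMap (pj R.le) := by
  refine isProperMap_iff_isClosedMap_and_compact_fibers.2 ⟨pj_cont _, fun C hC => ?_, fun x => ?_⟩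
  · rw [← (QuotientGroup.isQuotientMap_mk Γ).isClosed_preimage]
    have : (QuotientGroup.mk : G → G ⧸ Γ) ⁻¹' (pj R.le '' C) =
        ⋃ q, (fun g => (QuotientGroup.mk (g * r q) : G ⧸ Γ')) ⁻¹' C := by
      ext g
      simp only [mem_preimage, mem_image, mem_iUnion]
      constructor
      · rintro ⟨y, hy, e⟩
        obtain ⟨y, rfl⟩ := QuotientGroup.mk_surjective y
        obtain ⟨q, hq⟩ := R.ex _ (QuotientGroup.eq.1 e.symm)
        refine ⟨q, ?_⟩
        rwa [(QuotientGroup.eq (a := g * r q) (b := y)).2 (by simpa [mul_assoc] using hq)]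
      · rintro ⟨q, hq⟩
        exact ⟨_, hq, QuotientGroup.mk_mul_of_mem _ (R.mem q)⟩
    rw [this]
    exact isClosed_iUnion_of_finite fun q =>
      hC.preimage (QuotientGroup.continuous_mk.comp (continuous_mul_const _))
  · refine Set.Finite.isCompact ((Set.finite_range fun q =>
      (QuotientGroup.mk (x.out * r q) : G ⧸ Γ')).subset fun y hy => ?_)
    obtain ⟨y, rfl⟩ := QuotientGroup.mk_surjective y
    obtain ⟨q, hq⟩ := R.ex _ (QuotientGroup.eq.1 ((QuotientGroup.out_eq' x).trans
      (Eq.symm hy)))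
    exact ⟨q, QuotientGroup.eq.2 (by simpa [mul_assoc] using hq)⟩

variable [PolishSpace G] [MeasurableSpace G] [BorelSpace G] [PolishSpace (G ⧸ Γ)]
  [PolishSpace (G ⧸ Γ')]

theorem fib_meas (R : Rep Γ Γ' r) {F : (ι → G ⧸ Γ') → ℝ≥0∞} (hF : Measurable F) :
    Measurable fun x : ι → G ⧸ Γ => fib Γ' r F fun i => (x i).out := by
  have h1 : Measurable fun (g : ι → G) i => (QuotientGroup.mk (g i) : G ⧸ Γ) :=
    (continuous_pi fun i => QuotientGroup.continuous_mk.comp (continuous_apply i)).measurable
  refine (h1.measurable_comp_iff_of_surjective fun x =>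
    ⟨fun i => (x i).out, funext fun i => QuotientGroup.out_eq' _⟩).1 ?_
  have : ((fun x : ι → G ⧸ Γ => fib Γ' r F fun i => (x i).out) ∘
      fun (g : ι → G) i => (QuotientGroup.mk (g i) : G ⧸ Γ)) = fib Γ' r F :=
    funext fun g => fib_out R F g
  rw [this]
  exact Finset.measurable_sum _ fun q _ => hF.comp (continuous_pi fun i =>
    QuotientGroup.continuous_mk.comp ((continuous_apply i).mul continuous_const)).measurable

/-- The invariant measure of the cover. -/
theorem exists_rho (R : Rep Γ Γ' r) (π : Measure (ι → G ⧸ Γ)) [IsProbabilityMeasure π]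
    (hπ : ∀ g : ι → G, π.map (g • ·) = π) : ∃ ρ : Measure (ι → G ⧸ Γ'), IsProbabilityMeasure ρ ∧
      (∀ g : ι → G, ρ.map (g • ·) = ρ) ∧
      (∀ F : (ι → G ⧸ Γ') → ℝ≥0∞, Measurable F → (Fintype.card (ι → Q) : ℝ≥0∞) * ∫⁻ y, F y ∂ρ =
        ∫⁻ x, fib Γ' r F (fun i => (x i).out) ∂π) ∧
      ∀ (Y : Type) [MeasurableSpace Y] (Ψ : (ι → G ⧸ Γ') → Y) (p : Y → ι → G ⧸ Γ), Measurable Ψ →
        Measurable p → (∀ y i, p (Ψ y) i = pj R.le (y i)) → ∀ lam : Measure Y,
        lam (range Ψ)ᶜ = 0 → lam.map p ≤ π → lam ≤ (Fintype.card (ι → Q) : ℝ≥0∞) • ρ.map Ψ := by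
  obtain ⟨q₀, -⟩ := R.ex 1 Γ.one_mem
  have : Nonempty Q := ⟨q₀⟩
  have c0 : (Fintype.card (ι → Q) : ℝ≥0∞) ≠ 0 := by exact_mod_cast Fintype.card_ne_zero
  let K : (ι → G ⧸ Γ) → Measure (ι → G ⧸ Γ') := fun x => fib Γ' r Measure.dirac fun i => (x i).out
  have hK : ∀ x (F : (ι → G ⧸ Γ') → ℝ≥0∞), Measurable F →
      ∫⁻ y, F y ∂K x = fib Γ' r F fun i => (x i).out := fun x F hF => by
    simp only [K, fib, lintegral_finsetSum_measure, lintegral_dirac' _ hF]
  have mK : Measurable K := Measure.measurable_of_measurable_coe _ fun s hs => by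
    simp only [← lintegral_indicator_one hs, hK _ _ (measurable_one.indicator hs)]
    exact fib_meas R (measurable_one.indicator hs)
  have key : ∀ F : (ι → G ⧸ Γ') → ℝ≥0∞, Measurable F → (Fintype.card (ι → Q) : ℝ≥0∞) *
      ∫⁻ y, F y ∂((Fintype.card (ι → Q) : ℝ≥0∞)⁻¹ • π.bind K) =
        ∫⁻ x, fib Γ' r F (fun i => (x i).out) ∂π := fun F hF => by
    rw [lintegral_smul_measure, smul_eq_mul, ← mul_assoc,
      ENNReal.mul_inv_cancel c0 (ENNReal.natCast_ne_top _), one_mul,
      Measure.lintegral_bind mK.aemeasurable hF.aemeasurable]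
    exact lintegral_congr fun x => hK x F hF
  refine ⟨_, ⟨?_⟩, fun g => ?_, key, fun Y _ Ψ p hΨ hp e lam h0 hle => ?_⟩
  · rw [← ENNReal.mul_right_inj c0 (ENNReal.natCast_ne_top _), ← lintegral_one,
      key _ measurable_const]
    simp [fib]
  · refine Measure.ext_of_lintegral _ fun F hF => ?_
    have m1 : Measurable fun y : ι → G ⧸ Γ' => g • y := (continuous_const_smul g).measurable
    rw [lintegral_map hF m1, ← ENNReal.mul_right_inj c0 (ENNReal.natCast_ne_top _), key _ hF,
      key (fun y => F (g • y)) (hF.comp m1)]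
    conv_rhs => rw [← hπ g, lintegral_map (fib_meas R hF) (continuous_const_smul g).measurable]
    refine lintegral_congr fun x => ?_
    have e : ∀ i, (g • x) i = QuotientGroup.mk (g i * (x i).out) := fun i => by
      rw [← smul_eq_mul, ← MulAction.Quotient.smul_mk, QuotientGroup.out_eq']
      rfl
    simp only [e]
    rw [fib_out R]
    refine Finset.sum_congr rfl fun q _ => congrArg F (funext fun i => ?_)
    rw [mul_assoc, ← smul_eq_mul (g i), ← MulAction.Quotient.smul_mk]
    rfl
  · refine Measure.le_iff.2 fun A hA => ?_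
    have m1 : Measurable ((Ψ ⁻¹' A).indicator (1 : (ι → G ⧸ Γ') → ℝ≥0∞)) :=
      measurable_one.indicator (hΨ hA)
    rw [Measure.smul_apply, smul_eq_mul, Measure.map_apply hΨ hA,
      ← lintegral_indicator_one (hΨ hA), key _ m1, ← lintegral_indicator_one hA]
    refine le_trans ?_ (lintegral_mono' hle le_rfl)
    rw [lintegral_map (fib_meas R m1) hp]
    have h0' : ∀ᵐ y ∂lam, y ∈ range Ψ := h0
    refine lintegral_mono_ae (h0'.mono ?_)
    rintro _ ⟨y, rfl⟩
    by_cases hy : Ψ y ∈ A
    · choose g hg using fun i => QuotientGroup.mk_surjective (y i)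
      have e1 : ∀ i, p (Ψ y) i = QuotientGroup.mk (g i) := fun i => by rw [e, ← hg, pj_mk]
      simp only [e1]
      rw [fib_out R, indicator_of_mem hy]
      obtain ⟨q, hq⟩ := R.ex 1 Γ.one_mem
      refine le_trans ?_ (Finset.single_le_sum (fun _ _ => zero_le) (Finset.mem_univ fun _ => q))
      have e2 : (fun i => (QuotientGroup.mk (g i * r q) : G ⧸ Γ')) = y := funext fun i => by
        rw [← hg i]
        exact QuotientGroup.eq.2 (by simpa using hq)
      rw [e2, indicator_of_mem (show y ∈ Ψ ⁻¹' A from hy)]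
      rfl
    · rw [indicator_of_notMem hy]
      exact zero_le

end cover

end Pool.Agent.Lib.MP_9177b7_ag.J.Lv
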