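import Pool.Agent.Lib.MP_9177b7_ag.L.Prj
import Pool.Agent.Lib.MP_9177b7_ag.J.DynU

/-!
Families of lattices with level structure: the two cases.
-/

open MeasureTheory Filter Topology Set Pointwise Matrix
open scoped MatrixGroups ENNReal BoundedContinuousFunction

noncomputable section

namespace Pool.Agent.Lib.MP_9177b7_ag.J.Lv

open Fld Dyn DynN

variable (k : Fld) {l₁ l₂ : ℕ} [Fact l₁.Prime] [Fact l₂.Prime] {w : ℂ} {r₁ : ℚ_[l₁]}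
  {r₂ : ℚ_[l₂]} {M : ℕ} {ι A : Type}

/-- The sublattice attached to a basis and a matrix. -/
def sub (g : Matrix (Fin 2) (Fin 2) ℤ) (x y : k.K) : Submodule ℤ k.K :=
  Submodule.span ℤ {c0 k (g.adjugate.map fun a : ℤ => (a : ℚ)) x y,
    c1 k (g.adjugate.map fun a : ℤ => (a : ℚ)) x y}

theorem OB_sub {g : Matrix (Fin 2) (Fin 2) ℤ} (h : 0 < g.det) {L : Submodule ℤ k.K} {c : ℚ}
    {x y : k.K} (o : OB k w L c x y) : OB k w (sub k g x y) (g.det * c)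
      (c0 k (g.adjugate.map fun a : ℤ => (a : ℚ)) x y)
      (c1 k (g.adjugate.map fun a : ℤ => (a : ℚ)) x y) := by
  have h1 : (0 : ℚ) < g.det := by exact_mod_cast h
  have h2 : (0 : ℝ) < g.det := by exact_mod_cast h
  refine ⟨rfl, ?_, ?_⟩
  · rw [det2_c, det_cast, det_adj, abs_mul, abs_of_pos h1, o.2.1]
  · rw [det2_c, det_cast, det_adj, Rat.cast_mul, Rat.cast_intCast, mul_left_comm]
    exact mul_pos h2 o.2.2

variable (w) in
/-- The family of lattices comes from a basis. -/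
def Cmp (g : A → Matrix (Fin 2) (Fin 2) ℤ) (a₀ : A) (c : ℚ) (L : A → Submodule ℤ k.K) : Prop :=
  ∃ x y, OB k w (L a₀) c x y ∧ ∀ a, L a = sub k (g a) x y

variable (w l₁ l₂) in
/-- The data of the family. -/
structure Ext (M : ℕ) (a₀ : A) (g : ι → A → Matrix (Fin 2) (Fin 2) ℤ) (F : ℕ → ℕ+)
    (L : ι × A → ℕ → Submodule ℤ k.K) (c : ι → ℕ → ℚ) (e₁ e₂ : ι → ℕ → ℕ)
    (h : ∀ n, k.SF (F n) → ℝ) : Prop where
  lv : LvD M a₀ g
  c₁ : ¬ l₁ ∣ M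
  c₂ : ¬ l₂ ∣ M
  dd : ∀ p n, Dd k l₁ l₂ (F n) (L p n) ((g p.1 p.2).det * c p.1 n) (e₁ p.1 n) (e₂ p.1 n)
  sup : ∀ n s, h n s ≠ 0 → ∀ i, Cmp k w (g i) a₀ (c i n) fun a => act s (L (i, a) n)

variable (w) in
/-- The test function on an orbit. -/
def JL [Fintype ι] (M : ℕ) (g : ι → A → Matrix (Fin 2) (Fin 2) ℤ) {F : ℕ+}
    (L : ι × A → Submodule ℤ k.K) (φ : ι → (A → ℂ) →ᵇ ℝ) (s : k.SF F) : ℝ :=
  ∏ i, φ i (fun a => CM.jL ((act s (L (i, a))).map (k.ioL w))) - ∏ i, ∫ y, φ i y ∂muZ M (g i)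

theorem tw_K (h₁ : Good k r₁) (h₂ : Good k r₂) {g : Matrix (Fin 2) (Fin 2) ℤ} (h : 0 < g.det)
    (hd : g.det ∣ M) (c₁ : ¬ l₁ ∣ M) (c₂ : ¬ l₂ ∣ M) {F : ℕ+} {L : Submodule ℤ k.K} {c : ℚ}
    {e₁ e₂ : ℕ} (D : Dd k l₁ l₂ F L (g.det * c) e₁ e₂) {m : GG l₁ l₂} (hm : m ∈ MM l₁ l₂)
    {s : k.SF F} (hs : RR k r₁ r₂ m s) {x y : k.K} (o : OB k w (act s L) (g.det * c) x y)
    {a₁ : ℚ_[l₁]} {a₂ : ℚ_[l₂]} (y₁ : ‖yy k w r₁ c - a₁‖ ≤ 1) (y₂ : ‖yy k w r₂ c - a₂‖ ≤ 1) :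
    sig l₁ l₂ g.adjugate (AA a₁ a₂) * m * fr k w r₁ r₂ x y ∈ Proj.KK l₁ l₂ := by
  have h' : 0 < g.adjugate.det := by rwa [det_adj]
  have n₁ : ‖(uq ℚ_[l₁] g.adjugate : ℚ_[l₁])‖ = 1 := by
    rw [uq_coe _ h', det_adj, norm_det hd c₁]
  have n₂ : ‖(uq ℚ_[l₂] g.adjugate : ℚ_[l₂])‖ = 1 := by
    rw [uq_coe _ h', det_adj, norm_det hd c₂]
  have e : sig l₁ l₂ g.adjugate (AA a₁ a₂) = (dg (uq ℚ_[l₁] g.adjugate), 1) *
      (((1, dg (uq ℚ_[l₂] g.adjugate), 1) : GG l₁ l₂) *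
        AA (a₁ / (uq ℚ_[l₁] g.adjugate : ℚ_[l₁])) (a₂ / (uq ℚ_[l₂] g.adjugate : ℚ_[l₂]))) :=
    Prod.ext ((sg_ad _ _).trans (by simp [AA])) (Prod.ext ((sg_ad _ _).trans (by simp [AA]))
      (by simp [AA, sig]))
  have y : ∀ {l : ℕ} [Fact l.Prime] {r a : ℚ_[l]}, ‖(uq ℚ_[l] g.adjugate : ℚ_[l])‖ = 1 →
      ‖yy k w r c - a‖ ≤ 1 → ‖yy k w r (g.det * c) - a / (uq ℚ_[l] g.adjugate : ℚ_[l])‖ ≤ 1 := by
    intro l _ r a n y
    have : yy k w r (g.det * c) = yy k w r c / (uq ℚ_[l] g.adjugate : ℚ_[l]) := by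
      have : dt w (g.det * c) = g.det * dt w c := by
        unfold dt
        split_ifs <;> ring
      rw [yy, yy, this, uq_coe _ h', det_adj, Rat.cast_mul, Rat.cast_intCast, mul_assoc, mul_inv,
        inv_mul_eq_div]
    rwa [this, ← sub_div, _root_.norm_div, n, div_one]
  rw [e, mul_assoc, mul_assoc, mul_assoc, ← mul_assoc (AA _ _)]
  exact mul_mem (MM_KK (dg_MM₁ n₁)) (mul_mem (MM_KK (dg_MM₂ n₂))
    (adp2 k lat h₁ h₂ D hm hs o (y n₁ y₁) (y n₂ y₂)))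

theorem sig_one' (s : GG l₁ l₂) : sig l₁ l₂ 1 s = s := by
  have h1 := sig_one (1 : GG l₁ l₂)
  rw [map_one, one_mul] at h1
  simpa [h1] using sig_one s

theorem sig_surj (B : Matrix (Fin 2) (Fin 2) ℤ) (s : GG l₁ l₂) : ∃ s', sig l₁ l₂ B s' = s :=
  ⟨(sg (uq _ B)⁻¹ s.1, sg (uq _ B)⁻¹ s.2.1, s.2.2), Prod.ext (sg_sg _ _) (Prod.ext (sg_sg _ _) rfl)⟩

theorem th_fr (h₁ : k.Root r₁) (h₂ : k.Root r₂) {q u E : ℕ} (hq : q * u = (l₁ * l₂) ^ E)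
    (h : 0 < q) (x y : k.K) (hd : 0 < -w.im * k.det2 x y) :
    Th (Gam l₁ l₂) !![1, 0; 0, (q : ℤ)] (QuotientGroup.mk (fr k w r₁ r₂ x y)) =
      QuotientGroup.mk (fr k w r₁ r₂ x ((q : ℚ) • y)) := by
  rw [Th_mk (ds_Gam hq h), ← fr_th k h₁ h₂ (by simpa using h) hd]
  simp [c0, c1]

variable {a₀ : A} {g : ι → A → Matrix (Fin 2) (Fin 2) ℤ} {F : ℕ → ℕ+}
  {L : ι × A → ℕ → Submodule ℤ k.K} {c : ι → ℕ → ℚ} {e₁ e₂ : ι → ℕ → ℕ}
  {h : ∀ n, k.SF (F n) → ℝ} {κ : ∀ n, Measure (MM l₁ l₂ × k.SF (F n))}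

omit [Fact l₁.Prime] [Fact l₂.Prime] in
theorem Ext.comp (X : Ext k l₁ l₂ w M a₀ g F L c e₁ e₂ h) (ms : ℕ → ℕ) :
    Ext k l₁ l₂ w M a₀ g (fun n => F (ms n)) (fun p n => L p (ms n)) (fun i n => c i (ms n))
      (fun i n => e₁ i (ms n)) (fun i n => e₂ i (ms n)) fun n => h (ms n) :=
  ⟨X.lv, X.c₁, X.c₂, fun p _ => X.dd p _, fun _ => X.sup _⟩

variable [Fintype ι] [Fintype A] [PolishSpace (XX l₁ l₂)] {a₁ : ℕ → ι → ℚ_[l₁]}
  {a₂ : ℕ → ι → ℚ_[l₂]}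

variable (w g L h a₁ a₂) in
/-- The adapted measures of the family. -/
def nF (K : ∀ n, Kap k r₁ r₂ (F n) (κ n)) (n : ℕ) : ProbabilityMeasure ((ι × A → XX l₁ l₂) × II) :=
  an k w (K n) (tw g fun i => AA (a₁ n i) (a₂ n i)) (fun p => L p n) (h n)

omit [Fintype ι] [Fintype A] [PolishSpace (XX l₁ l₂)] in
theorem ph_tw (h₁ : Good k r₁) (h₂ : Good k r₂) (X : Ext k l₁ l₂ w M a₀ g F L c e₁ e₂ h)
    (ha : ∀ n i, ‖yy k w r₁ (c i n) - a₁ n i‖ ≤ 1 ∧ ‖yy k w r₂ (c i n) - a₂ n i‖ ≤ 1) (p : ι × A)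
    (n : ℕ) {q : MM l₁ l₂ × k.SF (F n)} (hq : RR k r₁ r₂ (q.1 : GG l₁ l₂) q.2) {x y : k.K}
    (o : OB k w (act q.2 (L p n)) ((g p.1 p.2).det * c p.1 n) x y) : ∃ s ∈ Proj.KK l₁ l₂,
      s.2.2 = (q.1 : GG l₁ l₂).2.2 * toSL (mr k w x y) ∧
      ph k w r₁ r₂ (tw g fun i => AA (a₁ n i) (a₂ n i)) (fun p => L p n) q p =
        QuotientGroup.mk s := by
  refine ⟨_, tw_K k h₁ h₂ (X.lv.det _ _).1 (X.lv.det _ _).2 X.c₁ X.c₂ (X.dd p n) q.1.2 hq o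
    (ha n _).1 (ha n _).2, by simp [sig, AA, fr], ?_⟩
  simp only [ph]
  rw [pt_eq k h₁.root h₂.root o, smul_smul, MulAction.Quotient.smul_mk, smul_eq_mul]
  rfl

theorem nF_tight (hw : k.Root w) (h₁ : Good k r₁) (h₂ : Good k r₂)
    (K : ∀ n, Kap k r₁ r₂ (F n) (κ n)) (X : Ext k l₁ l₂ w M a₀ g F L c e₁ e₂ h)
    (ha : ∀ n i, ‖yy k w r₁ (c i n) - a₁ n i‖ ≤ 1 ∧ ‖yy k w r₂ (c i n) - a₂ n i‖ ≤ 1) :
    IsTightMeasureSet (range fun n => (nF k w g L h a₁ a₂ K n :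
      Measure ((ι × A → XX l₁ l₂) × II)).map Prod.fst) := by
  refine tight_pi fun p => ?_
  simp_rw [nF, an_coord]
  exact tight1 k hw K (Φ := fun n q => ph k w r₁ r₂ (tw g fun i => AA (a₁ n i) (a₂ n i))
    (fun p => L p n) q p) (fun n => ph_meas1 k _ _ p) (fun n => (X.dd p n).lat)
    (fun n => (X.dd p n).adm) fun n q hq x y o => ph_tw k h₁ h₂ X ha p n hq o

omit [Fintype ι] [Fintype A] in
theorem nF_base (K : ∀ n, Kap k r₁ r₂ (F n) (κ n)) (D : LvD M a₀ g) (n : ℕ) :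
    (nF k w g L h a₁ a₂ K n : Measure ((ι × A → XX l₁ l₂) × II)).map (fun z i => z.1 (i, a₀)) =
      (κ n).map (ph k w r₁ r₂ (fun i => AA (a₁ n i) (a₂ n i)) fun i => L (i, a₀) n) := by
  refine (Measure.map_map (measurable_pi_lambda _ fun i => (measurable_pi_apply _).comp
    measurable_fst) ((ph_meas k _ _).prodMk (wt_meas k _))).trans ?_
  congr 1
  funext q i
  simp [ph, tw, D.one, sig_one']

theorem nF_fin (hw : k.Root w) (hne : l₁ ≠ l₂) (h₁ : Good k r₁) (h₂ : Good k r₂)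
    (K : ∀ n, Kap k r₁ r₂ (F n) (κ n)) (X : Ext k l₁ l₂ w M a₀ g F L c e₁ e₂ h)
    (hb : ∀ n s, |h n s| ≤ 1)
    (ha : ∀ n i, ‖yy k w r₁ (c i n) - a₁ n i‖ ≤ 1 ∧ ‖yy k w r₂ (c i n) - a₂ n i‖ ≤ 1)
    {μ : Measure (XX l₁ l₂)} [IsProbabilityMeasure μ] (gμ : ∀ g : GG l₁ l₂, μ.map (g • ·) = μ)
    {ν : ProbabilityMeasure ((ι × A → XX l₁ l₂) × II)}
    (hν : Tendsto (nF k w g L h a₁ a₂ K) atTop (𝓝 ν))
    (hπ : (ν : Measure ((ι × A → XX l₁ l₂) × II)).map (fun z i => z.1 (i, a₀)) =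
      Measure.pi fun _ => μ)
    (hi : (∃ (u : ι → GG l₁ l₂) (t : ℚ_[l₁]ˣ), 1 < ‖(t : ℚ_[l₁])‖ ∧
      (ν : Measure ((ι × A → XX l₁ l₂) × II)).map
        (Prod.map (tw g (fun i => u i * (dg t, 1) * (u i)⁻¹) • ·) id) = ν) ∨
      ∃ X : ι → ℚ_[l₁], (∀ i, X i ≠ 0) ∧ ∀ σ, (ν : Measure ((ι × A → XX l₁ l₂) × II)).map
        (Prod.map (tw g (fun i => ((up (σ * X i), 1) : GG l₁ l₂)) • ·) id) = ν)
    (φ : ι → (A → ℂ) →ᵇ ℝ) :
    Tendsto (fun n => ∫ q, h n q.2 * JL k w M g (fun p => L p n) φ q.2 ∂κ n) atTop (𝓝 0) := by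
  have := Gl_disc l₁ l₂ M
  have : PolishSpace (GG l₁ l₂ ⧸ Gl l₁ l₂ M) := pol _ _
  obtain ⟨jX, hjc, hj, hjm⟩ := proj' l₁ l₂ hne
  obtain ⟨f, hf, hl⟩ := fin_lim hne X.lv X.c₁ X.c₂ gμ hjc hj (hjm μ inferInstance gμ) hν
    (fun hS n => by
      change Measure.map _ _ _ = 0
      rw [Measure.map_apply ((ph_meas k _ _).prodMk (wt_meas k _)) hS]
      refine measure_mono_null (t := ∅) (fun q hq => hq.1 ?_) measure_empty
      have h0 : h n q.2 ≠ 0 := fun h0 => hq.2 (by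
        simp only [wt]
        rw [Set.projIcc_of_mem _ (abs_le.1 (hb n q.2))]
        exact h0)
      choose x y o e using X.sup n q.2 h0
      refine ⟨fun i => QuotientGroup.mk (AA (a₁ n i) (a₂ n i) * q.1 * fr k w r₁ r₂ (x i) (y i)),
        funext fun p => ?_⟩
      simp only [Ps, ph, tw]
      rw [Th_mk (X.lv.ds p.1 p.2), show act q.2 (L p n) = _ from e p.1 p.2,
        pt_eq k h₁.root h₂.root (OB_sub k (X.lv.det p.1 p.2).1 (o p.1)),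
        fr_th k h₁.root h₂.root (by rw [det_adj]; exact (X.lv.det p.1 p.2).1) (o p.1).2.2,
        smul_smul, MulAction.Quotient.smul_mk, smul_eq_mul, map_mul, map_mul, sig_TT _ q.1.2.1]
      simp only [mul_assoc]) hπ hi φ
  refine hl.congr fun n => an_int k _ _ _ (hb n) f _ fun q hq => ?_
  rw [hf, JL]
  congr 1
  refine Finset.prod_congr rfl fun i _ => congrArg _ (funext fun a => ?_)
  obtain ⟨x, y, o⟩ := exists_OB' k hw (act_lat k (X.dd (i, a) n).lat (X.dd (i, a) n).adm q.2).1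
  obtain ⟨s, b1, b2, b3⟩ := ph_tw k h₁ h₂ X ha (i, a) n hq o
  rw [b3, jX_mk k (r₁ := r₁) (r₂ := r₂) hw hj o b1 q.1.2 b2]

omit [Fintype ι] [Fintype A] [PolishSpace (XX l₁ l₂)] in
theorem tw_conj (u : ι → GG l₁ l₂) {b : GG l₁ l₂} (hb : TT l₁ l₂ b) (p : ι × A) :
    tw g (fun i => u i * b * (u i)⁻¹) p = tw g u p * b * (tw g u p)⁻¹ := by
  simp only [tw, map_mul, _root_.map_inv, sig_TT _ hb]

theorem U_inv (hw : k.Root w) (C : Core k r₁ r₂ F (fun i => L (i, a₀)) c e₁ e₂ h κ)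
    (X : Ext k l₁ l₂ w M a₀ g F L c e₁ e₂ h) {N : ℕ} (hN : 0 < N) {G : ℕ → ℕ}
    (hG : ∀ n, G n ∣ F n) (hG' : ∀ i (C : ℕ), ∀ᶠ n in atTop, (G n).factorization l₁ + C ≤ e₁ i n)
    (hh : ∀ n s t, One (G n) t → h n (t ^ N * s) = h n s) (i₀ : ι) {X₁ : ι → ℚ_[l₁]}
    (hX₁ : ∀ i, Tendsto (fun n => yy k w r₁ (c i n) / yy k w r₁ (c i₀ n)) atTop (𝓝 (X₁ i)))
    {ν : ProbabilityMeasure ((ι × A → XX l₁ l₂) × II)}
    (hν : Tendsto (nF k w g L h (fun n i => yy k w r₁ (c i n)) (fun n i => yy k w r₂ (c i n)) C.kap)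
      atTop (𝓝 ν)) (σ : ℚ_[l₁]) : (ν : Measure ((ι × A → XX l₁ l₂) × II)).map
        (Prod.map (tw g (fun i => ((up (σ * X₁ i), 1) : GG l₁ l₂)) • ·) id) = ν := by
  have hl₁ : (1 : ℝ) < l₁ := by exact_mod_cast (Fact.out : l₁.Prime).one_lt
  have he₁ : ∀ i, Tendsto (e₁ i) atTop atTop := fun i => tendsto_atTop.2 fun b =>
    (hG' i b).mono fun n hn => le_of_add_le_right hn
  have ny₁ := fun n => norm_yy k w C.g₁ (C.lat i₀ n) (C.dep₁ i₀ n)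
  obtain ⟨θ, t1, t2⟩ := conv hN σ (y := fun n => yy k w r₁ (c i₀ n)) (by
    simp_rw [ny₁]
    exact (tendsto_pow_atTop_atTop_of_one_lt hl₁).comp (he₁ i₀))
  refine lim_inv (G := ι × A → GG l₁ l₂) (A := fun p => Prod.map (p.1 • ·) id p.2)
    ((continuous_fst.smul (continuous_fst.comp continuous_snd)).prodMk
      (continuous_snd.comp continuous_snd))
    (g := fun n => tw g fun i => AU k w r₁ r₂ c n i * (((dg (θ n), 1) : GG l₁ l₂) * 1) ^ N *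
      (AU k w r₁ r₂ c n i)⁻¹) (tendsto_pi_nhds.2 fun p => ((sig_cont _).tendsto _).comp ?_) hν ?_
  · refine ((t2 _ _ (hX₁ p.1)).prodMk_nhds tendsto_const_nhds).congr fun n => ?_
    exact Prod.ext (by simp [AU, AA]) (by simp [AU, AA]; rfl)
  · obtain ⟨b, hb⟩ := pow_unbounded_of_one_lt ‖σ / (2 * N)‖ hl₁
    filter_upwards [hG' i₀ b] with n hn
    have hG0 : G n ≠ 0 := fun h0 => (F n).ne_zero (Nat.eq_zero_of_zero_dvd (h0 ▸ hG n))
    obtain ⟨t, a1, a2, a3⟩ := (loc k l₁ l₂ r₁ r₂ C.ne C.o₁ C.o₂ C.g₁ C.g₂ (F n)).2.2.2.2.1 (G n)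
      (θ n) (hG n) (t1 n).1 ((t1 n).2.trans (by
        rw [ny₁, norm_fac hG0, div_le_iff₀ (by positivity), inv_mul_eq_div,
          le_div_iff₀ (by positivity)]
        calc _ ≤ (l₁ : ℝ) ^ b * (l₁ : ℝ) ^ (G n).factorization l₁ := by gcongr
          _ ≤ _ := by
            rw [← pow_add, add_comm]
            exact pow_le_pow_right₀ hl₁.le hn))
    refine an_inv k (C.kap n) (g := (⟨_, dg_MM₁ (t1 n).1⟩, t)) a3 (b := 1) (MM l₁ l₂).one_mem.1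
      (fun s p => ?_) (fun s => hh n s t a1) fun p => tw_conj _ (pow_mem (mul_mem
        (dg_MM₁ (t1 n).1) (MM l₁ l₂).one_mem) N).1 p
    have b1 := act_lat k (X.dd p n).lat (X.dd p n).adm s
    simp only
    rw [act_mul k (X.dd p n).lat (X.dd p n).adm, ptriv k hw C.g₁.root C.g₂.root b1.1 b1.2 a2,
      one_smul]

omit [PolishSpace (XX l₁ l₂)] in
theorem dynU' (hw : k.Root w) {N : ℕ} (hN : 0 < N)
    (C : Core k r₁ r₂ F (fun i => L (i, a₀)) c e₁ e₂ h κ) (X : Ext k l₁ l₂ w M a₀ g F L c e₁ e₂ h)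
    {G : ℕ → ℕ} (he₂ : ∀ i, Tendsto (e₂ i) atTop atTop) {d : ℕ}
    (hd : ∀ i j n, e₁ i n ≤ e₁ j n + d ∧ e₂ i n ≤ e₂ j n + d) (hG : ∀ n, G n ∣ F n)
    (hG' : ∀ i (C : ℕ), ∀ᶠ n in atTop, (G n).factorization l₁ + C ≤ e₁ i n)
    (hh : ∀ n s t, One (G n) t → h n (t ^ N * s) = h n s) (φ : ι → (A → ℂ) →ᵇ ℝ) :
    Tendsto (fun n => ∫ q, h n q.2 * JL k w M g (fun p => L p n) φ q.2 ∂κ n) atTop (𝓝 0) := by
  rcases isEmpty_or_nonempty ι with _ | ⟨⟨i₀⟩⟩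
  · simp [JL]
  have := (disc l₁ l₂ C.ne).1
  have : PolishSpace (XX l₁ l₂) := pol _ _
  obtain ⟨μ, hμ, iμ⟩ := exists_mu k hw C.ne C.g₁ C.g₂ C.d₁ C.d₂
  obtain ⟨gμ, -⟩ := hom' l₁ l₂ C.ne μ hμ iμ
  have ht : IsTightMeasureSet (range fun n => (nU k w C n :
      Measure ((ι → XX l₁ l₂) × II)).map Prod.fst) := by
    refine tight_pi fun i => ?_
    simp_rw [nU, an_coord]
    refine tight1 k hw C.kap (Φ := fun n q => ph k w r₁ r₂ (AU k w r₁ r₂ c n)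
      (fun i => L (i, a₀) n) q i) (fun n => ph_meas1 k _ _ i) (C.lat i) (C.adm i)
      fun n q hq x y o => ?_
    exact ⟨_, (ph_eq k C i n hq o).1, by simp [AU, AA, fr], (ph_eq k C i n hq o).2⟩
  have ht' := nF_tight k hw C.g₁ C.g₂ C.kap X (a₁ := fun n i => yy k w r₁ (c i n))
    (a₂ := fun n i => yy k w r₂ (c i n)) (by simp)
  refine tendsto_of_subseq_tendsto fun ns hns => ?_
  have hK : ∀ (l : ℕ) [Fact l.Prime], IsCompact (Metric.closedBall (0 : ℚ_[l]) ((l : ℝ) ^ d) ∩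
      {x | ((l : ℝ) ^ d)⁻¹ ≤ ‖x‖}) := fun l _ =>
    (isCompact_closedBall _ _).inter_right (isClosed_le continuous_const continuous_norm)
  have hy : ∀ {l : ℕ} [Fact l.Prime] {a b : ℚ_[l]} {e e' : ℕ}, ‖a‖ = (l : ℝ) ^ e →
      ‖b‖ = (l : ℝ) ^ e' → e ≤ e' + d → e' ≤ e + d → a / b ∈ Metric.closedBall (0 : ℚ_[l])
        ((l : ℝ) ^ d) ∩ {x | ((l : ℝ) ^ d)⁻¹ ≤ ‖x‖} := by
    intro l _ a b e e' ha hb h1 h2
    have hl : (1 : ℝ) < l := by exact_mod_cast (Fact.out : l.Prime).one_lt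
    rw [mem_inter_iff, mem_closedBall_zero_iff, mem_ofPred_eq, _root_.norm_div, ha, hb,
      div_le_iff₀ (by positivity), le_div_iff₀ (by positivity), inv_mul_le_iff₀ (by positivity),
      ← pow_add, ← pow_add]
    exact ⟨pow_le_pow_right₀ hl.le (by omega), pow_le_pow_right₀ hl.le (by omega)⟩
  obtain ⟨P, hPm, ms, hms, hP⟩ := (isCompact_univ_pi fun _ : ι => (hK l₁).prod (hK l₂)).tendsto_subseq
    (x := fun n i => (yy k w r₁ (c i (ns n)) / yy k w r₁ (c i₀ (ns n)),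
      yy k w r₂ (c i (ns n)) / yy k w r₂ (c i₀ (ns n))))
    fun n i _ => ⟨hy (norm_yy k w C.g₁ (C.lat i _) (C.dep₁ i _))
        (norm_yy k w C.g₁ (C.lat i₀ _) (C.dep₁ i₀ _)) (hd _ _ _).1 (hd _ _ _).1,
      hy (norm_yy k w C.g₂ (C.lat i _) (C.dep₂ i _))
        (norm_yy k w C.g₂ (C.lat i₀ _) (C.dep₂ i₀ _)) (hd _ _ _).2 (hd _ _ _).2⟩
  obtain ⟨ν₀, m₁, hm₁, hν₀⟩ := exists_sub (fun n => nU k w C (ns (ms n))) (ht.subset (by
      rintro _ ⟨n, rfl⟩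
      exact ⟨_, rfl⟩))
  obtain ⟨ν, m₂, hm₂, hν⟩ := exists_sub (fun n => nF k w g L h (fun n i => yy k w r₁ (c i n))
    (fun n i => yy k w r₂ (c i n)) C.kap (ns (ms (m₁ n)))) (ht'.subset (by
      rintro _ ⟨n, rfl⟩
      exact ⟨_, rfl⟩))
  refine ⟨fun n => ms (m₁ (m₂ n)), ?_⟩
  have hm := hm₁.tendsto_atTop.comp hm₂.tendsto_atTop
  have hs : Tendsto (fun n => ns (ms (m₁ (m₂ n)))) atTop atTop :=
    hns.comp (hms.tendsto_atTop.comp hm)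
  have hP' := fun i => tendsto_pi_nhds.1 (hP.comp hm) i
  have nz : ∀ {l : ℕ} [Fact l.Prime] {x : ℚ_[l]}, ((l : ℝ) ^ d)⁻¹ ≤ ‖x‖ → x ≠ 0 := by
    rintro l _ x hx rfl
    have : (0 : ℝ) < l := by exact_mod_cast (Fact.out : l.Prime).pos
    exact absurd hx (by simp; positivity)
  have hν₀' := hν₀.comp hm₂.tendsto_atTop
  have hlim := U_lim k hw (core_sub k C hs) hN (G := fun n => G (ns (ms (m₁ (m₂ n)))))
    (fun i => (he₂ i).comp hs) (fun i j n => (hd i j _).1) (fun n => hG _)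
    (fun i b => hs.eventually (hG' i b)) (fun n => hh _) i₀ (X₁ := fun i => (P i).1)
    (X₂ := fun i => (P i).2) (fun i => nz (hPm i trivial).1.2) (fun i => nz (hPm i trivial).2.2)
    (fun i => (continuous_fst.tendsto _).comp (hP' i))
    (fun i => (continuous_snd.tendsto _).comp (hP' i)) iμ hν₀'
  have cb : Continuous fun (z : (ι × A → XX l₁ l₂) × II) i => z.1 (i, a₀) :=
    continuous_pi fun i => (continuous_apply _).comp continuous_fst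
  refine nF_fin k hw C.ne C.g₁ C.g₂ (fun n => C.kap _) (X.comp k fun n => ns (ms (m₁ (m₂ n))))
    (fun n => C.bdd _) (a₁ := fun n i => yy k w r₁ (c i (ns (ms (m₁ (m₂ n))))))
    (a₂ := fun n i => yy k w r₂ (c i (ns (ms (m₁ (m₂ n)))))) (by simp) gμ hν ?_
    (Or.inr ⟨fun i => (P i).1, fun i => nz (hPm i trivial).1.2, U_inv k hw (core_sub k C hs)
      (X.comp k fun n => ns (ms (m₁ (m₂ n)))) hN (G := fun n => G (ns (ms (m₁ (m₂ n)))))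
      (fun n => hG _) (fun i b => hs.eventually (hG' i b)) (fun n => hh _) i₀
      (fun i => (continuous_fst.tendsto _).comp (hP' i)) hν⟩) φ
  refine (lim_map hν (ProbabilityMeasure.tendsto_map_of_tendsto_of_continuous _ _ hν₀'
    continuous_fst) cb fun n => (nF_base k C.kap X.lv _).trans (an_fst k (C.kap _) _ _ _).symm).trans ?_
  change Measure.map _ (ν₀ : Measure ((ι → XX l₁ l₂) × II)) = _
  have : IsProbabilityMeasure ((ν₀ : Measure ((ι → XX l₁ l₂) × II)).map Prod.snd) :=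
    Measure.isProbabilityMeasure_map measurable_snd.aemeasurable
  rw [hlim, Measure.map_fst_prod, measure_univ, one_smul]

theorem B_inv (hw : k.Root w) (C : Core k r₁ r₂ F (fun i => L (i, a₀)) c e₁ e₂ h κ)
    (X : Ext k l₁ l₂ w M a₀ g F L c e₁ e₂ h) {N : ℕ} (hN : 0 < N)
    (hh : ∀ n s u, h n (u ^ N * s) = h n s) (b₁ : ι → ℚ_[l₁]) (b₂ : ι → ℚ_[l₂])
    {ν : ProbabilityMeasure ((ι × A → XX l₁ l₂) × II)}
    (hν : Tendsto (nF k w g L h (fun _ => b₁) (fun _ => b₂) C.kap) atTop (𝓝 ν)) :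
    ∃ (u : ι → GG l₁ l₂) (t : ℚ_[l₁]ˣ), 1 < ‖(t : ℚ_[l₁])‖ ∧
      (ν : Measure ((ι × A → XX l₁ l₂) × II)).map
        (Prod.map (tw g (fun i => u i * (dg t, 1) * (u i)⁻¹) • ·) id) = ν := by
  have p₁ : l₁.Prime := Fact.out
  have p₂ : l₂.Prime := Fact.out
  obtain ⟨t₁, t₂, e, he, ht₁, -, hT⟩ := exists_tor k basic (pi_stmt basic) hw C.ne C.g₁ C.g₂ C.d₁ C.d₂
  have ht₁' : 1 < ‖(t₁ : ℚ_[l₁])‖ := by
    rw [ht₁]
    exact one_lt_pow₀ (by exact_mod_cast p₁.one_lt) he.ne'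
  have hTa : TT l₁ l₂ (dg (t₁ ^ N), 1) := ⟨DG_dg _, DG_one, Rot_one⟩
  refine ⟨fun i => AA (b₁ i) (b₂ i), t₁ ^ N, ?_,
    lim_map hν hν ((continuous_const_smul _).prodMap continuous_id) fun n => ?_⟩
  · rw [Units.val_pow_eq_pow_val, norm_pow]
    exact one_lt_pow₀ ht₁' hN.ne'
  obtain ⟨F₀, f1, f2, f3⟩ := exists_F0 k (l₁ := l₁) (l₂ := l₂) (F n)
  obtain ⟨π, hp1, -, hp3⟩ := (basic k).2.2.2.2.2.2.2.2.1 F₀ (F n) f1
  obtain ⟨b, hb, hm, hs₀⟩ := hT _ (Or.inl rfl)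
  obtain ⟨s₀, hs₀⟩ := hs₀ F₀ f2.1 f2.2
  obtain ⟨s₁, rfl⟩ := hp1 s₀
  obtain ⟨t, ht, hR⟩ := (loc k l₁ l₂ r₁ r₂ C.ne C.o₁ C.o₂ C.g₁ C.g₂ (F n)).2.2.2.1 _ (inv_mem hm) s₁
  refine an_inv k (C.kap n) (g := (⟨_, inv_mem hm⟩, t * s₁)) hR hb (fun s p => ?_)
    (fun s => hh n s _) fun p => ?_
  · obtain ⟨M', c', m1, m2, -, m4, m5, m6, m7⟩ := anc2 k C.ne (X.dd p n)
    have D := f3 _ _ m4 m5 m6 m7
    have hE : l₁ ^ e₁ p.1 n * l₂ ^ e₂ p.1 n * (l₁ ^ e₂ p.1 n * l₂ ^ e₁ p.1 n) =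
      (l₁ * l₂) ^ (e₁ p.1 n + e₂ p.1 n) := by ring
    have hq : 0 < l₁ ^ e₁ p.1 n * l₂ ^ e₂ p.1 n := Nat.mul_pos (pow_pos p₁.pos _) (pow_pos p₂.pos _)
    have key : ∀ s : k.SF (F n), pt k w r₁ r₂ (act s (L p n)) = Th (Gam l₁ l₂)
        !![1, 0; 0, ((l₁ ^ e₁ p.1 n * l₂ ^ e₂ p.1 n : ℕ) : ℤ)] (pt k w r₁ r₂ (act s M')) := fun s =>
      (psi_pt k hw C.g₁.root C.g₂.root hE (th_fr k C.g₁.root C.g₂.root hE hq)
        (m1 ▸ (act_lat k (X.dd p n).lat (X.dd p n).adm s).1) (act_lat k m4 m5 s).1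
        (mul_le_mul' le_rfl m2)).symm
    have a1 := act_lat k m4 m5 s
    have a2 := act_lat k a1.1 a1.2 s₁
    have a3 : k.Adm F₀ (act s M') := by
      rw [hp3 _ D.adm]
      exact (D.act k basic _).adm
    simp only
    rw [key, key, act_mul k m4 m5, act_mul k a1.1 a1.2, ptriv k hw C.g₁.root C.g₂.root a2.1 a2.2 ht,
      hp3 _ a3, hs₀ _ _ a1.1 a3, Th_smul (ds_Gam hE hq), sig_TT _ hb]
  · rw [tw_conj _ hTa]
    have hTa' : TT l₁ l₂ (dg t₁, 1) := ⟨DG_dg _, DG_one, Rot_one⟩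
    simp [mul_assoc, hTa'.comm hb, dg_pow]

omit [PolishSpace (XX l₁ l₂)] in
theorem dynB' (hw : k.Root w) {N : ℕ} (hN : 0 < N)
    (C : Core k r₁ r₂ F (fun i => L (i, a₀)) c e₁ e₂ h κ) (X : Ext k l₁ l₂ w M a₀ g F L c e₁ e₂ h)
    {d : ℕ} (hd : ∀ i n, e₁ i n ≤ d ∧ e₂ i n ≤ d) (hh : ∀ n s u, h n (u ^ N * s) = h n s)
    (φ : ι → (A → ℂ) →ᵇ ℝ) :
    Tendsto (fun n => ∫ q, h n q.2 * JL k w M g (fun p => L p n) φ q.2 ∂κ n) atTop (𝓝 0) := by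
  have p₁ : l₁.Prime := Fact.out
  have p₂ : l₂.Prime := Fact.out
  have := (disc l₁ l₂ C.ne).1
  have : PolishSpace (XX l₁ l₂) := pol _ _
  obtain ⟨μ, hμ, iμ⟩ := exists_mu k hw C.ne C.g₁ C.g₂ C.d₁ C.d₂
  obtain ⟨gμ, uμ, -⟩ := hom' l₁ l₂ C.ne μ hμ iμ
  choose M' c' m1 m2 m3 m4 m5 m6 m7 using fun i n => anc2 k C.ne (core_Dd k C i n)
  choose F₀ f1 f2 f3 using fun n => exists_F0 k (l₁ := l₁) (l₂ := l₂) (F n)
  have D : ∀ i n, Dat k l₁ l₂ (F₀ n) (M' i n) (c' i n) := fun i n =>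
    f3 n _ _ (m4 i n) (m5 i n) (m6 i n) (m7 i n)
  set Q : ℕ := (l₁ * l₂) ^ d with hQ
  have hQ0 : 0 < Q := pow_pos (Nat.mul_pos p₁.pos p₂.pos) d
  have hq : ∀ i n, l₁ ^ e₁ i n * l₂ ^ e₂ i n ∣ Q := fun i n => by
    rw [hQ, mul_pow]
    exact mul_dvd_mul (pow_dvd_pow _ (hd i n).1) (pow_dvd_pow _ (hd i n).2)
  have mQ : ∀ i n, ∀ x ∈ M' i n, (Q : k.K) * x ∈ L (i, a₀) n := fun i n x hx => by
    obtain ⟨u, hu⟩ := hq i n
    rw [hu, mul_comm _ u, Nat.cast_mul, mul_assoc]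
    exact Excl.nat_mem _ (m3 i n x hx)
  have big : ∀ i (a : ℕ), 0 < a → ∀ᶠ n in atTop, ¬ k.Adm a (M' i n) := fun i a ha =>
    (C.big i (Q * a) (Nat.mul_pos hQ0 ha)).mono fun n hn hA => hn fun x hx => by
      rw [Nat.cast_mul, mul_assoc, mul_assoc, ← mul_assoc (a : k.K)]
      exact mQ i n _ (hA x (m2 i n hx))
  have str : ∀ i j, i ≠ j → ∀ B : ℝ, ∀ᶠ n in atTop, ∀ α : k.K, α ≠ 0 → α • M' i n ≤ M' j n →
      B * c' j n < k.N α * c' i n := fun i j hij B =>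
    (C.str i j hij (|B| * Q ^ 3)).mono fun n hn α hα hle => by
      have hQ' : (0 : ℝ) < Q := by exact_mod_cast hQ0
      have h1 := hn (Q * α) (mul_ne_zero (by exact_mod_cast hQ0.ne') hα) (by
        rintro _ ⟨x, hx, rfl⟩
        have := mQ j n _ (hle ⟨x, m2 i n hx, rfl⟩)
        simpa [mul_assoc] using this)
      have h2 : k.N (Q * α) = Q ^ 2 * k.N α := by
        rw [Excl.N_mul]
        simp [Fld.N, QuadraticAlgebra.norm_def, pow_two]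
      have cj : (0 : ℝ) < c' j n := by exact_mod_cast Excl.lat_pos (m4 j n)
      have ci : (0 : ℝ) < c' i n := by exact_mod_cast Excl.lat_pos (m4 i n)
      have h3 : (c' j n : ℝ) ≤ c j n := by
        rw [m1 j n, Rat.cast_mul, Rat.cast_natCast]
        exact le_mul_of_one_le_left cj.le (by
          exact_mod_cast Nat.mul_pos (pow_pos p₁.pos _) (pow_pos p₂.pos _))
      have h4 : (c i n : ℝ) ≤ Q * c' i n := by
        rw [m1 i n, Rat.cast_mul, Rat.cast_natCast]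
        gcongr
        exact Nat.le_of_dvd hQ0 (hq i n)
      have h5 := N_nonneg k α
      have h6 : Q ^ 3 * (B * c' j n) < Q ^ 3 * (k.N α * c' i n) :=
        calc (Q : ℝ) ^ 3 * (B * c' j n) ≤ Q ^ 3 * (|B| * c j n) := by
              gcongr
              exact le_abs_self B
          _ = |B| * Q ^ 3 * c j n := by ring
          _ < _ := h1
          _ ≤ Q ^ 2 * k.N α * (Q * c' i n) := by rw [h2]; gcongr
          _ = _ := by ring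
      exact lt_of_mul_lt_mul_left h6 (by positivity)
  have ht : IsTightMeasureSet (range fun n => (an k w (C.kap n) 1 (fun i => M' i n) (h n) :
      Measure ((ι → XX l₁ l₂) × II)).map Prod.fst) := by
    refine tight_pi fun i => ?_
    simp_rw [an_coord]
    refine tight1 k hw C.kap (Φ := fun n q => ph k w r₁ r₂ 1 (fun i => M' i n) q i)
      (fun n => ph_meas1 k _ _ i) (m4 i) (m5 i) fun n q _ x y o => ?_
    have n₁ := ((basic k).2.2.2.2.2.2.2.2.1 (F₀ n) (F n) (f1 n))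
    obtain ⟨p, -, -, hp⟩ := n₁
    have D' := (D i n).act k basic (p q.2)
    rw [← hp _ (D i n).adm] at D'
    refine ⟨_, mul_mem (MM_KK q.1.2) (fr_K k C.g₁ C.g₂ o D'.n₁ D'.n₂), rfl, ?_⟩
    simp only [ph, Pi.one_apply, one_smul]
    rw [pt_eq k C.g₁.root C.g₂.root o]
    rfl
  refine tendsto_of_subseq_tendsto fun ns hns => ?_
  have hy : ∀ {l : ℕ} [Fact l.Prime] {r : ℚ_[l]}, Good k r → ∀ {L c e}, k.Lat L c → k.Dep l e L →
      e ≤ d → ‖yy k w r c‖ ≤ (l : ℝ) ^ d := by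
    intro l _ r g L c e hL hD he
    rw [norm_yy k w g hL hD]
    exact pow_le_pow_right₀ (by exact_mod_cast (Fact.out : l.Prime).one_lt.le) he
  obtain ⟨P, -, ms, hms, hP⟩ := (isCompact_univ_pi fun _ : ι => (((Set.finite_Iic d).isCompact).prod
    ((Set.finite_Iic d).isCompact)).prod ((isCompact_closedBall (0 : ℚ_[l₁]) ((l₁ : ℝ) ^ d)).prod
      (isCompact_closedBall (0 : ℚ_[l₂]) ((l₂ : ℝ) ^ d)))).tendsto_subseq
    (x := fun n i => ((e₁ i (ns n), e₂ i (ns n)), (yy k w r₁ (c i (ns n)), yy k w r₂ (c i (ns n)))))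
    fun n i _ => ⟨hd i _, by simpa using hy C.g₁ (C.lat i _) (C.dep₁ i _) (hd i _).1,
      by simpa using hy C.g₂ (C.lat i _) (C.dep₂ i _) (hd i _).2⟩
  have ev : ∀ᶠ n in atTop, ∀ i, (e₁ i (ns (ms n)), e₂ i (ns (ms n))) = (P i).1 ∧
      ‖yy k w r₁ (c i (ns (ms n))) - (P i).2.1‖ ≤ 1 ∧
      ‖yy k w r₂ (c i (ns (ms n))) - (P i).2.2‖ ≤ 1 := by
    refine eventually_all.2 fun i => ?_
    have a := tendsto_pi_nhds.1 hP i
    have a1 := (continuous_fst.tendsto _).comp a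
    have a2 := (continuous_fst.tendsto _).comp ((continuous_snd.tendsto _).comp a)
    have a3 := (continuous_snd.tendsto _).comp ((continuous_snd.tendsto _).comp a)
    rw [nhds_discrete, tendsto_pure] at a1
    filter_upwards [a1, Metric.tendsto_nhds.1 a2 1 one_pos, Metric.tendsto_nhds.1 a3 1 one_pos]
      with n b1 b2 b3
    exact ⟨b1, by rw [dist_eq_norm] at b2; exact b2.le, by rw [dist_eq_norm] at b3; exact b3.le⟩
  obtain ⟨m₀, hm₀, ev⟩ := extraction_of_eventually_atTop ev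
  obtain ⟨ν₀, m₁, hm₁, hν₀⟩ := exists_sub (fun n => an k w (C.kap (ns (ms (m₀ n)))) 1
    (fun i => M' i (ns (ms (m₀ n)))) (h (ns (ms (m₀ n))))) (ht.subset (by
      rintro _ ⟨n, rfl⟩
      exact ⟨_, rfl⟩))
  obtain ⟨ν, m₂, hm₂, hν⟩ := exists_sub _ (nF_tight k hw C.g₁ C.g₂ (fun n => C.kap _)
    (X.comp k fun n => ns (ms (m₀ (m₁ n)))) (a₁ := fun _ i => (P i).2.1)
    (a₂ := fun _ i => (P i).2.2) fun n i => (ev _ i).2)
  refine ⟨fun n => ms (m₀ (m₁ (m₂ n))), ?_⟩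
  have hs : Tendsto (fun n => ns (ms (m₀ (m₁ (m₂ n))))) atTop atTop :=
    hns.comp (hms.tendsto_atTop.comp (hm₀.tendsto_atTop.comp
      (hm₁.tendsto_atTop.comp hm₂.tendsto_atTop)))
  have hν₀' := hν₀.comp hm₂.tendsto_atTop
  have hlim := B_lim k hw C.ne C.o₁ C.o₂ C.g₁ C.g₂ C.d₁ C.d₂
    (fun n => f1 (ns (ms (m₀ (m₁ (m₂ n))))))
    (fun n => f2 _) (fun i n => D i _) (fun i a ha => hs.eventually (big i a ha))
    (fun i j hij B => hs.eventually (str i j hij B)) (fun n => C.kap _) hN (fun n => hh _) iμ hν₀'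
  have hE : ∀ i, l₁ ^ (P i).1.1 * l₂ ^ (P i).1.2 * (l₁ ^ (P i).1.2 * l₂ ^ (P i).1.1) =
      (l₁ * l₂) ^ ((P i).1.1 + (P i).1.2) := fun i => by ring
  have hq0 : ∀ i, 0 < l₁ ^ (P i).1.1 * l₂ ^ (P i).1.2 := fun i =>
    Nat.mul_pos (pow_pos p₁.pos _) (pow_pos p₂.pos _)
  let T : ι → XX l₁ l₂ → XX l₁ l₂ := fun i x => AA (P i).2.1 (P i).2.2 • Th (Gam l₁ l₂)
    !![1, 0; 0, ((l₁ ^ (P i).1.1 * l₂ ^ (P i).1.2 : ℕ) : ℤ)] x
  have hT : ∀ i, Continuous (T i) := fun i =>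
    (continuous_const_smul _).comp (Th_cont (ds_Gam (hE i) (hq0 i)))
  have hTμ : ∀ i, μ.map (T i) = μ := fun i => by
    refine uμ _ (Measure.isProbabilityMeasure_map (hT i).measurable.aemeasurable) fun s => ?_
    obtain ⟨s', hs'⟩ := sig_surj !![1, 0; 0, ((l₁ ^ (P i).1.1 * l₂ ^ (P i).1.2 : ℕ) : ℤ)]
      ((AA (P i).2.1 (P i).2.2)⁻¹ * (s, 1) * AA (P i).2.1 (P i).2.2)
    refine map_inv (T := fun x : XX l₁ l₂ => ((s, 1) : GG l₁ l₂) • x)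
      (continuous_const_smul s').measurable (gμ s') (hT i).measurable
      (continuous_const_smul _).measurable fun x => ?_
    simp only [T]
    rw [Th_smul (ds_Gam (hE i) (hq0 i)), hs']
    simp [smul_smul, mul_assoc]
  have cb : Continuous fun (z : (ι × A → XX l₁ l₂) × II) i => z.1 (i, a₀) :=
    continuous_pi fun i => (continuous_apply _).comp continuous_fst
  have cT : Continuous fun (z : ι → XX l₁ l₂) i => T i (z i) :=
    continuous_pi fun i => (hT i).comp (continuous_apply i)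
  refine nF_fin k hw C.ne C.g₁ C.g₂ (fun n => C.kap _) (X.comp k fun n => ns (ms (m₀ (m₁ (m₂ n)))))
    (fun n => C.bdd _) (a₁ := fun _ i => (P i).2.1) (a₂ := fun _ i => (P i).2.2)
    (fun n i => (ev _ i).2) gμ hν ?_ (Or.inl (B_inv k hw (core_sub k C hs)
      (X.comp k fun n => ns (ms (m₀ (m₁ (m₂ n))))) hN (fun n => hh _) _ _ hν)) φ
  refine (lim_map hν (ProbabilityMeasure.tendsto_map_of_tendsto_of_continuous _ _ hν₀'
    (cT.comp continuous_fst)) cb fun n => (nF_base k _ X.lv _).trans ?_).trans ?_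
  · change _ = Measure.map _ (Measure.map _ _)
    rw [Measure.map_map (cT.comp continuous_fst).measurable ((ph_meas k _ _).prodMk (wt_meas k _))]
    congr 1
    funext q i
    have b1 := (ev (m₁ (m₂ n)) i).1
    generalize ns (ms (m₀ (m₁ (m₂ n)))) = n' at b1 q ⊢
    have a1 := act_lat k (C.lat i n') (C.adm i n') q.2
    change _ = AA _ _ • Th _ _ ((1 : GG l₁ l₂) • _)
    rw [one_smul, Th_smul (ds_Gam (hE i) (hq0 i)), sig_TT _ q.1.2.1,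
      psi_pt k hw C.g₁.root C.g₂.root (hE i) (th_fr k C.g₁.root C.g₂.root (hE i) (hq0 i))
        (L := act q.2 (L (i, a₀) n')) (by rw [← b1, ← m1]; exact a1.1)
        (act_lat k (m4 i n') (m5 i n') q.2).1 (mul_le_mul' le_rfl (m2 i n'))]
    rfl
  · change Measure.map _ (ν₀ : Measure ((ι → XX l₁ l₂) × II)) = _
    have : IsProbabilityMeasure ((ν₀ : Measure ((ι → XX l₁ l₂) × II)).map Prod.snd) :=
      Measure.isProbabilityMeasure_map measurable_snd.aemeasurable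
    rw [← Measure.map_map cT.measurable measurable_fst, hlim, Measure.map_fst_prod, measure_univ,
      one_smul]
    exact (measurePreserving_pi (fun _ : ι => μ) (fun _ : ι => μ) (f := T)
      fun i => ⟨(hT i).measurable, hTμ i⟩).map_eq

end Pool.Agent.Lib.MP_9177b7_ag.J.Lv
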