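import Pool.Agent.Lib.MP_9177b7_ag.L.AsmL
import Pool.Agent.Lib.MP_9177b7_ag.J.FinalN

/-!
Points of the half plane and bases of lattices; rigidity of level structures; means over orbits.
-/

open MeasureTheory Set Filter Topology Pointwise
open scoped UpperHalfPlane BoundedContinuousFunction MatrixGroups ENNReal

noncomputable section

namespace Pool.Agent.Lib.MP_9177b7_ag.J.Lv

open CM Fld Dyn Pool.Agent.Lib.MP_9177b7_ag.J.Fin FinalN

variable (k : Fld) {w : ℂ} {M : ℕ}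

theorem OB_lat {L : Submodule ℤ k.K} {c : ℚ} {x y : k.K} (o : OB k w L c x y) : k.Lat L c := by
  rcases (det2_ne k o.2.2).lt_or_gt with h | h
  · exact ⟨x, -y, by rw [span_neg, o.1], by rw [det2_neg, ← o.2.1, abs_of_neg h],
      o.2.1 ▸ abs_pos.2 h.ne⟩
  · exact ⟨x, y, o.1, by rw [← o.2.1, abs_of_pos h], o.2.1 ▸ abs_pos.2 h.ne'⟩

theorem sub_le (g : Matrix (Fin 2) (Fin 2) ℤ) {L : Submodule ℤ k.K} {x y : k.K}
    (o : L = Submodule.span ℤ {x, y}) : sub k g x y ≤ L := by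
  rw [o, sub, Submodule.span_le]
  rintro _ (rfl | rfl)
  · exact (mem_span2 k).2 ⟨_, _, rfl⟩
  · exact (mem_span2 k).2 ⟨_, _, rfl⟩

theorem sub_ge {g : Matrix (Fin 2) (Fin 2) ℤ} (h : g.det ∣ M) {L : Submodule ℤ k.K} {x y : k.K}
    (o : L = Submodule.span ℤ {x, y}) : (M : k.K) • L ≤ sub k g x y := by
  obtain ⟨u, hu⟩ := h
  have hu' : (M : ℚ) = (g 0 0 * g 1 1 - g 0 1 * g 1 0) * u := by
    rw [Matrix.det_fin_two] at hu
    exact_mod_cast hu
  rintro _ ⟨v, hv, rfl⟩
  obtain ⟨a, b, rfl⟩ := (mem_span2 k).1 (o ▸ hv)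
  refine (mem_span2 k).2 ⟨u * (g 0 0 * a + g 0 1 * b), u * (g 1 0 * a + g 1 1 * b), ?_⟩
  change (M : k.K) * _ = _
  rw [natCast_mul, hu']
  simp only [c0, c1, Matrix.adjugate_fin_two, Matrix.map_apply, Matrix.of_apply, Matrix.cons_val',
    Matrix.cons_val_zero, Matrix.cons_val_one, Matrix.cons_val_fin_one]
  push_cast
  module

theorem sub_eq {g : Matrix (Fin 2) (Fin 2) ℤ} (h : g.det = 1) {L : Submodule ℤ k.K} {x y : k.K}
    (o : L = Submodule.span ℤ {x, y}) : sub k g x y = L :=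
  le_antisymm (sub_le k g o) (by simpa using sub_ge k (M := 1) (g := g) (by simp [h]) o)

variable (w) in
/-- The point attached to a basis. -/
def tau (x y : k.K) : ℍ := (toSL (mr k w x y))⁻¹ • UpperHalfPlane.I

theorem jH_tau (hw : k.Root w) {L : Submodule ℤ k.K} {c : ℚ} {x y : k.K} (o : OB k w L c x y) :
    jH (tau k w x y) = jL (L.map (k.ioL w)) :=
  jH_fr k (l₁ := 2) (l₂ := 2) (r₁ := 0) (r₂ := 0) hw o

theorem tau_sub {g : Matrix (Fin 2) (Fin 2) ℤ} (h : 0 < g.det) {x y : k.K}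
    (hd : 0 < -w.im * k.det2 x y) : tau k w (c0 k (g.adjugate.map fun a : ℤ => (a : ℚ)) x y)
      (c1 k (g.adjugate.map fun a : ℤ => (a : ℚ)) x y) = mob g (tau k w x y) := by
  have h' : 0 < g.adjugate.det := by rwa [det_adj]
  rw [← br_mob h, tau, tau, ← mul_smul, ← mul_inv_rev]
  congr 2
  generalize g.adjugate = B at h'
  have hdet := det2_c k (B.map fun a : ℤ => (a : ℚ)) x y
  rw [det_cast] at hdet
  refine toSL_mul (det_mr k hd) ?_
  have e2 : Real.sqrt (-w.im * (((B.det : ℤ) * k.det2 x y : ℚ) : ℝ)) =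
      Real.sqrt (-w.im * k.det2 x y) * Real.sqrt (B.det : ℤ) := by
    rw [← Real.sqrt_mul hd.le, Rat.cast_mul, Rat.cast_intCast]
    congr 1
    ring
  have mm : (B.map fun a : ℤ => (a : ℚ)).map (fun a : ℚ => (a : ℝ)) = B.map fun a : ℤ => (a : ℝ) := by
    ext i j
    simp
  rw [br_coe h', mr, mr, hdet, e2, mr_c, Matrix.smul_mul, Matrix.mul_smul, smul_smul, mul_inv, mm]

theorem jL_sub (hw : k.Root w) {g : Matrix (Fin 2) (Fin 2) ℤ} (h : 0 < g.det) {L : Submodule ℤ k.K}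
    {c : ℚ} {x y : k.K} (o : OB k w L c x y) :
    jH (mob g (tau k w x y)) = jL ((sub k g x y).map (k.ioL w)) := by
  rw [← tau_sub k h o.2.2, jH_tau k hw (OB_sub k h o)]

theorem rep_tau (hw : k.Root w) {L : Submodule ℤ k.K} {c : ℚ} (hL : k.Lat L c) {τ : ℍ}
    (e : jH τ = jL (L.map (k.ioL w))) : ∃ x y, OB k w L c x y ∧ tau k w x y = τ := by
  obtain ⟨x, y, o⟩ := exists_OB' k hw hL
  obtain ⟨γ, hγ⟩ := hyp.jH_eq_iff.1 ((jH_tau k hw o).trans e.symm)
  have h : 0 < γ.1.det := by simp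
  have o' := OB_sub k h o
  rw [sub_eq k γ.det_coe o.1, γ.det_coe, Int.cast_one, one_mul] at o'
  refine ⟨_, _, o', ?_⟩
  rw [tau_sub k h o.2.2, hγ, mob, ← CM.Lat.coe_smul, UpperHalfPlane.ofComplex_apply]

theorem mob_J (hw : k.Root w) {g : Matrix (Fin 2) (Fin 2) ℤ} (h : 0 < g.det) (hd : g.det ∣ M)
    {F : ℕ} (hF : 0 < F) {τ : ℍ} (hτ : ((F : ℂ) * w) • CM.sp τ 1 ≤ CM.sp τ 1) :
    jH (mob g τ) ∈ Jset (((M * F : ℕ) : ℂ) * w) := by
  obtain ⟨L, c, a, b, e⟩ := exists_rep k hw hF hτ (RingEquiv.refl ℂ)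
  obtain ⟨x, y, o, rfl⟩ := rep_tau k hw a e
  exact ⟨_, lat_isLat k hw (OB_lat k (OB_sub k h o)),
    (adm_iff k hw _ _).1 (adm_sand (sub_le k g o.1) (sub_ge k hd o.1) b), jL_sub k hw h o⟩

theorem end_rat {L : Submodule ℤ k.K} {c : ℚ} (hL : k.Lat L c)
    (hb : ∀ a : ℕ, 0 < a → a ≤ 2 * M → ¬ k.Adm a L) {β : k.K}
    (hN : QuadraticAlgebra.norm β = (M : ℚ) ^ 2) (h : β • L ≤ L) : β.im = 0 := by
  by_contra hq
  obtain ⟨x, y, o, hd, hc⟩ := hL
  have hx : x ≠ 0 := by
    rintro rfl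
    simp [← hd, Fld.det2] at hc
  have hy : y ≠ 0 := by
    rintro rfl
    simp [← hd, Fld.det2] at hc
  obtain ⟨a, b, e1⟩ := (mem_span2 k).1 (o ▸ h ⟨x, (OB_mem_aux k o).1, rfl⟩)
  obtain ⟨a', b', e2⟩ := (mem_span2 k).1 (o ▸ h ⟨y, (OB_mem_aux k o).2, rfl⟩)
  change β * x = _ at e1
  change β * y = _ at e2
  simp only [Int.cast_smul_eq_zsmul, zsmul_eq_mul] at e1 e2
  have e3 : β * β = ((a + b' : ℤ) : k.K) * β - ((a * b' - b * a' : ℤ) : k.K) := by
    apply mul_right_cancel₀ hx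
    push_cast
    linear_combination (β - b') * e1 + (b : k.K) * e2
  have e4 := congrArg QuadraticAlgebra.im e3
  simp only [QuadraticAlgebra.im_mul, QuadraticAlgebra.im_sub, QuadraticAlgebra.im_intCast,
    QuadraticAlgebra.re_intCast] at e4
  have e5 : 2 * β.re + k.t * β.im = ((a + b' : ℤ) : ℚ) := by
    apply mul_right_cancel₀ hq
    linear_combination e4
  rw [QuadraticAlgebra.norm_def] at hN
  obtain ⟨⟨p, hp⟩, q, hq'⟩ := k.max β.re β.im ⟨_, e5⟩ ⟨M ^ 2, by push_cast; linear_combination hN⟩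
  have hq0 : q ≠ 0 := by
    rintro rfl
    exact hq (by simpa using hq')
  have hN' : p ^ 2 + k.t * p * q + k.n * q ^ 2 = (M : ℤ) ^ 2 := by
    rw [hp, hq'] at hN
    have : (p : ℚ) ^ 2 + k.t * p * q + k.n * q ^ 2 = (M : ℚ) ^ 2 := by linear_combination hN
    exact_mod_cast this
  refine hb q.natAbs (Int.natAbs_pos.2 hq0) ?_ fun z hz => ?_
  · have h1 := k.neg
    have h2 : q ^ 2 ≤ (2 * M : ℤ) ^ 2 := by
      nlinarith [sq_nonneg (2 * p + k.t * q), sq_nonneg q]
    have h3 := abs_le_of_sq_le_sq' h2 (by positivity)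
    omega
  · have h1 : (q : k.K) * k.om * z ∈ L := by
      have e : (q : k.K) * k.om = β - p := by
        ext <;> simp [Fld.om, hp, hq']
      rw [e, sub_mul, ← zsmul_eq_mul]
      exact L.sub_mem (h ⟨z, hz, rfl⟩) (L.smul_mem p hz)
    rcases Int.natAbs_eq q with e | e
    · rwa [e, Int.cast_natCast] at h1
    · rwa [e, Int.cast_neg, Int.cast_natCast, neg_mul, neg_mul, neg_mem_iff] at h1

theorem uniq_sub (hw : k.Root w) (hM : 0 < M) {L₀ L L' : Submodule ℤ k.K} {c₀ c : ℚ}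
    (h₀ : k.Lat L₀ c₀) (hb : ∀ a : ℕ, 0 < a → a ≤ 2 * M → ¬ k.Adm a L₀) (hL : k.Lat L c)
    (hL' : k.Lat L' c) (h1 : L ≤ L₀) (h2 : (M : k.K) • L₀ ≤ L')
    (e : jL (L'.map (k.ioL w)) = jL (L.map (k.ioL w))) : L = L' := by
  obtain ⟨μ, hμ, e⟩ := hyp.eq_smul_of_jL_eq (lat_isLat k hw hL') (lat_isLat k hw hL) e
  obtain ⟨_, ⟨v, hv, rfl⟩, hv0⟩ := (lat_isLat k hw hL').exists_ne_zero
  obtain ⟨v', -, hv'⟩ : μ * k.ioL w v ∈ L.map (k.ioL w) := e ▸ mem_smul_iff.2 ⟨_, ⟨v, hv, rfl⟩, rfl⟩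
  have hμ' : μ = k.io w (v' * v⁻¹) := by
    rw [io_mul k hw, io_inv k hw]
    exact (eq_mul_inv_iff_mul_eq₀ hv0).2 hv'.symm
  generalize v' * v⁻¹ = ν at hμ'
  have hν : ν ≠ 0 := by
    rintro rfl
    exact hμ (hμ'.trans (io_zero k w))
  rw [hμ', ← map_smul' k hw] at e
  have e' := Submodule.map_injective_of_injective (io_inj k hw) e
  have hN : QuadraticAlgebra.norm ν = 1 := by
    have := (basic k).2.1 _ _ _ (AsmN.lat_smul hL' hν) (e' ▸ hL)
    exact (mul_eq_right₀ (Excl.lat_pos hL).ne').1 this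
  have h3 := end_rat k h₀ hb (β := ν * M) (by
    rw [map_mul, hN]
    simp [QuadraticAlgebra.norm_def, pow_two]) (by
    rw [mul_smul]
    exact (Submodule.map_mono h2).trans (e'.ge.trans h1))
  have h4 : ν.im = 0 := by simpa [hM.ne'] using h3
  rw [QuadraticAlgebra.norm_def, h4] at hN
  have h5 : ν.re * ν.re = 1 := by linear_combination hN
  rcases mul_self_eq_one_iff.1 h5 with h6 | h6
  · rw [e', show ν = 1 from QuadraticAlgebra.ext h6 h4, one_smul]
  · have h7 : ν = -1 := by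
      refine QuadraticAlgebra.ext h6 ?_
      rw [h4, QuadraticAlgebra.im_neg, QuadraticAlgebra.im_one, neg_zero]
    rw [e', h7]
    ext z
    rw [Submodule.mem_smul_pointwise_iff_exists]
    constructor
    · rintro ⟨b, hb', rfl⟩
      rw [neg_smul, one_smul]
      exact L'.neg_mem hb'
    · intro hz
      exact ⟨-z, L'.neg_mem hz, by rw [neg_smul, one_smul, neg_neg]⟩

theorem weak' {ι X : Type} [Fintype ι] [TopologicalSpace X] [PolishSpace X] [MeasurableSpace X]
    [BorelSpace X] (μ : ι → Measure X) (ν : ℕ → Measure (ι → X)) (hμ : ∀ i, IsProbabilityMeasure (μ i))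
    (hν : ∀ n, IsProbabilityMeasure (ν n))
    (h : ∀ φ : ι → X →ᵇ ℝ, Tendsto (fun n => ∫ z, ∏ i, φ i (z i) ∂ν n) atTop
      (𝓝 (∏ i, ∫ x, φ i x ∂μ i))) (φ : (ι → X) →ᵇ ℝ) :
    Tendsto (fun n => ∫ z, φ z ∂ν n) atTop (𝓝 (∫ z, φ z ∂(Measure.pi μ))) := by
  classical
  let := TopologicalSpace.upgradeIsCompletelyMetrizable X
  let P : ℕ → ProbabilityMeasure (ι → X) := fun n => ⟨ν n, hν n⟩
  have mg : ∀ i, IsTightMeasureSet {((ρ : ProbabilityMeasure X) : Measure X) |
      ρ ∈ range fun n => (P n).map (measurable_pi_apply i).aemeasurable} := fun i => by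
    have h1 : Tendsto (fun n => (P n).map (measurable_pi_apply i).aemeasurable) atTop
        (𝓝 (⟨μ i, hμ i⟩ : ProbabilityMeasure X)) :=
      ProbabilityMeasure.tendsto_iff_forall_integral_tendsto.2 fun f => by
        have h2 := h (Pi.mulSingle i f)
        have h3 : ∀ z : ι → X, ∏ j, (Pi.mulSingle i f : ι → X →ᵇ ℝ) j (z j) = f (z i) := fun z => by
          rw [Finset.prod_eq_single i (fun j _ hj => by simp [hj]) (by simp), Pi.mulSingle_eq_same]
        rw [Finset.prod_eq_single i (fun j _ hj => by simp [hj]) (by simp),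
          Pi.mulSingle_eq_same] at h2
        refine h2.congr fun n => ?_
        rw [ProbabilityMeasure.toMeasure_map, integral_map (measurable_pi_apply i).aemeasurable
          f.continuous.aestronglyMeasurable]
        simp only [h3]
        rfl
    exact isTightMeasureSet_of_isCompact_closure (h1.isCompact_insert_range.closure_of_subset
      (subset_insert _ _))
  have hK : IsCompact (closure (range P)) := by
    refine isCompact_closure_of_isTightMeasureSet
      (isTightMeasureSet_iff_exists_isCompact_measure_compl_le.2 fun ε hε => ?_)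
    obtain ⟨δ, h1, h2⟩ := ENNReal.exists_pos_sum_of_countable' hε.ne' ι
    choose K h3 h4 using fun i =>
      isTightMeasureSet_iff_exists_isCompact_measure_compl_le.1 (mg i) (δ i) (h1 i)
    refine ⟨univ.pi K, isCompact_univ_pi h3, ?_⟩
    rintro _ ⟨_, ⟨n, rfl⟩, rfl⟩
    refine (measure_mono (t := ⋃ i, (fun z => z i) ⁻¹' (K i)ᶜ) fun z hz => by simpa using hz).trans
      ((measure_iUnion_le _).trans ((ENNReal.tsum_le_tsum fun i => ?_).trans h2.le))
    exact (Measure.le_map_apply (measurable_pi_apply i).aemeasurable _).trans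
      (h4 i _ ⟨_, ⟨n, rfl⟩, rfl⟩)
  have := instMetrizableSpaceProbabilityMeasure (ι → X)
  refine tendsto_of_subseq_tendsto fun ns hns => ?_
  obtain ⟨ρ, -, ms, hms, hρ⟩ := hK.tendsto_subseq (x := fun n => P (ns n))
    fun n => subset_closure ⟨ns n, rfl⟩
  refine ⟨ms, ?_⟩
  have h1 := ProbabilityMeasure.tendsto_iff_forall_integral_tendsto.1 hρ
  have h2 : (ρ : Measure (ι → X)) = Measure.pi μ := by
    rw [← (Homeomorph.prodUnique (ι → X) Unit).toMeasurableEquiv.symm.map_measurableEquiv_injective.eq_iff]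
    refine Measure.ext_of_integral_prod_mul_boundedContinuousFunction fun f g => ?_
    rw [integral_map_equiv, integral_map_equiv]
    have h3 := h1 (∏ i, (f i).compContinuous ⟨Function.eval i, by fun_prop⟩)
    simp only [BoundedContinuousFunction.coe_prod, Finset.prod_apply,
      BoundedContinuousFunction.compContinuous_apply, ContinuousMap.coe_mk] at h3
    have h4 := tendsto_nhds_unique h3 ((h f).comp (hns.comp hms.tendsto_atTop))
    rw [← integral_fintype_prod_eq_prod] at h4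
    exact (integral_mul_const _ _).trans ((congrArg (· * g ()) h4).trans (integral_mul_const _ _).symm)
  exact h2 ▸ h1 φ

section Mean

variable {ι A : Type} (E : IntermediateField ℚ ℂ)

/-- The orbit under the automorphisms which fix `E`. -/
def orbE (x : ι → A → ℂ) : Set (ι → A → ℂ) :=
  {y | ∃ σ : ℂ ≃+* ℂ, (∀ e ∈ E, σ e = e) ∧ y = fun i a => σ (x i a)}

/-- The mean over the orbit. -/
def meanE (x : ι → A → ℂ) (φ : (ι → A → ℂ) → ℝ) : ℝ := (∑ᶠ y ∈ orbE E x, φ y) / (orbE E x).ncard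

variable {E} {x : ι → A → ℂ}

theorem self_memE (x : ι → A → ℂ) : x ∈ orbE E x := ⟨RingEquiv.refl ℂ, fun _ _ => rfl, rfl⟩

theorem fix_symm {σ : ℂ ≃+* ℂ} (hσ : ∀ e ∈ E, σ e = e) : ∀ e ∈ E, σ.symm e = e := fun e he =>
  σ.symm_apply_eq.2 (hσ e he).symm

theorem fix_trans {σ ρ : ℂ ≃+* ℂ} (hρ : ∀ e ∈ E, ρ e = e) (hσ : ∀ e ∈ E, σ e = e) :
    ∀ e ∈ E, ρ.trans σ e = e := fun e he => by rw [RingEquiv.trans_apply, hρ e he, hσ e he]

theorem map_memE {σ : ℂ ≃+* ℂ} (hσ : ∀ e ∈ E, σ e = e) (y : ι → A → ℂ) :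
    (fun i a => σ (y i a)) ∈ orbE E x ↔ y ∈ orbE E x := by
  constructor
  · rintro ⟨ρ, hρ, e⟩
    exact ⟨ρ.trans σ.symm, fix_trans hρ (fix_symm hσ), funext fun i => funext fun a =>
      σ.eq_symm_apply.2 (congrFun (congrFun e i) a)⟩
  · rintro ⟨ρ, hρ, rfl⟩
    exact ⟨ρ.trans σ, fix_trans hρ hσ, rfl⟩

theorem mean_eqE (hx : (orbE E x).Finite) (φ : (ι → A → ℂ) → ℝ) :
    meanE E x φ = (∑ y ∈ hx.toFinset, φ y) / hx.toFinset.card := by
  rw [meanE, finsum_mem_eq_finite_toFinset_sum _ hx, Set.ncard_eq_toFinset_card _ hx]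

theorem card_posE (hx : (orbE E x).Finite) : (0 : ℝ) < hx.toFinset.card := by
  exact_mod_cast Finset.card_pos.2 ⟨x, hx.mem_toFinset.2 (self_memE x)⟩

theorem mean_leE (hx : (orbE E x).Finite) {S : Type} [Fintype S] [Nonempty S]
    (σ : S → ℂ ≃+* ℂ) (hσ : ∀ s, ∀ e ∈ E, σ s e = e) (φ : (ι → A → ℂ) → ℝ) :
    ∃ y ∈ orbE E x, |meanE E x φ| ≤ |(∑ s, φ fun i a => σ s (y i a)) / Fintype.card S| := by
  have hc := card_posE hx
  set T := hx.toFinset with hT
  have hne : T.Nonempty := ⟨x, hx.mem_toFinset.2 (self_memE x)⟩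
  let a : (ι → A → ℂ) → ℝ := fun y => (∑ s, φ fun i a => σ s (y i a)) / Fintype.card S
  obtain ⟨y, hy, hmax⟩ := T.exists_max_image (fun y => |a y|) hne
  refine ⟨y, hx.mem_toFinset.1 hy, ?_⟩
  have hι : (0 : ℝ) < Fintype.card S := by exact_mod_cast Fintype.card_pos
  have h1 : ∀ s, ∑ y ∈ T, (φ fun i a => σ s (y i a)) = ∑ y ∈ T, φ y := by
    intro s
    refine Finset.sum_equiv (Equiv.piCongrRight fun _ => Equiv.piCongrRight fun _ => (σ s).toEquiv)
      (fun y => ?_) fun y _ => rfl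
    simp only [hT, hx.mem_toFinset]
    exact (map_memE (hσ s) y).symm
  have h2 : meanE E x φ = (∑ y ∈ T, a y) / T.card := by
    rw [mean_eqE hx, ← hT, ← Finset.sum_div, Finset.sum_comm]
    simp only [h1, Finset.sum_const, Finset.card_univ, nsmul_eq_mul]
    field_simp
  rw [h2, abs_div, abs_of_pos hc, div_le_iff₀ hc]
  refine (Finset.abs_sum_le_sum_abs _ _).trans ((Finset.sum_le_card_nsmul _ _ _ hmax).trans ?_)
  rw [nsmul_eq_mul, mul_comm]

theorem exists_condE (hx : (orbE E x).Finite) (I : Finset ι) (g : (ι → A → ℂ) → ℝ) {C : ℝ}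
    (hC : 0 ≤ C) (hg : ∀ y, |g y| ≤ C) : ∃ H : (I → A → ℂ) → ℝ, (∀ b, |H b| ≤ C) ∧
      (∀ f : (I → A → ℂ) → ℝ, (meanE E x fun y => f (fun i => y i) * g y) =
        meanE E x fun y => f (fun i => y i) * H fun i => y i) ∧
      ∀ σ : ℂ ≃+* ℂ, (∀ e ∈ E, σ e = e) → (∀ y ∈ orbE E x, (g fun i a => σ (y i a)) = g y) →
        ∀ b, (H fun i a => σ (b i a)) = H b := by
  classical
  set T := hx.toFinset with hT
  let r : (ι → A → ℂ) → I → A → ℂ := fun y i => y i
  refine ⟨fun b => (∑ y ∈ T with r y = b, g y) / (T.filter fun y => r y = b).card, fun b => ?_,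
    fun f => ?_, fun σ hσ' hσ b => ?_⟩
  · rw [abs_div, Nat.abs_cast]
    refine div_le_of_le_mul₀ (Nat.cast_nonneg _) hC ?_
    refine (Finset.abs_sum_le_sum_abs _ _).trans
      ((Finset.sum_le_card_nsmul _ _ _ fun y _ => hg y).trans ?_)
    rw [nsmul_eq_mul, mul_comm]
  · rw [mean_eqE hx, mean_eqE hx, ← hT]
    congr 1
    rw [← Finset.sum_fiberwise_of_maps_to (g := r) (t := T.image r)
        fun y hy => Finset.mem_image_of_mem r hy,
      ← Finset.sum_fiberwise_of_maps_to (g := r) (t := T.image r) (s := T)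
        fun y hy => Finset.mem_image_of_mem r hy]
    refine Finset.sum_congr rfl fun b hb => ?_
    have hc : ((T.filter fun y => r y = b).card : ℝ) ≠ 0 := by
      obtain ⟨y, hy, rfl⟩ := Finset.mem_image.1 hb
      exact Nat.cast_ne_zero.2 (Finset.card_ne_zero.2 ⟨y, Finset.mem_filter.2 ⟨hy, rfl⟩⟩)
    have e1 : ∑ y ∈ T with r y = b, f (r y) * g y = f b * ∑ y ∈ T with r y = b, g y := by
      rw [Finset.mul_sum]
      exact Finset.sum_congr rfl fun y hy => by rw [(Finset.mem_filter.1 hy).2]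
    have e2 : ∀ H : (I → A → ℂ) → ℝ, ∑ y ∈ T with r y = b, f (r y) * H (r y) =
        (T.filter fun y => r y = b).card * (f b * H b) := fun H => by
      rw [← nsmul_eq_mul, ← Finset.sum_const]
      exact Finset.sum_congr rfl fun y hy => by rw [(Finset.mem_filter.1 hy).2]
    refine e1.trans (Eq.trans ?_ (e2 fun b =>
      (∑ y ∈ T with r y = b, g y) / (T.filter fun y => r y = b).card).symm)
    field_simp
  · have key : ∀ y, y ∈ T.filter (fun y => r y = b) ↔
        (Equiv.piCongrRight fun _ => Equiv.piCongrRight fun _ => σ.toEquiv) y ∈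
          T.filter fun y => r y = fun i a => σ (b i a) := by
      intro y
      simp only [Finset.mem_filter, hT, hx.mem_toFinset]
      refine and_congr (map_memE hσ' y).symm ⟨?_, fun h => funext fun i => funext fun a => ?_⟩
      · rintro rfl
        rfl
      · exact σ.injective (congrFun (congrFun h i) a)
    beta_reduce
    rw [← Finset.card_equiv _ key, ← Finset.sum_equiv _ key (f := g) fun y hy =>
      (hσ y (hx.mem_toFinset.1 (Finset.mem_filter.1 hy).1)).symm]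

theorem exists_measE [Fintype ι] [Fintype A] (hx : (orbE E x).Finite) :
    ∃ ν : Measure (ι → A → ℂ), IsProbabilityMeasure ν ∧
      ∀ φ : (ι → A → ℂ) → ℝ, ∫ z, φ z ∂ν = meanE E x φ := by
  have hc := card_posE hx
  refine ⟨(hx.toFinset.card : ENNReal)⁻¹ • ∑ y ∈ hx.toFinset, Measure.dirac y, ⟨?_⟩, fun φ => ?_⟩
  · simp only [Measure.smul_apply, Measure.coe_finsetSum, Finset.sum_apply, measure_univ,
      Finset.sum_const, nsmul_eq_mul, mul_one, smul_eq_mul]
    exact ENNReal.inv_mul_cancel (by exact_mod_cast hc.ne') (ENNReal.natCast_ne_top _)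
  · rw [integral_smul_measure, integral_finsetSum_measure fun y _ => integrable_dirac (by simp),
      mean_eqE hx]
    simp [div_eq_inv_mul]

end Mean

end Pool.Agent.Lib.MP_9177b7_ag.J.Lv
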