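import Pool.Agent.Lib.MP_9177b7_ag.L.Fin1

/-!
The equidistribution theorem for Galois orbits in a product of modular curves with level.
-/

open MeasureTheory Set Filter Topology Pointwise
open scoped UpperHalfPlane BoundedContinuousFunction MatrixGroups ENNReal

noncomputable section

namespace Pool.Agent.Lib.MP_9177b7_ag.J.Lv

open CM Fld Dyn Pool.Agent.Lib.MP_9177b7_ag.J.Fin FinalN

section Sub

variable (k : Fld) (w : ℂ) {F : ℕ+}

/-- The automorphism `σ` acts on invariants of lattices as the class `s`. -/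
def Rl (s : k.SF F) (σ : ℂ ≃+* ℂ) : Prop :=
  ∀ L c, k.Lat L c → k.Adm F L → σ (jL (L.map (k.ioL w))) = jL ((act s L).map (k.ioL w))

variable {k w}

theorem Rl.trans {s t : k.SF F} {σ ρ : ℂ ≃+* ℂ} (hs : Rl k w s σ) (ht : Rl k w t ρ) :
    Rl k w (s * t) (ρ.trans σ) := fun L c hL hA => by
  have hact := (basic k).2.2.2.2.2.2.2.1 F L c hL hA
  rw [RingEquiv.trans_apply, ht L c hL hA, hs _ c (hact.2 t).1 (hact.2 t).2.1,
    (hact.2 s).2.2.2.2.2.1]

theorem Rl.symm {s : k.SF F} {σ : ℂ ≃+* ℂ} (hs : Rl k w s σ) : Rl k w s⁻¹ σ.symm :=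
  fun L c hL hA => by
  have hact := (basic k).2.2.2.2.2.2.2.1 F L c hL hA
  rw [RingEquiv.symm_apply_eq, hs _ c (hact.2 _).1 (hact.2 _).2.1, ← (hact.2 s).2.2.2.2.2.1,
    mul_inv_cancel, hact.1]

variable (k w) (E : IntermediateField ℚ ℂ)

/-- The classes which come from automorphisms over `E`. -/
def SG (F : ℕ+) : Subgroup (k.SF F) where
  carrier := {s | ∃ σ : ℂ ≃+* ℂ, (∀ e ∈ E, σ e = e) ∧ Rl k w s σ}
  one_mem' := ⟨RingEquiv.refl ℂ, fun _ _ => rfl, fun L c hL hA => by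
    rw [((basic k).2.2.2.2.2.2.2.1 F L c hL hA).1]
    rfl⟩
  mul_mem' := fun ⟨_, h1, h2⟩ ⟨_, h3, h4⟩ => ⟨_, fix_trans h3 h1, h2.trans h4⟩
  inv_mem' := fun ⟨_, h1, h2⟩ => ⟨_, fix_symm h1, h2.symm⟩

variable [FiniteDimensional ℚ E]

theorem fin_hom : Finite (E →+* ℂ) := by
  have : NumberField E := { to_charZero := inferInstance, to_finiteDimensional := ‹_› }
  infer_instance

variable {w} in
theorem SG_index (hw : k.Root w) (F : ℕ+) : (SG k w E F).index ≤ Nat.card (E →+* ℂ) := by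
  have := fin_hom E
  choose σ _ hσ using exists_aut' k hw F
  refine Nat.card_le_card_of_injective
    (fun q : k.SF F ⧸ SG k w E F => (σ q.out : ℂ →+* ℂ).comp E.subtype) fun q q' h => ?_
  rw [← q.out_eq', ← q'.out_eq']
  refine QuotientGroup.eq.2 ⟨_, fun e he => ?_, Rl.trans (Rl.symm (hσ q.out)) (hσ q'.out)⟩
  rw [RingEquiv.trans_apply, RingEquiv.symm_apply_eq]
  exact (RingHom.congr_fun h ⟨e, he⟩).symm

theorem exists_iter (σ : ℂ ≃+* ℂ) (m : ℕ) : ∃ ρ : ℂ ≃+* ℂ, ∀ x, ρ x = σ^[m] x := by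
  induction m with
  | zero => exact ⟨RingEquiv.refl ℂ, fun _ => rfl⟩
  | succ m ih =>
    obtain ⟨ρ, h⟩ := ih
    exact ⟨ρ.trans σ, fun x => by rw [RingEquiv.trans_apply, h, Function.iterate_succ_apply']⟩

theorem exists_N : ∃ N : ℕ, 0 < N ∧ ∀ σ : ℂ ≃+* ℂ, ∀ e ∈ E, σ^[N] e = e := by
  have := fin_hom E
  refine ⟨Nat.card (Equiv.Perm (E →+* ℂ)), Nat.card_pos, fun σ e he => ?_⟩
  let p : Equiv.Perm (E →+* ℂ) := ⟨fun f => (σ : ℂ →+* ℂ).comp f,
    fun f => (σ.symm : ℂ →+* ℂ).comp f, fun f => by ext; simp, fun f => by ext; simp⟩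
  have h : ∀ m : ℕ, (p ^ m) E.subtype ⟨e, he⟩ = σ^[m] e := by
    intro m
    induction m with
    | zero => rfl
    | succ m ih =>
      rw [pow_succ', Function.iterate_succ_apply', ← ih]
      rfl
  rw [← h, pow_card_eq_one']
  rfl

open Classical in
theorem avg_sub {G : Type} [Group G] [Fintype G] (S : Subgroup G) (ψ : G → ℝ) :
    (∑ s : S, ψ s) / Fintype.card S =
      S.index * ((∑ s, if s ∈ S then ψ s else 0) / Fintype.card G) := by
  have h1 : (S.index : ℝ) * Fintype.card S = Fintype.card G := by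
    rw [← Nat.card_eq_fintype_card, ← Nat.card_eq_fintype_card]
    exact_mod_cast S.index_mul_card
  have h2 : (0 : ℝ) < Fintype.card S := by exact_mod_cast Fintype.card_pos
  have h3 : (S.index : ℝ) ≠ 0 := by exact_mod_cast S.index_ne_zero_of_finite
  rw [← Finset.sum_filter, Finset.sum_subtype (p := (· ∈ S)) _ (by simp), ← h1]
  field_simp

end Sub

variable {M : ℕ} {ι A : Type} {a₀ : A} {g : ι → A → Matrix (Fin 2) (Fin 2) ℤ}
  {E : IntermediateField ℚ ℂ}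

theorem emb_one (lv : LvD M a₀ g) (i : ι) (z : ℍ) : emb (g i) z a₀ = jH z := by
  rw [emb, lv.one, mob_one]

theorem orbit_finE [Finite ι] [Finite A] (lv : LvD M a₀ g) (τ : ι → ℍ)
    (h : ∀ i, ∃ d, InField d (τ i)) : (orbE E fun i => emb (g i) (τ i)).Finite := by
  have : ∀ i, ∃ S : Set ℂ, S.Finite ∧ ∀ (σ : ℂ ≃+* ℂ) a, σ (emb (g i) (τ i) a) ∈ S := by
    intro i
    obtain ⟨d, hd⟩ := h i
    obtain ⟨k, w, hw, a, b, e⟩ := exists_fld (pos_of_in hd)
    obtain ⟨x, y, hτ⟩ := in_fld hd e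
    obtain ⟨F, hF, h1⟩ := exists_F1 k hw hτ
    have h2 := om_im k hw (Nat.mul_pos lv.pos hF)
    exact ⟨_, hyp.finite_Jset h2, fun σ a => map_J (om_eq k hw _) h2 σ
      (mob_J k hw (lv.det i a).1 (lv.det i a).2 hF h1)⟩
  choose S h1 h2 using this
  refine (Set.Finite.pi' fun i => Set.Finite.pi' fun _ : A => h1 i).subset ?_
  rintro _ ⟨σ, -, rfl⟩ i a
  exact h2 i σ a

theorem stepE [Fintype A] [FiniteDimensional ℚ E] (lv : LvD M a₀ g)
    (hE : ∀ σ : ℂ ≃+* ℂ, (∀ e ∈ E, σ e = e) → ∀ i z, ∃ z', ∀ a,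
      σ (emb (g i) z a) = emb (g i) z' a)
    (τ : ℕ → ι → ℍ) (k : Fld) {w : ℂ} (hw : k.Root w)
    (I J : Finset ι) (hI : ∀ n, ∀ i ∈ I, ∃ x y : ℚ, (τ n i : ℂ) = x + y * w) (k' : ι → Fld)
    (w' : ι → ℂ) (hw' : ∀ j, (k' j).Root (w' j))
    (hJ : ∀ n j, ∃ x y : ℚ, (τ n j : ℂ) = x + y * w' j)
    (hne : ∀ j ∈ J, ∀ a b : ℚ, w' j ≠ a + b * w)
    (hfin : ∀ n, (orbE E fun i => emb (g i) (τ n i)).Finite)
    (h1 : ∀ i (z : ℍ), IsCM z → ∀ᶠ n in atTop, jH (τ n i) ≠ jH z)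
    (h2 : ∀ i j, i ≠ j → ∀ g : Matrix (Fin 2) (Fin 2) ℚ, 0 < g.det →
      ∀ᶠ n in atTop, (jH (τ n i), jH (τ n j)) ∉ modCurve g) (φ : ι → (A → ℂ) →ᵇ ℝ) :
    Tendsto (fun n => meanE E (fun i => emb (g i) (τ n i)) fun y =>
      (∏ i : I, φ i (y i) - ∏ i : I, ∫ z, φ i z ∂muZ M (g i)) * ∏ j ∈ J, φ j (y j)) atTop
      (𝓝 0) := by
  classical
  have hF : ∀ n, ∃ F : ℕ+, ∀ i : I,
      (((F : ℕ) : ℂ) * w) • CM.sp (τ n i) 1 ≤ CM.sp (τ n i) 1 := by
    intro n
    choose x y hxy using fun i : I => hI n i i.2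
    choose F hF h using fun i : I => exists_F1 k hw (hxy i)
    refine ⟨⟨∏ i, F i, Finset.prod_pos fun i _ => hF i⟩, fun i => ?_⟩
    obtain ⟨G, hG⟩ := Finset.dvd_prod_of_mem F (Finset.mem_univ i)
    have := mul_le (h i) G
    rwa [← hG] at this
  choose F₀ hF using hF
  let F : ℕ → ℕ+ := fun n => ⟨M * F₀ n, Nat.mul_pos lv.pos (F₀ n).pos⟩
  choose x' y' hxy' using hJ
  choose G hG hG' using fun n j => exists_F1 (k' j) (hw' j) (hxy' n j)
  set C : ℝ := ∏ j ∈ J, ‖φ j‖ + 1 with hC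
  have hC0 : 0 < C := add_pos_of_nonneg_of_pos (Finset.prod_nonneg fun _ _ => norm_nonneg _) one_pos
  choose H hH1 hH2 hH3 using fun n => exists_condE (hfin n) I (fun y => ∏ j ∈ J, φ j (y j)) hC0.le
    fun y => by
      rw [Finset.abs_prod]
      exact (Finset.prod_le_prod (fun _ _ => abs_nonneg _)
        fun j _ => (φ j).norm_coe_le_norm _).trans (le_add_of_nonneg_right zero_le_one)
  choose σ hσE hσ using fun n (s : SG k w E (F n)) => s.2
  let f : (I → A → ℂ) → ℝ := fun b => ∏ i : I, φ i (b i) - ∏ i : I, ∫ z, φ i z ∂muZ M (g i)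
  choose y hy hle using fun n => mean_leE (hfin n) (σ n) (hσE n)
    fun y => f (fun i => y i) * H n fun i => y i
  choose ρ hρE hρ using hy
  choose τ' hτ' using fun n i => hE (ρ n) (hρE n) i (τ n i)
  choose L₀ c a b e using fun (i : I) n => exists_rep k hw (F₀ n).pos (hF n i) (ρ n)
  choose X Y o ho using fun (i : I) n => rep_tau k hw (a i n) (τ := τ' n i) (by
    rw [← e, ← emb_one lv i, ← hτ', emb_one lv])
  let L : I × A → ℕ → Submodule ℤ k.K := fun p n => sub k (g p.1 p.2) (X p.1 n) (Y p.1 n)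
  have hL₀ : ∀ i n, L (i, a₀) n = L₀ i n := fun i n => sub_eq k (by simp [lv.one]) (o i n).1
  have eL : ∀ (i : I) a n, ρ n (emb (g i) (τ n i) a) = jL ((L (i, a) n).map (k.ioL w)) :=
    fun i a n => by rw [hτ', ← ho, emb, jL_sub k hw (lv.det i a).1 (o i n)]
  have lat : ∀ p n, k.Lat (L p n) ((g p.1 p.2).det * c p.1 n) := fun p n =>
    OB_lat k (OB_sub k (lv.det _ _).1 (o p.1 n))
  have le : ∀ p n, L p n ≤ L (p.1, a₀) n := fun p n => hL₀ p.1 n ▸ sub_le k _ (o p.1 n).1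
  have ge : ∀ p n, (M : k.K) • L (p.1, a₀) n ≤ L p n := fun p n =>
    hL₀ p.1 n ▸ sub_ge k (lv.det _ _).2 (o p.1 n).1
  have adm : ∀ p n, k.Adm (F n) (L p n) := fun p n =>
    adm_sand (le p n) (ge p n) (by rw [hL₀]; exact b p.1 n)
  have a' : ∀ i n, k.Lat (L (i, a₀) n) (c i n) := fun i n => by rw [hL₀]; exact a i n
  have e' : ∀ (i : I) n, ρ n (jH (τ n i)) = jL ((L (i, a₀) n).map (k.ioL w)) := fun i n => by
    rw [hL₀]; exact e i n
  choose cf _ hcf _ using fun i n => (basic k).2.2.2.2.2.2.1 _ _ (a' i n)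
  have big : ∀ i (m : ℕ), 0 < m → ∀ᶠ n in atTop, ¬ k.Adm m (L (i, a₀) n) := fun i m hm => by
    filter_upwards [not_Jset (h1 i) (om_im k hw hm)] with n hn
    exact not_adm k hw (a' i n) (e' i n) hm hn
  let P : ℕ → Prop := fun n => ∀ i : I, ∀ m : ℕ, 0 < m → m ≤ 2 * M → ¬ k.Adm m (L (i, a₀) n)
  have hP : ∀ᶠ n in atTop, P n := eventually_all.2 fun i => by
    have := (eventually_all_finite (l := atTop) (p := fun m n => ¬ k.Adm m (L (i, a₀) n))
      (Set.finite_Ioc 0 (2 * M))).2 fun m hm => big i m hm.1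
    exact this.mono fun n hn m h0 hm => hn m ⟨h0, hm⟩
  have hact := fun p n => (basic k).2.2.2.2.2.2.2.1 (F n) _ _ (lat p n) (adm p n)
  obtain ⟨N₀, hN₀, hN⟩ := exists_N E
  let v : ∀ n, k.SF (F n) → ℝ := fun n s => (H n fun i a => jL ((act s (L (i, a) n)).map (k.ioL w))) / C
  have hlim := main' (M := M) (a₀ := a₀) hw (N := 2 ^ J.card * N₀) (by positivity) _ I rfl
    (fun i => g i) F L c cf (fun n s => if P n ∧ s ∈ SG k w E (F n) then v n s else 0)
    ⟨⟨lv.pos, fun i => lv.det i, fun i => lv.one i⟩, ⟨a', fun i => adm _, hcf, big, ?_⟩,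
      lat, adm, le, ge, ?_, ?_⟩ ?_ fun i => φ i
  · have h3 := ((hlim.const_mul C).abs).const_mul (Nat.card (E →+* ℂ) : ℝ)
    rw [mul_zero, abs_zero, mul_zero] at h3
    rw [tendsto_zero_iff_abs_tendsto_zero]
    refine squeeze_zero' (Eventually.of_forall fun n => abs_nonneg _) (hP.mono fun n hn => ?_) h3
    rw [Function.comp_apply, hH2 n f]
    refine (hle n).trans ?_
    have h4 : ∀ s i a, σ n s (jL ((L (i, a) n).map (k.ioL w))) =
      jL ((act (s : k.SF (F n)) (L (i, a) n)).map (k.ioL w)) := fun s i a =>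
        hσ n s _ _ (lat _ n) (adm _ n)
    simp only [hρ n, eL, h4]
    have h5 := avg_sub (SG k w E (F n)) fun s =>
      f (fun i a => jL ((act s (L (i, a) n)).map (k.ioL w))) *
        H n fun i a => jL ((act s (L (i, a) n)).map (k.ioL w))
    rw [h5, abs_mul, Nat.abs_cast]
    refine mul_le_mul (by exact_mod_cast SG_index k E hw _) (le_of_eq (congrArg _ ?_))
      (abs_nonneg _) (Nat.cast_nonneg _)
    rw [Fld.avg, ← mul_div_assoc, Finset.mul_sum]
    congr 1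
    refine Finset.sum_congr rfl fun s _ => ?_
    by_cases hs : s ∈ SG k w E (F n)
    · rw [if_pos hs, if_pos ⟨hn, hs⟩]
      simp only [f, v, JL]
      field_simp
    · rw [if_neg hs, if_neg fun h => hs h.2, zero_mul, mul_zero]
  · intro i j hij
    exact far k hw _ _ ρ _ _ _ _ (a' i) (a' j) (e' i) (e' j) (h2 i j fun h => hij (Subtype.ext h))
  · intro n s
    split_ifs
    · rw [abs_div, abs_of_pos hC0, div_le_one hC0]
      exact hH1 n _
    · simp
  · intro n s hs i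
    obtain ⟨hn, σ', s1, s2⟩ : P n ∧ s ∈ SG k w E (F n) := by
      by_contra h
      exact hs (if_neg h)
    obtain ⟨z, hz⟩ := hE _ (fix_trans (hρE n) s1) i (τ n i)
    have h3 : ∀ a, emb (g i) z a = jL ((act s (L (i, a) n)).map (k.ioL w)) := fun a => by
      rw [← hz, RingEquiv.trans_apply, eL, s2 _ _ (lat _ n) (adm _ n)]
    have hb := ((basic k).2.2.2.2.2.2.2.1 (F n) _ _ (a' i n) (adm _ n)).2 s
    obtain ⟨x, y, o', rfl⟩ := rep_tau k hw hb.1 (τ := z) (by rw [← h3, emb_one lv])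
    refine ⟨x, y, o', fun a => uniq_sub k hw lv.pos hb.1 (fun m h0 hm h => hn i m h0 hm ?_)
      ((hact (i, a) n).2 s).1 (OB_lat k (OB_sub k (lv.det i a).1 o'))
      (((hact (i, a) n).2 s).2.2.2.2.2.2.2.1 _ (le (i, a) n)) (sub_ge k (lv.det i a).2 o'.1) ?_⟩
    · exact (hcf i n m).2 ((hb.2.2.2.1 _ (hcf i n) m).1 h)
    · rw [← h3, emb, jL_sub k hw (lv.det i a).1 o']
  · intro n s u
    obtain ⟨σ₀, r0, r1⟩ := exists_aut' k hw (F n) u
    have hG0 : ∀ j, 0 < M * G n j := fun j => Nat.mul_pos lv.pos (hG n j)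
    obtain ⟨σ', -, s1, s2⟩ := exists_pow (om_eq k hw (F n)) (om_im k hw (F n).pos)
      (fun j => ((M * G n j : ℕ) : ℂ) * w' j) _ _ J (fun j _ => om_eq (k' j) (hw' j) (M * G n j))
      (fun j _ => om_im (k' j) (hw' j) (hG0 j)) (fun j hj p q h => by
        have h0 : ((M * G n j : ℕ) : ℂ) ≠ 0 := by exact_mod_cast (hG0 j).ne'
        refine hne j hj (p / (M * G n j : ℕ)) (q * (F n : ℕ) / (M * G n j : ℕ)) ?_
        generalize M * G n j = T at h h0
        push_cast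
        field_simp
        linear_combination h) r0
    have r2 : Rl k w (u ^ 2 ^ J.card) σ' := fun L c l1 l2 => by
      rw [s1 _ ⟨_, lat_isLat k hw l1, (adm_iff k hw _ _).1 l2, rfl⟩, iter_act k r1 l1 l2]
    obtain ⟨σ'', r3⟩ := exists_iter σ' N₀
    have r4 : Rl k w (u ^ (2 ^ J.card * N₀)) σ'' := fun L c l1 l2 => by
      rw [r3, iter_act k r2 l1 l2, pow_mul]
    have r5 : ∀ e ∈ E, σ'' e = e := fun e he => by rw [r3, hN σ' e he]
    have r6 : v n (u ^ (2 ^ J.card * N₀) * s) = v n s := by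
      simp only [v]
      rw [← hH3 n σ'' r5 ?_ fun i a => jL ((act s (L (i, a) n)).map (k.ioL w))]
      · congr 2
        funext i a
        rw [((hact (i, a) n).2 _).2.2.2.2.2.1,
          r4 _ _ ((hact (i, a) n).2 s).1 ((hact (i, a) n).2 s).2.1]
      · rintro _ ⟨ρ', -, rfl⟩
        refine Finset.prod_congr rfl fun j hj => congrArg _ (funext fun a => ?_)
        refine (r3 _).trans ?_
        exact Function.iterate_fixed (s2 j hj _ (map_J (om_eq (k' j) (hw' j) _)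
          (om_im (k' j) (hw' j) (hG0 j)) ρ'
          (mob_J (k' j) (hw' j) (lv.det j a).1 (lv.det j a).2 (hG n j) (hG' n j)))) _
    simp only [r6, (SG k w E (F n)).mul_mem_cancel_left ⟨σ'', r5, r4⟩]

theorem prod_limE [Fintype A] [FiniteDimensional ℚ E] (lv : LvD M a₀ g)
    (hE : ∀ σ : ℂ ≃+* ℂ, (∀ e ∈ E, σ e = e) → ∀ i z, ∃ z', ∀ a,
      σ (emb (g i) z a) = emb (g i) z' a) (τ : ℕ → ι → ℍ) (d : ι → ℕ)
    (hd : ∀ n i, InField (d i) (τ n i))
    (hfin : ∀ n, (orbE E fun i => emb (g i) (τ n i)).Finite)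
    (h1 : ∀ i (z : ℍ), IsCM z → ∀ᶠ n in atTop, jH (τ n i) ≠ jH z)
    (h2 : ∀ i j, i ≠ j → ∀ g : Matrix (Fin 2) (Fin 2) ℚ, 0 < g.det →
      ∀ᶠ n in atTop, (jH (τ n i), jH (τ n j)) ∉ modCurve g) (φ : ι → (A → ℂ) →ᵇ ℝ)
    (J : Finset ι) :
    Tendsto (fun n => meanE E (fun i => emb (g i) (τ n i)) fun y => ∏ j ∈ J, φ j (y j)) atTop
      (𝓝 (∏ j ∈ J, ∫ z, φ j z ∂muZ M (g j))) := by
  classical
  choose k w hw a b e using fun i => exists_fld (pos_of_in (hd 0 i))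
  induction J using Finset.strongInduction with
  | H J ih =>
    rcases J.eq_empty_or_nonempty with rfl | ⟨i₀, hi₀⟩
    · refine tendsto_const_nhds.congr fun n => ?_
      rw [mean_eqE (hfin n)]
      simp only [Finset.prod_empty, Finset.sum_const, nsmul_eq_mul, mul_one]
      exact (div_self (card_posE (hfin n)).ne').symm
    let p : ι → Prop := fun i => ∃ x y : ℚ, w i = x + y * w i₀
    have hsub : J.filter (fun i => ¬ p i) ⊂ J :=
      Finset.filter_ssubset.2 ⟨i₀, hi₀, not_not.2 ⟨0, 1, by simp⟩⟩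
    have hs := stepE lv hE τ (k i₀) (hw i₀) (J.filter p) (J.filter fun i => ¬ p i)
      (fun n i hi => by
        obtain ⟨x, y, h⟩ := in_fld (hd n i) (e i)
        obtain ⟨x', y', h'⟩ := (Finset.mem_filter.1 hi).2
        exact ⟨x + y * x', y * y', by rw [h, h']; push_cast; ring⟩)
      k w hw (fun n j => in_fld (hd n j) (e j))
      (fun j hj x y h => (Finset.mem_filter.1 hj).2 ⟨x, y, h⟩) hfin h1 h2 φ
    have h3 := hs.add ((ih _ hsub).const_mul (∏ i ∈ J.filter p, ∫ z, φ i z ∂muZ M (g i)))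
    rw [zero_add, Finset.prod_filter_mul_prod_filter_not] at h3
    refine h3.congr fun n => ?_
    rw [mean_eqE (hfin n), mean_eqE (hfin n), mean_eqE (hfin n), ← mul_div_assoc, ← add_div,
      Finset.mul_sum, ← Finset.sum_add_distrib]
    congr 1
    refine Finset.sum_congr rfl fun y _ => ?_
    rw [Finset.prod_coe_sort (f := fun i => φ i (y i)),
      Finset.prod_coe_sort (f := fun i => ∫ z, φ i z ∂muZ M (g i)),
      ← Finset.prod_filter_mul_prod_filter_not J p]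
    ring

theorem finalE [Fintype ι] [Fintype A] [FiniteDimensional ℚ E] (lv : LvD M a₀ g)
    (hE : ∀ σ : ℂ ≃+* ℂ, (∀ e ∈ E, σ e = e) → ∀ i z, ∃ z', ∀ a,
      σ (emb (g i) z a) = emb (g i) z' a) (B : ℕ) (τ : ℕ → ι → ℍ)
    (hK : ∀ n i, ∃ d ≤ B, InField d (τ n i))
    (h1 : ∀ i (z : ℍ), IsCM z → ∀ᶠ n in atTop, jH (τ n i) ≠ jH z)
    (h2 : ∀ i j, i ≠ j → ∀ g : Matrix (Fin 2) (Fin 2) ℚ, 0 < g.det →
      ∀ᶠ n in atTop, (jH (τ n i), jH (τ n j)) ∉ modCurve g) :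
    (∀ n, (orbE E fun i => emb (g i) (τ n i)).Finite) ∧ ∀ φ : (ι → A → ℂ) →ᵇ ℝ,
      Tendsto (fun n => meanE E (fun i => emb (g i) (τ n i)) φ) atTop
        (𝓝 (∫ x, φ x ∂(Measure.pi fun i => muZ M (g i)))) := by
  have hfin : ∀ n, (orbE E fun i => emb (g i) (τ n i)).Finite := fun n =>
    orbit_finE lv (τ n) fun i => (hK n i).imp fun _ h => h.2
  refine ⟨hfin, fun φ => ?_⟩
  have key : ∀ (ψ : ι → (A → ℂ) →ᵇ ℝ) (J : Finset ι), Tendsto (fun n =>
      meanE E (fun i => emb (g i) (τ n i)) fun y => ∏ j ∈ J, ψ j (y j)) atTop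
      (𝓝 (∏ j ∈ J, ∫ z, ψ j z ∂muZ M (g j))) := by
    intro ψ J
    refine split_fin (D := ι → Set.Iic B) (P := fun n d => ∀ i, InField (d i) (τ n i))
      (fun n => ?_) fun d ns hns hP => ?_
    · choose d hd hd' using hK n
      exact ⟨fun i => ⟨d i, hd i⟩, hd'⟩
    · exact prod_limE lv hE (fun n => τ (ns n)) (fun i => d i) hP (fun n => hfin _)
        (fun i z hz => hns.eventually (h1 i z hz))
        (fun i j hij g hg => hns.eventually (h2 i j hij g hg)) ψ J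
  choose ν hν hν' using fun n => exists_measE (hfin n)
  have hμ : ∀ i, IsProbabilityMeasure (muZ M (g i)) := fun i => by
    have h3 := key (fun _ => 1) {i}
    have h4 := key (fun _ => 1) ∅
    simp only [Finset.prod_singleton, Finset.prod_empty, BoundedContinuousFunction.coe_one,
      Pi.one_apply, integral_const, smul_eq_mul, mul_one] at h3 h4
    exact isProbabilityMeasure_iff_real.2 (tendsto_nhds_unique h3 h4)
  simpa only [hν'] using weak' _ ν hμ hν (fun ψ => by simpa only [hν'] using key ψ _) φ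

end Pool.Agent.Lib.MP_9177b7_ag.J.Lv
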