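import Pool.Agent.Lib.MP_9177b7_ag.L.Cover
import Pool.Agent.Lib.MP_9177b7_ag.J.DynN3

/-!
Principal congruence subgroups of the `S`-arithmetic lattice.
-/

open MeasureTheory Filter Topology Set Matrix
open scoped MatrixGroups ENNReal NNReal

noncomputable section

namespace Pool.Agent.Lib.MP_9177b7_ag.J.Lv

open Dyn

theorem dense_sub {F F' R : Type} [NormedField F] [NormedField F'] [CommRing R] (i : R →+* F)
    (j : R →+* F') (h : DenseRange fun r => (i r, j r)) (m : R) (hi : i m ≠ 0) (hj : j m ≠ 0) :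
    Dense {p : SL(2, F) × SL(2, F') | ∃ γ : SL(2, R),
      γ ∈ (SpecialLinearGroup.map (Ideal.Quotient.mk (Ideal.span {m}))).ker ∧
      p = (SpecialLinearGroup.map i γ, SpecialLinearGroup.map j γ)} := by
  let φ : SL(2, R) →* SL(2, F) × SL(2, F') :=
    (SpecialLinearGroup.map i).prod (SpecialLinearGroup.map j)
  let T := (SpecialLinearGroup.map (n := Fin 2) (Ideal.Quotient.mk (Ideal.span {m}))).ker.map φ
  have hc : IsClosed (T.topologicalClosure : Set (SL(2, F) × SL(2, F'))) :=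
    T.isClosed_topologicalClosure
  have h' : DenseRange fun r => (i (m * r), j (m * r)) := by
    have hs : Function.Surjective fun p : F × F' => (i m * p.1, j m * p.2) := fun p =>
      ⟨((i m)⁻¹ * p.1, (j m)⁻¹ * p.2), by simp [hi, hj]⟩
    have := hs.denseRange.comp h (by fun_prop)
    simpa [Function.comp_def] using this
  have h0 : ∀ r, Ideal.Quotient.mk (Ideal.span {m}) (m * r) = 0 := fun r =>
    Ideal.Quotient.eq_zero_iff_mem.2 (Ideal.mem_span_singleton.2 (dvd_mul_right _ _))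
  have key : ∀ g, g ∈ T.topologicalClosure := fun g => by
    refine Disc.gen2 T.topologicalClosure (fun s s' => ?_) (fun s s' => ?_) g
    · refine h'.induction_on (p := fun q : F × F' => (up q.1, up q.2) ∈ T.topologicalClosure)
        (s, s') (hc.preimage ((Disc.continuous_up.comp continuous_fst).prodMk
          (Disc.continuous_up.comp continuous_snd))) fun r => ?_
      let u : SL(2, R) := ⟨!![1, m * r; 0, 1], by simp [Matrix.det_fin_two]⟩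
      have hu : u.1 = !![1, m * r; 0, 1] := rfl
      refine T.le_topologicalClosure ⟨u, ?_, Prod.ext ?_ ?_⟩
      · refine MonoidHom.mem_ker.2 ?_
        ext a b
        fin_cases a <;> fin_cases b <;> simp [hu, -map_mul, h0]
      all_goals
        ext a b
        fin_cases a <;> fin_cases b <;> simp [φ, Disc.up_coe, hu]
    · refine h'.induction_on (p := fun q : F × F' => (lo q.1, lo q.2) ∈ T.topologicalClosure)
        (s, s') (hc.preimage ((Disc.continuous_lo.comp continuous_fst).prodMk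
          (Disc.continuous_lo.comp continuous_snd))) fun r => ?_
      let u : SL(2, R) := ⟨!![1, 0; m * r, 1], by simp [Matrix.det_fin_two]⟩
      have hu : u.1 = !![1, 0; m * r, 1] := rfl
      refine T.le_topologicalClosure ⟨u, ?_, Prod.ext ?_ ?_⟩
      · refine MonoidHom.mem_ker.2 ?_
        ext a b
        fin_cases a <;> fin_cases b <;> simp [hu, -map_mul, h0]
      all_goals
        ext a b
        fin_cases a <;> fin_cases b <;> simp [φ, Disc.lo_coe, hu]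
  intro g
  refine closure_mono ?_ (key g)
  rintro _ ⟨γ, h1, rfl⟩
  exact ⟨γ, h1, rfl⟩

theorem mem_ker {R : Type} [CommRing R] {m : R} {γ : SL(2, R)} :
    γ ∈ (SpecialLinearGroup.map (Ideal.Quotient.mk (Ideal.span {m}))).ker ↔
      ∀ i j, m ∣ γ i j - (1 : Matrix (Fin 2) (Fin 2) R) i j := by
  rw [MonoidHom.mem_ker, Matrix.SpecialLinearGroup.ext_iff]
  refine forall₂_congr fun i j => ?_
  rw [← Ideal.mem_span_singleton, ← Ideal.Quotient.eq]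
  fin_cases i <;> fin_cases j <;> simp

theorem mem_Gamma {M : ℕ} {δ : SL(2, ℤ)} : δ ∈ CongruenceSubgroup.Gamma M ↔
    ∀ i j, (M : ℤ) ∣ δ i j - (1 : Matrix (Fin 2) (Fin 2) ℤ) i j := by
  rw [CongruenceSubgroup.Gamma_mem', Matrix.SpecialLinearGroup.ext_iff]
  refine forall₂_congr fun i j => ?_
  rw [← ZMod.intCast_eq_intCast_iff_dvd_sub]
  fin_cases i <;> fin_cases j <;> simp [eq_comm]

variable (l₁ l₂ : ℕ) [Fact l₁.Prime] [Fact l₂.Prime] (M : ℕ)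

/-- The principal congruence subgroup. -/
def Gl : Subgroup (GG l₁ l₂) :=
  (SpecialLinearGroup.map (n := Fin 2)
    (Ideal.Quotient.mk (Ideal.span {(M : RM (l₁ * l₂))}))).ker.map
    ((diag l₁ l₂).comp (SpecialLinearGroup.map (RM (l₁ * l₂)).subtype))

theorem Gl_le : Gl l₁ l₂ M ≤ Gam l₁ l₂ := Subgroup.map_le_range _ _

theorem Gl_disc : DiscreteTopology (Gl l₁ l₂ M) :=
  DiscreteTopology.of_subset (s := (Gam l₁ l₂ : Set (GG l₁ l₂))) (Disc.discrete l₁ l₂)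
    (Gl_le l₁ l₂ M)

variable {l₁ l₂ M}

theorem gm_Gl {γ : SL(2, RM (l₁ * l₂))} (h : γ ∈ (SpecialLinearGroup.map
    (Ideal.Quotient.mk (Ideal.span {(M : RM (l₁ * l₂))}))).ker) : Disc.gm l₁ l₂ γ ∈ Gl l₁ l₂ M :=
  ⟨γ, h, Disc.gm_eq l₁ l₂ γ⟩

theorem Gl_dense (hne : l₁ ≠ l₂) (hM : M ≠ 0) :
    Dense {g : GG l₁ l₂ | ∃ h : HH l₁, ∃ γ ∈ Gl l₁ l₂ M, g = (h, 1) * γ} := by
  have hd := dense_sub _ _ (Disc.dense_pr l₂ l₁ hne.symm (dvd_mul_left l₂ l₁) (dvd_mul_right l₁ l₂))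
    (M : RM (l₁ * l₂)) (by simpa using hM) (by simpa using hM)
  refine Dense.mono ?_ (Dense.preimage hd (isOpenMap_snd (X := HH l₁) (Y := CC l₂)))
  rintro g ⟨γ, h1, hγ⟩
  refine ⟨g.1 * (Disc.gm l₁ l₂ γ).1⁻¹, Disc.gm l₁ l₂ γ, gm_Gl h1, Prod.ext (by simp) ?_⟩
  simpa [Disc.gm] using hγ

theorem Gl_K (hne : l₁ ≠ l₂) (hM : M ≠ 0) (g : GG l₁ l₂) :
    ∃ γ ∈ Gl l₁ l₂ M, g * γ ∈ Proj.KK l₁ l₂ := by
  have hd := dense_sub _ _ (Disc.dense_pp l₁ l₂ hne (dvd_mul_right l₁ l₂) (dvd_mul_left l₂ l₁))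
    (M : RM (l₁ * l₂)) (by simpa using hM) (by simpa using hM)
  have hU : IsOpen {q : HH l₁ × HH l₂ | g.1 * q.1 ∈ Kint l₁ ∧ g.2.1 * q.2 ∈ Kint l₂} :=
    ((Disc.isOpen_Kint l₁).preimage (continuous_const.mul continuous_fst)).inter
      ((Disc.isOpen_Kint l₂).preimage (continuous_const.mul continuous_snd))
  obtain ⟨_, ⟨γ, h1, rfl⟩, hγ⟩ := hd.exists_mem_open hU
    ⟨(g.1⁻¹, g.2.1⁻¹), by simpa using Disc.one_mem_Kint l₁, by simpa using Disc.one_mem_Kint l₂⟩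
  exact ⟨Disc.gm l₁ l₂ γ, gm_Gl h1, (Proj.mem_KK l₁ l₂).2 ⟨hγ.1, hγ.2⟩⟩

theorem emb_Gl {δ : SL(2, ℤ)} (h : δ ∈ CongruenceSubgroup.Gamma M) :
    Proj.emb l₁ l₂ δ ∈ Gl l₁ l₂ M := by
  refine ⟨SpecialLinearGroup.map (Int.castRingHom _) δ, mem_ker.2 fun i j => ?_, ?_⟩
  · obtain ⟨z, hz⟩ := mem_Gamma.1 h i j
    refine ⟨(z : RM (l₁ * l₂)), ?_⟩
    have := congrArg (Int.cast : ℤ → RM (l₁ * l₂)) hz
    push_cast at this
    rw [← this]
    fin_cases i <;> fin_cases j <;> simp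
  · change diag l₁ l₂ _ = diag l₁ l₂ _
    congr 1

theorem Gl_emb (hM : Nat.Coprime M (l₁ * l₂)) {δ : SL(2, ℤ)} (h : Proj.emb l₁ l₂ δ ∈ Gl l₁ l₂ M) :
    δ ∈ CongruenceSubgroup.Gamma M := by
  obtain ⟨γ, h1, h2⟩ := h
  refine mem_Gamma.2 fun i j => ?_
  obtain ⟨r, hr⟩ := mem_ker.1 h1 i j
  obtain ⟨e, z, hz⟩ := r.2
  have h3 : ((γ i j : ℚ) : ℝ) = (δ i j : ℝ) := by
    have := congrArg (fun g : GG l₁ l₂ => g.2.2 i j) h2
    simpa [diag, Proj.emb] using this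
  have h4 : (γ i j : ℚ) = (δ i j : ℚ) := by exact_mod_cast h3
  have h5 : ((δ i j - (1 : Matrix (Fin 2) (Fin 2) ℤ) i j : ℤ) : ℚ) = M * (r : ℚ) := by
    have := congrArg (fun x : RM (l₁ * l₂) => (x : ℚ)) hr
    push_cast at this ⊢
    rw [← this, h4]
    fin_cases i <;> fin_cases j <;> simp
  have h6 : (δ i j - (1 : Matrix (Fin 2) (Fin 2) ℤ) i j) * ((l₁ * l₂ : ℕ) : ℤ) ^ e = M * z := by
    have : ((δ i j - (1 : Matrix (Fin 2) (Fin 2) ℤ) i j : ℤ) : ℚ) * ((l₁ * l₂ : ℕ) : ℚ) ^ e =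
      M * z := by rw [h5, mul_assoc, hz]
    exact_mod_cast this
  exact (IsCoprime.pow_right (Nat.isCoprime_iff_coprime.2 hM)).dvd_of_dvd_mul_right ⟨z, h6⟩

/-- The cosets of the principal congruence subgroup. -/
abbrev QQ (M : ℕ) : Type := SL(2, ℤ) ⧸ CongruenceSubgroup.Gamma M

theorem rep (hne : l₁ ≠ l₂) (hM : M ≠ 0) (hc : Nat.Coprime M (l₁ * l₂)) :
    Rep (Gam l₁ l₂) (Gl l₁ l₂ M) fun q : QQ M => Proj.emb l₁ l₂ q.out := by
  refine ⟨Gl_le l₁ l₂ M, fun q => Proj.emb_Gam l₁ l₂ _, fun γ hγ => ?_, fun q q' h => ?_⟩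
  · obtain ⟨γ', h1, h2⟩ := Gl_K hne hM γ
    have h3 := (Proj.mem_KK l₁ l₂).1 h2
    obtain ⟨δ, hδ⟩ := Disc.integral l₁ l₂ _ (mul_mem hγ (Gl_le l₁ l₂ M h1)) h3.1 h3.2
    obtain ⟨ε, hε⟩ := QuotientGroup.mk_out_eq_mul (CongruenceSubgroup.Gamma M) δ
    refine ⟨QuotientGroup.mk δ, ?_⟩
    have h4 : Proj.emb l₁ l₂ δ = γ * γ' := hδ.symm
    rw [hε, map_mul, h4]
    simpa [mul_assoc] using mul_mem (inv_mem (emb_Gl ε.2)) (inv_mem h1)
  · rw [← map_inv, ← map_mul] at h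
    rw [← QuotientGroup.out_eq' q, ← QuotientGroup.out_eq' q']
    exact QuotientGroup.eq.2 (Gl_emb hc h)

/-! ### The degeneracy maps -/

/-- The determinant as a unit. -/
def uq (F : Type) [Field F] (B : Matrix (Fin 2) (Fin 2) ℤ) : Fˣ := by
  classical exact if h : ((B.det : ℤ) : F) = 0 then 1 else Units.mk0 _ h

theorem uq_coe (F : Type) [Field F] [CharZero F] {B : Matrix (Fin 2) (Fin 2) ℤ} (h : 0 < B.det) :
    (uq F B : F) = (B.det : ℤ) := by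
  rw [uq, dif_neg (by exact_mod_cast h.ne')]
  rfl

/-- The `l`-adic component of the matrix. -/
def bp (F : Type) [Field F] (B : Matrix (Fin 2) (Fin 2) ℤ) : SL(2, F) :=
  toSL (!![1, 0; 0, ((B.det : ℤ) : F)⁻¹] * B.map (fun a : ℤ => (a : F)))

/-- The real component of the matrix. -/
def br (B : Matrix (Fin 2) (Fin 2) ℤ) : SL(2, ℝ) :=
  toSL ((Real.sqrt (B.det : ℤ))⁻¹ • B.map (fun a : ℤ => (a : ℝ)))

theorem det_cast (F : Type) [Field F] (B : Matrix (Fin 2) (Fin 2) ℤ) :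
    (B.map (fun a : ℤ => (a : F))).det = (B.det : ℤ) := by
  simp [Matrix.det_fin_two]

theorem bp_coe (F : Type) [Field F] [CharZero F] {B : Matrix (Fin 2) (Fin 2) ℤ} (h : 0 < B.det) :
    (bp F B).1 = !![1, 0; 0, ((B.det : ℤ) : F)⁻¹] * B.map (fun a : ℤ => (a : F)) := by
  have : ((B.det : ℤ) : F) ≠ 0 := by exact_mod_cast h.ne'
  refine coe_toSL ?_
  rw [Matrix.det_mul, det_cast, Matrix.det_fin_two_of]
  field_simp
  simp

theorem br_coe {B : Matrix (Fin 2) (Fin 2) ℤ} (h : 0 < B.det) :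
    (br B).1 = (Real.sqrt (B.det : ℤ))⁻¹ • B.map (fun a : ℤ => (a : ℝ)) := by
  have : (0 : ℝ) < (B.det : ℤ) := by exact_mod_cast h
  refine coe_toSL ?_
  rw [Matrix.det_smul, det_cast, Fintype.card_fin, inv_pow, Real.sq_sqrt this.le,
    inv_mul_cancel₀ this.ne']

theorem sg_mul {F : Type} [Field F] (t : Fˣ) (g : SL(2, F)) :
    (sg t g).1 * !![1, 0; 0, (t : F)⁻¹] = !![1, 0; 0, (t : F)⁻¹] * g.1 := by
  rw [Mix.sg_coe]
  ext i j
  fin_cases i <;> fin_cases j <;> simp [Matrix.mul_apply, Fin.sum_univ_two, mul_comm]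

variable (l₁ l₂) in
/-- Conjugation by the determinant. -/
def sig (B : Matrix (Fin 2) (Fin 2) ℤ) : GG l₁ l₂ →* GG l₁ l₂ :=
  (sg (uq ℚ_[l₁] B)).prodMap ((sg (uq ℚ_[l₂] B)).prodMap (MonoidHom.id _))

variable (l₁ l₂) in
/-- The element attached to the matrix. -/
def be (B : Matrix (Fin 2) (Fin 2) ℤ) : GG l₁ l₂ := (bp _ B, bp _ B, br B)

theorem sig_cont (B : Matrix (Fin 2) (Fin 2) ℤ) : Continuous (sig l₁ l₂ B) :=
  (Mix.continuous_sg _).prodMap ((Mix.continuous_sg _).prodMap continuous_id)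

theorem sig_TT (B : Matrix (Fin 2) (Fin 2) ℤ) {b : GG l₁ l₂} (hb : TT l₁ l₂ b) :
    sig l₁ l₂ B b = b :=
  Prod.ext (DynN.sg_DG _ hb.1) (Prod.ext (DynN.sg_DG _ hb.2.1) rfl)

theorem sig_one (g : GG l₁ l₂) : sig l₁ l₂ 1 g * be l₁ l₂ 1 = g := by
  have h : (0 : ℤ) < (1 : Matrix (Fin 2) (Fin 2) ℤ).det := by simp
  have a : ∀ (F : Type) [Field F] [CharZero F] (g : SL(2, F)), sg (uq F 1) g * bp F 1 = g := by
    intro F _ _ g
    apply Subtype.ext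
    rw [Matrix.SpecialLinearGroup.coe_mul, bp_coe F h, Mix.sg_coe, uq_coe F h]
    ext i j
    fin_cases i <;> fin_cases j <;> simp [Matrix.mul_apply, Fin.sum_univ_two]
  refine Prod.ext (a _ _) (Prod.ext (a _ _) ?_)
  apply Subtype.ext
  change (g.2.2 * br 1).1 = _
  rw [Matrix.SpecialLinearGroup.coe_mul, br_coe h]
  simp

theorem desc {B : Matrix (Fin 2) (Fin 2) ℤ} (h : 0 < B.det) {γ γ' : SL(2, ℚ)}
    (e : γ.1 * B.map (fun a : ℤ => (a : ℚ)) = B.map (fun a : ℤ => (a : ℚ)) * γ'.1) :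
    sig l₁ l₂ B (diag l₁ l₂ γ) * be l₁ l₂ B = be l₁ l₂ B * diag l₁ l₂ γ' := by
  have e' : ∀ (F : Type) [Field F] [CharZero F] [Algebra ℚ F],
      (SpecialLinearGroup.map (algebraMap ℚ F) γ).1 * B.map (fun a : ℤ => (a : F)) =
        B.map (fun a : ℤ => (a : F)) * (SpecialLinearGroup.map (algebraMap ℚ F) γ').1 := by
    intro F _ _ _
    ext i j
    have := congrArg (fun X : Matrix (Fin 2) (Fin 2) ℚ => ((X i j : ℚ) : F)) e
    simpa [Matrix.mul_apply, Fin.sum_univ_two] using this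
  have a : ∀ (F : Type) [Field F] [CharZero F] [Algebra ℚ F],
      sg (uq F B) (SpecialLinearGroup.map (algebraMap ℚ F) γ) * bp F B =
        bp F B * SpecialLinearGroup.map (algebraMap ℚ F) γ' := by
    intro F _ _ _
    apply Subtype.ext
    rw [Matrix.SpecialLinearGroup.coe_mul, Matrix.SpecialLinearGroup.coe_mul, bp_coe F h, ← uq_coe F h,
      ← Matrix.mul_assoc, sg_mul, Matrix.mul_assoc, Matrix.mul_assoc, e']
  refine Prod.ext (a _) (Prod.ext (a _) ?_)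
  apply Subtype.ext
  change (SpecialLinearGroup.map (algebraMap ℚ ℝ) γ * br B).1 =
    (br B * SpecialLinearGroup.map (algebraMap ℚ ℝ) γ').1
  rw [Matrix.SpecialLinearGroup.coe_mul, Matrix.SpecialLinearGroup.coe_mul, br_coe h, Matrix.mul_smul,
    Matrix.smul_mul, e']

/-- The condition for the degeneracy map to descend. -/
def Ds (Γ : Subgroup (GG l₁ l₂)) (B : Matrix (Fin 2) (Fin 2) ℤ) : Prop :=
  ∀ γ ∈ Γ, ∃ γ' ∈ Gam l₁ l₂, sig l₁ l₂ B γ * be l₁ l₂ B = be l₁ l₂ B * γ'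

theorem ds_of {B : Matrix (Fin 2) (Fin 2) ℤ} (h : 0 < B.det) (γ : SL(2, RM (l₁ * l₂)))
    (X : Matrix (Fin 2) (Fin 2) (RM (l₁ * l₂)))
    (e : γ.1 * B.map (fun a : ℤ => (a : RM (l₁ * l₂))) = B.map (fun a : ℤ => (a : RM (l₁ * l₂))) * X) :
    ∃ γ' ∈ Gam l₁ l₂, sig l₁ l₂ B (diag l₁ l₂ (SpecialLinearGroup.map (RM (l₁ * l₂)).subtype γ)) *
      be l₁ l₂ B = be l₁ l₂ B * γ' := by
  have hd : X.det = 1 := by
    have h1 := congrArg Matrix.det e
    have h2 : (B.map (fun a : ℤ => (a : RM (l₁ * l₂)))).det = (B.det : ℤ) := by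
      simp [Matrix.det_fin_two]
    rw [Matrix.det_mul, Matrix.det_mul, γ.det_coe, one_mul, h2] at h1
    exact (mul_eq_left₀ (by exact_mod_cast h.ne')).1 h1.symm
  let δ : SL(2, RM (l₁ * l₂)) := ⟨X, hd⟩
  have hδ : δ.1 = X := rfl
  refine ⟨_, ⟨δ, rfl⟩, desc h ?_⟩
  ext i j
  have := congrArg (fun X : Matrix (Fin 2) (Fin 2) (RM (l₁ * l₂)) => ((X i j : RM (l₁ * l₂)) : ℚ)) e
  simpa [Matrix.mul_apply, Fin.sum_univ_two, hδ] using this

theorem ds_Gl {B : Matrix (Fin 2) (Fin 2) ℤ} (h : 0 < B.det) (hd : B.det ∣ M) :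
    Ds (Gl l₁ l₂ M) B := by
  rintro _ ⟨γ, h1, rfl⟩
  choose N hN using mem_ker.1 h1
  obtain ⟨u, hu⟩ := hd
  set B' := B.map (fun a : ℤ => (a : RM (l₁ * l₂))) with hB'
  have h2 : B'.det = (B.det : ℤ) := by simp [hB', Matrix.det_fin_two]
  have h3 : γ.1 = 1 + (M : RM (l₁ * l₂)) • Matrix.of N := by
    ext i j
    have := hN i j
    simp only [Matrix.add_apply, Matrix.smul_apply, Matrix.of_apply, smul_eq_mul]
    rw [← this]
    simp
  have h4 : (M : RM (l₁ * l₂)) = (u : RM (l₁ * l₂)) * B'.det := by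
    rw [h2, mul_comm (u : RM (l₁ * l₂))]
    exact_mod_cast congrArg (Int.cast : ℤ → RM (l₁ * l₂)) hu
  refine ds_of h γ (1 + (u : RM (l₁ * l₂)) • (B'.adjugate * (Matrix.of N * B'))) ?_
  rw [h3, Matrix.add_mul, Matrix.mul_add, Matrix.one_mul, Matrix.mul_one, Matrix.mul_smul,
    ← Matrix.mul_assoc, Matrix.mul_adjugate, Matrix.smul_mul, Matrix.smul_mul, Matrix.one_mul,
    smul_smul, h4]

theorem ds_Gam {q u E : ℕ} (hq : q * u = (l₁ * l₂) ^ E) (h : 0 < q) :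
    Ds (Gam l₁ l₂) !![1, 0; 0, (q : ℤ)] := by
  rintro _ ⟨γ, rfl⟩
  have hq1 : (q : ℚ) ≠ 0 := by exact_mod_cast h.ne'
  have hinv : (q : ℚ)⁻¹ ∈ RM (l₁ * l₂) := ⟨E, u, by
    have : (((l₁ * l₂ : ℕ) : ℚ)) ^ E = q * u := by exact_mod_cast hq.symm
    rw [this, inv_mul_cancel_left₀ hq1]
    simp⟩
  refine ds_of (by simpa using h) γ !![γ 0 0, (q : RM (l₁ * l₂)) * γ 0 1;
    ⟨_, hinv⟩ * γ 1 0, γ 1 1] ?_
  ext i j
  fin_cases i <;> fin_cases j <;> simp [Matrix.mul_apply, Fin.sum_univ_two, mul_comm]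
  field_simp

/-- The degeneracy map. -/
def Th (Γ : Subgroup (GG l₁ l₂)) (B : Matrix (Fin 2) (Fin 2) ℤ) (x : GG l₁ l₂ ⧸ Γ) : XX l₁ l₂ :=
  QuotientGroup.mk (sig l₁ l₂ B x.out * be l₁ l₂ B)

variable {Γ : Subgroup (GG l₁ l₂)} {B : Matrix (Fin 2) (Fin 2) ℤ}

theorem Th_mk (h : Ds Γ B) (g : GG l₁ l₂) :
    Th Γ B (QuotientGroup.mk g) = QuotientGroup.mk (sig l₁ l₂ B g * be l₁ l₂ B) := by
  obtain ⟨γ, hγ⟩ := QuotientGroup.mk_out_eq_mul Γ g
  obtain ⟨γ', h1, h2⟩ := h γ γ.2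
  rw [Th, hγ, map_mul, mul_assoc, h2, ← mul_assoc, QuotientGroup.mk_mul_of_mem _ h1]

theorem Th_smul (h : Ds Γ B) (g : GG l₁ l₂) (x : GG l₁ l₂ ⧸ Γ) :
    Th Γ B (g • x) = sig l₁ l₂ B g • Th Γ B x := by
  obtain ⟨x, rfl⟩ := QuotientGroup.mk_surjective x
  rw [MulAction.Quotient.smul_mk, Th_mk h, Th_mk h, MulAction.Quotient.smul_mk, smul_eq_mul,
    smul_eq_mul, map_mul, mul_assoc]

theorem Th_cont (h : Ds Γ B) : Continuous (Th Γ B) := by
  refine (QuotientGroup.isQuotientMap_mk _).continuous_iff.2 ?_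
  have : Th Γ B ∘ QuotientGroup.mk = fun g => QuotientGroup.mk (sig l₁ l₂ B g * be l₁ l₂ B) :=
    funext (Th_mk h)
  rw [this]
  exact QuotientGroup.continuous_mk.comp ((sig_cont B).mul continuous_const)

theorem fr_th (k : Fld) {w : ℂ} {r₁ : ℚ_[l₁]} {r₂ : ℚ_[l₂]} (h₁ : k.Root r₁) (h₂ : k.Root r₂)
    (h : 0 < B.det) {x y : k.K} (hd : 0 < -w.im * k.det2 x y) :
    fr k w r₁ r₂ (c0 k (B.map fun a : ℤ => (a : ℚ)) x y) (c1 k (B.map fun a : ℤ => (a : ℚ)) x y) =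
      sig l₁ l₂ B (fr k w r₁ r₂ x y) * be l₁ l₂ B := by
  have hdet := det2_c k (B.map fun a : ℤ => (a : ℚ)) x y
  rw [det_cast] at hdet
  have hq : ((B.det : ℤ) : ℚ) ≠ 0 := by exact_mod_cast h.ne'
  have mm : ∀ {F : Type} [Field F] [CharZero F], (B.map fun a : ℤ => (a : ℚ)).map
      (fun a : ℚ => (a : F)) = B.map fun a : ℤ => (a : F) := by
    intro F _ _
    ext i j
    simp
  have a : ∀ {F : Type} [Field F] [CharZero F] {r : F}, k.Root r →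
      toSL (mp k r (c0 k (B.map fun a : ℤ => (a : ℚ)) x y) (c1 k (B.map fun a : ℤ => (a : ℚ)) x y)) =
        sg (uq F B) (toSL (mp k r x y)) * bp F B := by
    intro F _ _ r hr
    apply Subtype.ext
    rw [coe_toSL (det_mp k hr (hdet ▸ mul_ne_zero hq (det2_ne k hd))), Matrix.SpecialLinearGroup.coe_mul,
      bp_coe F h, ← uq_coe F h, ← Matrix.mul_assoc, sg_mul, coe_toSL (det_mp k hr (det2_ne k hd)),
      mp, mp, hdet, PP_mul, uq_coe F h, ← Matrix.mul_assoc, ← Matrix.mul_assoc, mm,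
      Rat.cast_mul, Rat.cast_intCast]
    congr 2
    generalize ((B.det : ℤ) : F) = d
    ext i j
    fin_cases i <;> fin_cases j <;> simp [Matrix.mul_apply, Fin.sum_univ_two]
    ring
  refine Prod.ext (a h₁) (Prod.ext (a h₂) (toSL_mul (det_mr k hd) ?_))
  change _ = _ * (br B).1
  have hqr : (0 : ℝ) ≤ (B.det : ℤ) := by exact_mod_cast h.le
  have e2 : Real.sqrt (-w.im * (((B.det : ℤ) * k.det2 x y : ℚ) : ℝ)) =
      Real.sqrt (-w.im * k.det2 x y) * Real.sqrt (B.det : ℤ) := by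
    rw [← Real.sqrt_mul hd.le, Rat.cast_mul, Rat.cast_intCast]
    congr 1
    ring
  rw [br_coe h, mr, mr, hdet, e2, mr_c, Matrix.smul_mul, Matrix.mul_smul, smul_smul, mul_inv,
    mm]

theorem norm_det {l : ℕ} [Fact l.Prime] (hd : B.det ∣ M) (hl : ¬ l ∣ M) :
    ‖((B.det : ℤ) : ℚ_[l])‖ = 1 := by
  refine le_antisymm (Padic.norm_int_le_one _) (not_lt.1 fun h => hl ?_)
  exact Int.natCast_dvd_natCast.1 ((Padic.norm_intCast_lt_one_iff.1 h).trans hd)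

theorem th_K {l : ℕ} [Fact l.Prime] (h : 0 < B.det) (hn : ‖((B.det : ℤ) : ℚ_[l])‖ = 1) {g : HH l}
    (hg : g ∈ Kint l) : sg (uq _ B) g * bp _ B ∈ Kint l := by
  refine (Proj.Ks l).mul_mem (fun i j => ?_) fun i j => ?_
  · change ‖(sg (uq ℚ_[l] B) g).1 i j‖ ≤ 1
    rw [Mix.sg_coe, uq_coe _ h]
    fin_cases i <;> fin_cases j <;> simp [hn] <;> exact hg _ _
  · change ‖(bp ℚ_[l] B).1 i j‖ ≤ 1
    rw [bp_coe _ h]
    fin_cases i <;> fin_cases j <;> simp [Matrix.mul_apply, Fin.sum_univ_two, hn] <;>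
      exact Padic.norm_int_le_one _

theorem sg_ad {l : ℕ} [Fact l.Prime] (t : ℚ_[l]ˣ) (a : ℚ_[l]) :
    sg t (up a * Join.wl l) = dg t * (up (a / t) * Join.wl l) := by
  apply Subtype.ext
  rw [Mix.sg_coe]
  simp only [Matrix.SpecialLinearGroup.coe_mul, Join.wl_coe, Disc.up_coe, Disc.dg_coe]
  ext i j
  fin_cases i <;> fin_cases j <;> simp [Matrix.mul_apply, Fin.sum_univ_two]
  field_simp

end Pool.Agent.Lib.MP_9177b7_ag.J.Lv
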