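import Pool.Agent.Lib.MP_9177b7_ag.L.Lev

/-!
The invariant measure of the congruence cover, its projection to the modular curve of higher
level, and the identification of limit measures.
-/

open MeasureTheory Filter Topology Set Matrix
open scoped MatrixGroups ENNReal NNReal UpperHalfPlane BoundedContinuousFunction

noncomputable section

namespace Pool.Agent.Lib.MP_9177b7_ag.J.Lv

open Dyn DynN

/-- The Möbius transformation of an integer matrix of positive determinant. -/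
def mob (g : Matrix (Fin 2) (Fin 2) ℤ) (τ : ℍ) : ℍ :=
  UpperHalfPlane.ofComplex ((g 0 0 * τ + g 0 1) / (g 1 0 * τ + g 1 1))

/-- The model of the modular curve. -/
def emb {A : Type} (g : A → Matrix (Fin 2) (Fin 2) ℤ) (τ : ℍ) : A → ℂ :=
  fun a => CM.jH (mob (g a) τ)

/-- The normalised hyperbolic measure on the standard fundamental domain. -/
def muF : Measure ℍ :=
  ((volume : Measure ℍ) ModularGroup.fd)⁻¹ • (volume : Measure ℍ).restrict ModularGroup.fd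

/-- The normalised hyperbolic measure of the modular curve. -/
def muZ {A : Type} (M : ℕ) (g : A → Matrix (Fin 2) (Fin 2) ℤ) : Measure (A → ℂ) :=
  ((CongruenceSubgroup.Gamma M).index : ENNReal)⁻¹ •
    Measure.sum fun q : SL(2, ℤ) ⧸ CongruenceSubgroup.Gamma M =>
      muF.map fun τ => emb g (q.out⁻¹ • τ)

/-- The level data. -/
structure LvD (M : ℕ) {ι A : Type} (a₀ : A) (g : ι → A → Matrix (Fin 2) (Fin 2) ℤ) : Prop where
  pos : 0 < M
  det : ∀ i a, 0 < (g i a).det ∧ (g i a).det ∣ M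
  one : ∀ i, g i a₀ = 1

theorem det_adj (g : Matrix (Fin 2) (Fin 2) ℤ) : g.adjugate.det = g.det := by
  simp [Matrix.det_adjugate]

theorem br_mob {g : Matrix (Fin 2) (Fin 2) ℤ} (h : 0 < g.det) (τ : ℍ) :
    (br g.adjugate)⁻¹ • τ = mob g τ := by
  have h1 := br_coe (B := g.adjugate) (by rwa [det_adj])
  have hs : ((Real.sqrt (g.adjugate.det : ℤ) : ℝ) : ℂ) ≠ 0 := by
    rw [det_adj]
    exact_mod_cast (Real.sqrt_pos.2 (by exact_mod_cast h)).ne'
  rw [mob, ← UpperHalfPlane.ofComplex_apply ((br g.adjugate)⁻¹ • τ)]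
  congr 1
  rw [UpperHalfPlane.coe_specialLinearGroup_apply]
  simp only [Algebra.algebraMap_self, RingHom.id_apply, inv00, inv01, inv10, inv11]
  have e : ∀ i j, br g.adjugate i j = (Real.sqrt (g.adjugate.det : ℤ))⁻¹ * (g.adjugate i j : ℝ) :=
    fun i j => congrFun (congrFun h1 i) j
  simp only [e]
  generalize Real.sqrt (g.adjugate.det : ℤ) = s at hs
  rw [← mul_div_mul_left (g 0 0 * (τ : ℂ) + g 0 1) _ (inv_ne_zero hs)]
  simp [Matrix.adjugate_fin_two, mul_add, mul_assoc]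

theorem mob_cont {g : Matrix (Fin 2) (Fin 2) ℤ} (h : 0 < g.det) : Continuous (mob g) := by
  rw [← funext (br_mob h)]
  exact continuous_const_smul _

theorem mob_one (τ : ℍ) : mob 1 τ = τ := by
  simp [mob]

variable {l₁ l₂ : ℕ} [Fact l₁.Prime] [Fact l₂.Prime] {M : ℕ}

theorem th_KK {B : Matrix (Fin 2) (Fin 2) ℤ} (h : 0 < B.det) (hd : B.det ∣ M) (c₁ : ¬ l₁ ∣ M)
    (c₂ : ¬ l₂ ∣ M) {s : GG l₁ l₂} (hs : s ∈ Proj.KK l₁ l₂) :
    sig l₁ l₂ B s * be l₁ l₂ B ∈ Proj.KK l₁ l₂ :=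
  have h1 := (Proj.mem_KK l₁ l₂).1 hs
  (Proj.mem_KK l₁ l₂).2 ⟨th_K h (norm_det hd c₁) h1.1, th_K h (norm_det hd c₂) h1.2⟩

theorem cop (c₁ : ¬ l₁ ∣ M) (c₂ : ¬ l₂ ∣ M) : Nat.Coprime M (l₁ * l₂) :=
  Nat.Coprime.mul_right ((Nat.Prime.coprime_iff_not_dvd Fact.out).2 c₁).symm
    ((Nat.Prime.coprime_iff_not_dvd Fact.out).2 c₂).symm

instance borelG [PolishSpace (GG l₁ l₂ ⧸ Gl l₁ l₂ M)] : BorelSpace (GG l₁ l₂ ⧸ Gl l₁ l₂ M) :=
  inferInstance

instance borelP {ι : Type} [Fintype ι] [PolishSpace (XX l₁ l₂)] :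
    BorelSpace ((ι → XX l₁ l₂) × II) := inferInstance

instance opensP {ι A : Type} [Fintype ι] [Fintype A] [PolishSpace (XX l₁ l₂)] :
    OpensMeasurableSpace ((ι × A → XX l₁ l₂) × II) := inferInstance

variable [PolishSpace (XX l₁ l₂)] [PolishSpace (GG l₁ l₂ ⧸ Gl l₁ l₂ M)] {μ : Measure (XX l₁ l₂)}
  [IsProbabilityMeasure μ] {jX : XX l₁ l₂ → ℂ}

theorem exists_mu' (hne : l₁ ≠ l₂) (hM : 0 < M) (c₁ : ¬ l₁ ∣ M) (c₂ : ¬ l₂ ∣ M)
    (gμ : ∀ g : GG l₁ l₂, μ.map (g • ·) = μ) (hjc : Continuous jX)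
    (hj : ∀ g : GG l₁ l₂, g.1 ∈ Kint l₁ → g.2.1 ∈ Kint l₂ →
      jX (QuotientGroup.mk g) = CM.jH (g.2.2⁻¹ • UpperHalfPlane.I)) (hjm : μ.map jX = muJ) :
    ∃ μ' : Measure (GG l₁ l₂ ⧸ Gl l₁ l₂ M), IsProbabilityMeasure μ' ∧
      (∀ g : GG l₁ l₂, μ'.map (g • ·) = μ') ∧ ∀ (A : Type) [Fintype A]
      (g : A → Matrix (Fin 2) (Fin 2) ℤ), (∀ a, 0 < (g a).det ∧ (g a).det ∣ M) →
      μ'.map (fun x a => jX (Th (Gl l₁ l₂ M) (g a).adjugate x)) = muZ M g := by
  have : NeZero M := ⟨hM.ne'⟩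
  let _ : Fintype (QQ M) := Fintype.ofFinite _
  have R := rep hne hM.ne' (cop c₁ c₂)
  obtain ⟨ρ, hρ, iρ, fρ, -⟩ := exists_rho (ι := Unit) R (Measure.pi fun _ => μ) (Mix.pi_inv μ gμ)
  have ev : Measurable fun y : Unit → GG l₁ l₂ ⧸ Gl l₁ l₂ M => y () := measurable_pi_apply ()
  refine ⟨ρ.map fun y => y (), Measure.isProbabilityMeasure_map ev.aemeasurable, fun s => ?_,
    fun A _ g hg => ?_⟩
  · exact map_inv (continuous_const_smul _).measurable (iρ fun _ => s) ev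
      (continuous_const_smul _).measurable fun _ => rfl
  have ds : ∀ a, Ds (Gl l₁ l₂ M) (g a).adjugate := fun a =>
    ds_Gl (by rw [det_adj]; exact (hg a).1) (by rw [det_adj]; exact (hg a).2)
  set J : GG l₁ l₂ ⧸ Gl l₁ l₂ M → A → ℂ := fun x a => jX (Th (Gl l₁ l₂ M) (g a).adjugate x) with hJ
  have mJ : Measurable J := (continuous_pi fun a => hjc.comp (Th_cont (ds a))).measurable
  have hJK : ∀ s ∈ Proj.KK l₁ l₂, J (QuotientGroup.mk s) = emb g (Proj.pt s) := fun s hs => by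
    funext a
    have h1 := (Proj.mem_KK l₁ l₂).1 (th_KK (B := (g a).adjugate) (by rw [det_adj]; exact (hg a).1)
      (by rw [det_adj]; exact (hg a).2) c₁ c₂ hs)
    simp only [hJ, emb]
    rw [Th_mk (ds a), hj _ h1.1 h1.2, ← br_mob (hg a).1, Proj.pt, ← mul_smul, ← _root_.mul_inv_rev]
    rfl
  have me : ∀ q : QQ M, Measurable fun τ : ℍ => emb g (q.out⁻¹ • τ) := fun q =>
    (continuous_pi fun a => CM.Eis.continuous_jH.comp ((mob_cont (hg a).1).comp (by
      rw [← funext (Proj.emb_smul l₁ l₂ q.out⁻¹)]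
      exact continuous_const_smul _))).measurable
  refine Measure.ext_of_lintegral _ fun F hF => ?_
  let G : ℍ → ℝ≥0∞ := fun τ => ∑ q : QQ M, F (emb g (q.out⁻¹ • τ))
  have mG : Measurable G := Finset.measurable_sum _ fun q _ => hF.comp (me q)
  have hG : ∀ s ∈ Proj.KK l₁ l₂, fib (Gl l₁ l₂ M) (fun q : QQ M => Proj.emb l₁ l₂ q.out)
      (fun y : Unit → _ => F (J (y ()))) (fun _ => s) = G (Proj.pt s) := fun s hs => by
    refine Fintype.sum_equiv (Equiv.funUnique Unit _) _ _ fun q => ?_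
    beta_reduce
    rw [hJK _ (mul_mem hs (Proj.emb_KK l₁ l₂ _)), ← Proj.pt_mul, inv_inv]
    rfl
  have iG : ∀ (δ : SL(2, ℤ)) τ, G (δ • τ) = G τ := fun δ τ => by
    have hs : ((1, 1, τ.toSL2R⁻¹) : GG l₁ l₂) ∈ Proj.KK l₁ l₂ :=
      (Proj.mem_KK l₁ l₂).2 ⟨Disc.one_mem_Kint _, Disc.one_mem_Kint _⟩
    have e : Proj.pt ((1, 1, τ.toSL2R⁻¹) : GG l₁ l₂) = τ := by
      rw [Proj.pt, inv_inv]
      exact τ.toSL2R_smul_I
    rw [← e, ← Proj.pt_mul, ← hG _ hs, ← hG _ (mul_mem hs (Proj.emb_KK l₁ l₂ _)), ← fib_out R,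
      ← fib_out R _ fun _ => ((1, 1, τ.toSL2R⁻¹) : GG l₁ l₂)]
    simp only [QuotientGroup.mk_mul_of_mem _ (Proj.emb_Gam l₁ l₂ _)]
  let G' : ℂ → ℝ≥0∞ := fun z => G (Function.surjInv CM.Eis.surj_jH z)
  have hG' : ∀ τ, G' (CM.jH τ) = G τ := fun τ => by
    obtain ⟨δ, hδ⟩ := CM.hyp.jH_eq_iff.1 (Function.surjInv_eq CM.Eis.surj_jH (CM.jH τ))
    conv_rhs => rw [hδ, iG]
  have mG' : Measurable G' := by
    refine (CM.Eis.continuous_jH.measurable.measurable_comp_iff_of_surjective CM.Eis.surj_jH).1 ?_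
    rwa [show G' ∘ CM.jH = G from funext hG']
  have c0 : (Fintype.card (Unit → QQ M) : ℝ≥0∞) ≠ 0 := by exact_mod_cast Fintype.card_ne_zero
  have c1 : ((CongruenceSubgroup.Gamma M).index : ℝ≥0∞) = Fintype.card (Unit → QQ M) := by
    rw [Subgroup.index, Nat.card_eq_fintype_card, Fintype.card_congr (Equiv.funUnique Unit _)]
  have h1 : ∀ x : Unit → XX l₁ l₂, fib (Gl l₁ l₂ M) (fun q : QQ M => Proj.emb l₁ l₂ q.out)
      (fun y : Unit → _ => F (J (y ()))) (fun i => (x i).out) = G' (jX (x ())) := fun x => by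
    obtain ⟨γ, a1, a2, a3⟩ := (disc l₁ l₂ hne).2.1 (x ()).out
    have e : ∀ i, x i = QuotientGroup.mk ((x ()).out * γ) := fun i => by
      rw [QuotientGroup.mk_mul_of_mem _ a1, QuotientGroup.out_eq']
    generalize (x ()).out * γ = s at a2 a3 e
    simp only [e]
    rw [fib_out R _ fun _ => s, hG _ ((Proj.mem_KK l₁ l₂).2 ⟨a2, a3⟩), hj _ a2 a3, hG']
    rfl
  rw [lintegral_map hF mJ, lintegral_map (f := fun a => F (J a)) (hF.comp mJ) ev,
    ← ENNReal.mul_right_inj c0 (ENNReal.natCast_ne_top _),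
    fρ (fun y => F (J (y ()))) ((hF.comp mJ).comp ev), lintegral_congr h1,
    (measurePreserving_eval (fun _ : Unit => μ) ()).lintegral_comp (f := fun x => G' (jX x))
      (mG'.comp hjc.measurable), ← lintegral_map mG' hjc.measurable, hjm, muJ,
    lintegral_map mG' CM.Eis.continuous_jH.measurable, muZ, lintegral_smul_measure (c := _⁻¹)
      (μ := Measure.sum _), smul_eq_mul, ← mul_assoc, c1,
    ENNReal.mul_inv_cancel c0 (ENNReal.natCast_ne_top _), one_mul, lintegral_sum_measure,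
    tsum_fintype]
  simp only [hG', lintegral_map hF (me _)]
  exact lintegral_finsetSum _ fun q _ => hF.comp (me q)

variable {ι A : Type} [Fintype ι] [Fintype A] {a₀ : A} {g : ι → A → Matrix (Fin 2) (Fin 2) ℤ}

variable (l₁ l₂ M g) in
/-- The map from the cover to the product. -/
def Ps (x : ι → GG l₁ l₂ ⧸ Gl l₁ l₂ M) (p : ι × A) : XX l₁ l₂ :=
  Th (Gl l₁ l₂ M) (g p.1 p.2).adjugate (x p.1)

variable (g) in
/-- The twisted action. -/
def tw (v : ι → GG l₁ l₂) (p : ι × A) : GG l₁ l₂ := sig l₁ l₂ (g p.1 p.2).adjugate (v p.1)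

omit [PolishSpace (XX l₁ l₂)] [PolishSpace (GG l₁ l₂ ⧸ Gl l₁ l₂ M)] [Fintype ι] [Fintype A] in
theorem LvD.ds (D : LvD M a₀ g) (i : ι) (a : A) : Ds (Gl l₁ l₂ M) (g i a).adjugate :=
  ds_Gl (by rw [det_adj]; exact (D.det i a).1) (by rw [det_adj]; exact (D.det i a).2)

theorem fin_lim (hne : l₁ ≠ l₂) (D : LvD M a₀ g) (c₁ : ¬ l₁ ∣ M) (c₂ : ¬ l₂ ∣ M)
    (gμ : ∀ g : GG l₁ l₂, μ.map (g • ·) = μ) (hjc : Continuous jX)
    (hj : ∀ g : GG l₁ l₂, g.1 ∈ Kint l₁ → g.2.1 ∈ Kint l₂ →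
      jX (QuotientGroup.mk g) = CM.jH (g.2.2⁻¹ • UpperHalfPlane.I)) (hjm : μ.map jX = muJ)
    {νs : ℕ → ProbabilityMeasure ((ι × A → XX l₁ l₂) × II)}
    {ν : ProbabilityMeasure ((ι × A → XX l₁ l₂) × II)} (hν : Tendsto νs atTop (𝓝 ν))
    (hs : MeasurableSet {z : (ι × A → XX l₁ l₂) × II | z.1 ∉ range (Ps l₁ l₂ M g) ∧ (z.2 : ℝ) ≠ 0} →
      ∀ n, (νs n : Measure ((ι × A → XX l₁ l₂) × II))
      {z | z.1 ∉ range (Ps l₁ l₂ M g) ∧ (z.2 : ℝ) ≠ 0} = 0)
    (hπ : (ν : Measure ((ι × A → XX l₁ l₂) × II)).map (fun z i => z.1 (i, a₀)) =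
      Measure.pi fun _ => μ)
    (hi : (∃ (u : ι → GG l₁ l₂) (t : ℚ_[l₁]ˣ), 1 < ‖(t : ℚ_[l₁])‖ ∧
      (ν : Measure ((ι × A → XX l₁ l₂) × II)).map
        (Prod.map (tw g (fun i => u i * (dg t, 1) * (u i)⁻¹) • ·) id) = ν) ∨
      ∃ X : ι → ℚ_[l₁], (∀ i, X i ≠ 0) ∧ ∀ σ, (ν : Measure ((ι × A → XX l₁ l₂) × II)).map
        (Prod.map (tw g (fun i => ((up (σ * X i), 1) : GG l₁ l₂)) • ·) id) = ν)
    (φ : ι → (A → ℂ) →ᵇ ℝ) : ∃ f : (ι × A → XX l₁ l₂) →ᵇ ℝ,
      (∀ z, f z = ∏ i, φ i (fun a => jX (z (i, a))) - ∏ i, ∫ y, φ i y ∂muZ M (g i)) ∧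
      Tendsto (fun n => ∫ z, (z.2 : ℝ) * f z.1 ∂(νs n : Measure ((ι × A → XX l₁ l₂) × II))) atTop
        (𝓝 0) := by
  classical
  have : NeZero M := ⟨D.pos.ne'⟩
  let _ : Fintype (QQ M) := Fintype.ofFinite _
  have R := rep hne D.pos.ne' (cop c₁ c₂)
  obtain ⟨μ', hμ', iμ', pμ'⟩ := exists_mu' hne D.pos c₁ c₂ gμ hjc hj hjm
  obtain ⟨ρ, hρ, iρ, -, dρ⟩ := exists_rho (ι := ι) R (Measure.pi fun _ => μ) (Mix.pi_inv μ gμ)
  obtain ⟨-, -, -, -, -, u1, -, uG⟩ := disc l₁ l₂ hne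
  have := u1 Measure.haar
  have := uG Measure.haar
  have := Gl_disc l₁ l₂ M
  obtain ⟨-, A2⟩ := uniq (GG l₁ l₂) (HH l₁) (CC l₂) (ContinuousMulEquiv.refl _) (Gl l₁ l₂ M)
    Measure.haar Measure.haar (Gl_dense hne D.pos.ne')
  have c1 : Continuous (MonoidHom.inl (HH l₁) (CC l₂)) := Continuous.prodMk_left 1
  have E1 : ErgF μ' fun (s : ℚ_[l₁]) (x : GG l₁ l₂ ⧸ Gl l₁ l₂ M) =>
      (MonoidHom.inl (HH l₁) (CC l₂) (up s) : GG l₁ l₂) • x := fun lam hle h =>
    (A2 μ' lam hμ' (isFiniteMeasure_of_le μ' hle) (fun h => iμ' _)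
      ((maut (GG l₁ l₂) _ μ' lam inferInstance iμ' hle).2 l₁ _ c1 h)).1
  have hρ' : ρ = Measure.pi fun _ => μ' := by
    refine pi_of_inv μ' (fun (s : GG l₁ l₂) x => s • x) (fun s => (continuous_const_smul s).measurable)
      (fun lam hl h => (A2 μ' lam hμ' hl (fun h => iμ' _) fun _ => h _).1) ρ fun i s => ?_
    refine Eq.trans ?_ (iρ (Pi.mulSingle i s))
    congr 1
    funext z j
    by_cases hj : j = i
    · subst hj
      simp
    · simp [Pi.mulSingle_eq_of_ne hj, Function.update_of_ne hj]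
  have cP : Continuous (Ps l₁ l₂ M g) :=
    continuous_pi fun p => (Th_cont (D.ds p.1 p.2)).comp (continuous_apply p.1)
  let p : (ι × A → XX l₁ l₂) → ι → XX l₁ l₂ := fun z i => z (i, a₀)
  have cp : Continuous p := continuous_pi fun i => continuous_apply _
  have hp : ∀ y i, p (Ps l₁ l₂ M g y) i = pj R.le (y i) := fun y i => by
    obtain ⟨s, hs⟩ := QuotientGroup.mk_surjective (y i)
    simp only [p, Ps]
    rw [← hs, Th_mk (D.ds i a₀), D.one, Matrix.adjugate_one, sig_one, pj_mk]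
  have hW : IsClosed (range (Ps l₁ l₂ M g)) := by
    refine (isProperMap_of_comp_of_t2 cP cp ?_).isClosed_range
    rw [show p ∘ Ps l₁ l₂ M g = fun y i => pj R.le (y i) from funext fun y => funext (hp y)]
    exact IsProperMap.pi_map fun _ => pj_proper R
  have hO : IsOpen {z : (ι × A → XX l₁ l₂) × II | z.1 ∉ range (Ps l₁ l₂ M g) ∧ (z.2 : ℝ) ≠ 0} :=
    (hW.isOpen_compl.preimage continuous_fst).inter
      (isOpen_ne_fun (continuous_subtype_val.comp continuous_snd) continuous_const)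
  have hs' := ProbabilityMeasure.le_liminf_measure_open_of_tendsto hν hO
  simp only [hs hO.measurableSet, liminf_const, nonpos_iff_eq_zero] at hs'
  have : IsProbabilityMeasure (ρ.map (Ps l₁ l₂ M g)) :=
    Measure.isProbabilityMeasure_map cP.measurable.aemeasurable
  let f₀ : (ι × A → XX l₁ l₂) →ᵇ ℝ := ∏ i, (φ i).compContinuous ⟨fun z a => jX (z (i, a)),
    continuous_pi fun a => hjc.comp (continuous_apply _)⟩
  have hf₀ : ∀ z, f₀ z = ∏ i, φ i (fun a => jX (z (i, a))) := fun z => by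
    simp [f₀, BoundedContinuousFunction.prod_apply]
  let f := f₀ - BoundedContinuousFunction.const _ (∏ i, ∫ y, φ i y ∂muZ M (g i))
  have hf : ∫ y, f y ∂ρ.map (Ps l₁ l₂ M g) = 0 := by
    simp only [f, BoundedContinuousFunction.sub_apply, BoundedContinuousFunction.const_apply]
    rw [integral_sub (f₀.integrable _) (integrable_const _), integral_map cP.measurable.aemeasurable
      f₀.continuous.aestronglyMeasurable, integral_const, probReal_univ, one_smul, sub_eq_zero, hρ']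
    simp only [hf₀, Ps]
    rw [integral_fintype_prod_eq_prod (fun i x => φ i fun a =>
      jX (Th (Gl l₁ l₂ M) (g i a).adjugate x))]
    refine Finset.prod_congr rfl fun i _ => ?_
    rw [← pμ' A (g i) (D.det i)]
    exact (integral_map (continuous_pi fun a => hjc.comp (Th_cont (D.ds i a))).measurable.aemeasurable
      (φ i).continuous.aestronglyMeasurable).symm
  have key : ∀ {P : Type} (v : P → ι → GG l₁ l₂), ErgF ρ (fun q y => v q • y) →
      (∀ q, (ν : Measure ((ι × A → XX l₁ l₂) × II)).map (Prod.map (tw g (v q) • ·) id) = ν) →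
      ∫ z, (z.2 : ℝ) * f z.1 ∂(ν : Measure ((ι × A → XX l₁ l₂) × II)) = 0 := fun v hE hi =>
    lift_zero hW.measurableSet hs' cp.measurable hπ Fintype.card_ne_zero
      (dρ _ _ p cP.measurable cp.measurable hp) (fun q => (continuous_const_smul _).measurable)
      (erg_map cP.measurable (fun q => (continuous_const_smul _).measurable)
        (fun q => (Homeomorph.smul (tw g (v q))).measurableEmbedding) (fun q => iρ _)
        (fun q x => funext fun r => Th_smul (D.ds r.1 r.2) _ _) hE) hi f hf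
  have h0 : ∫ z, (z.2 : ℝ) * f z.1 ∂(ν : Measure ((ι × A → XX l₁ l₂) × II)) = 0 := by
    rcases hi with ⟨u, t, ht, hi⟩ | ⟨X, hX, hi⟩
    · refine key (fun (_ : Unit) i => u i * (dg t, 1) * (u i)⁻¹) ?_ fun _ => hi
      have E2 : ErgF ρ fun (_ : Unit) y => (fun _ : ι => ((dg t, 1) : GG l₁ l₂)) • y := by
        rw [hρ']
        exact fun lam hle h => Mix.diag_erg μ' iμ' _ c1 E1 t ht lam hle (h ())
      have := erg_map (Ψ := fun y => u • y) (continuous_const_smul _).measurable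
        (T := fun (_ : Unit) y => (fun i => u i * (dg t, 1) * (u i)⁻¹) • y)
        (fun q => (continuous_const_smul _).measurable)
        (fun q => (Homeomorph.smul fun i => u i * (dg t, 1) * (u i)⁻¹).measurableEmbedding)
        (fun q => iρ _) (fun q x => funext fun r => by simp [smul_smul]) E2
      rwa [iρ] at this
    · refine key (fun σ i => ((up (σ * X i), 1) : GG l₁ l₂)) ?_ hi
      rw [hρ']
      exact fun lam hle h => Mix.line_erg μ' iμ' _ c1 E1 X hX lam hle h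
  refine ⟨f, fun z => by simp [f, hf₀], ?_⟩
  let a : II →ᵇ ℝ := BoundedContinuousFunction.mkOfCompact ⟨Subtype.val, continuous_subtype_val⟩
  rw [← h0]
  exact ProbabilityMeasure.tendsto_iff_forall_integral_tendsto.1 hν
    (a.compContinuous ⟨Prod.snd, continuous_snd⟩ * f.compContinuous ⟨Prod.fst, continuous_fst⟩)

end Pool.Agent.Lib.MP_9177b7_ag.J.Lv
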